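import Pool.Agent.Helper6.SQ.StripE
import Pool.Agent.Helper7.FreeMove

set_option autoImplicit false

/-! # Small multiplicities in every characteristic (helper22), MP_e6aa12_ag: the checker

Certificates for single cases: rows are lists, the moves are the nodal moves and the
characteristic-free interval moves. -/

namespace Pool.Agent.Helper22.E6

open Pool.Agent.Helper41.Fat Pool.Agent.Helper7.NM Pool.Agent.Helper7.Free Pool.Agent.Helper6.SQ

variable {K : Type*} [Field K]

/-- Rows from a list. -/
def fn (l : List ℕ) (i : ℕ) : ℕ := l.getD i 0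

theorem fn_nil (i : ℕ) : fn [] i = 0 := by simp [fn]

theorem fn_cons_zero (v : ℕ) (t : List ℕ) : fn (v :: t) 0 = v := rfl

theorem fn_cons_succ (v : ℕ) (t : List ℕ) (i : ℕ) : fn (v :: t) (i + 1) = fn t i := rfl

theorem fn_of_le (l : List ℕ) (i : ℕ) (h : l.length ≤ i) : fn l i = 0 := by
  unfold fn
  rw [List.getD_eq_default _ _ h]

/-- minimum, computed with `Nat.ble` -/
def mn (a b : ℕ) : ℕ := bif Nat.ble a b then a else b

theorem mn_eq (a b : ℕ) : mn a b = min a b := by
  unfold mn
  cases h : Nat.ble a b with
  | true => rw [cond_true, min_eq_left (Nat.le_of_ble_eq_true h)]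
  | false =>
    rw [cond_false, min_eq_right]
    have : ¬ a ≤ b := fun h' => by rw [Nat.ble_eq_true_of_le h'] at h; exact absurd h (by decide)
    omega

/-- `∑ min (v - s) δ` -/
def sumMin (s δ : ℕ) : List ℕ → ℕ
  | [] => 0
  | v :: t => mn (v - s) δ + sumMin s δ t

/-- the nodal move on lists -/
def nodAux (δ : ℕ) : ℕ → List ℕ → List ℕ
  | _, [] => []
  | k, v :: t => ((v - δ * k) + sumMin (δ * k) δ t) :: nodAux δ (k + 1) t

theorem sumMin_eq (s δ : ℕ) (l : List ℕ) :
    sumMin s δ l = ∑ c ∈ Finset.range l.length, min (fn l c - s) δ := by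
  induction l with
  | nil => rfl
  | cons v t ih =>
    rw [sumMin, ih, List.length_cons, Finset.sum_range_succ', add_comm, mn_eq]
    rfl

theorem fn_nodAux (δ : ℕ) (l : List ℕ) : ∀ k i, fn (nodAux δ k l) i =
    if i < l.length then (fn l i - δ * (k + i)) +
      ∑ c ∈ Finset.Ioc i l.length, min (fn l c - δ * (k + i)) δ else 0 := by
  induction l with
  | nil => intro k i; simp [nodAux, fn_nil]
  | cons v t ih =>
    intro k i
    cases i with
    | zero =>
      rw [nodAux, fn_cons_zero, if_pos (by simp), fn_cons_zero, add_zero, sumMin_eq]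
      congr 1
      have e : Finset.Ioc 0 (v :: t).length = Finset.Ico 1 (t.length + 2) := by
        ext c
        simp only [Finset.mem_Ioc, Finset.mem_Ico, List.length_cons]
        omega
      rw [e, Finset.sum_Ico_eq_sum_range]
      have e2 : t.length + 2 - 1 = t.length + 1 := by omega
      rw [e2, Finset.sum_range_succ]
      have e3 : fn (v :: t) (1 + t.length) = 0 := fn_of_le _ _ (by simp [Nat.add_comm])
      rw [e3, Nat.zero_sub, Nat.zero_min, add_zero]
      refine Finset.sum_congr rfl fun c _ => ?_
      rw [add_comm 1 c, fn_cons_succ]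
    | succ i =>
      rw [nodAux, fn_cons_succ, ih, List.length_cons, fn_cons_succ]
      have e1 : k + 1 + i = k + (i + 1) := by ring
      rw [e1]
      by_cases h : i < t.length
      · rw [if_pos h, if_pos (by omega)]
        congr 1
        have e : Finset.Ioc (i + 1) (t.length + 1) = (Finset.Ioc i t.length).map
            ⟨fun c => c + 1, add_left_injective 1⟩ := by
          ext c
          simp only [Finset.mem_Ioc, Finset.mem_map, Function.Embedding.coeFn_mk]
          constructor
          · rintro ⟨h1, h2⟩
            exact ⟨c - 1, by omega, by omega⟩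
          · rintro ⟨a, ha, rfl⟩
            omega
        rw [e, Finset.sum_map]
        rfl
      · rw [if_neg h, if_neg (by omega)]

/-- the nodal move on lists -/
def nodL (δ : ℕ) (l : List ℕ) : List ℕ := nodAux δ 0 l

theorem fn_nodL (δ : ℕ) (l : List ℕ) : fn (nodL δ l) = nod δ l.length (fn l) := by
  funext i
  rw [nodL, fn_nodAux, nod, zero_add]
  by_cases h : i < l.length
  · rw [if_pos h, if_pos h.le]
  · rw [if_neg h]
    by_cases h2 : i ≤ l.length
    · have h3 : i = l.length := by omega
      rw [if_pos h2, fn_of_le l i (by omega), h3, Finset.Ioc_self]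
      simp
    · rw [if_neg h2]

/-- a segment list for the row `i`: `(len, c0)` -/
def segOK (lam : ℕ) (l : List ℕ) (i : ℕ) : ℕ → List (ℕ × ℕ) → Bool
  | _, [] => true
  | u, (len, c0) :: t =>
    ((List.range (i + 1)).all fun k => Nat.blt (c0 + k) l.length &&
      (Nat.ble (lam * (c0 + k)) u && Nat.ble (u + len) (lam * (c0 + k) + fn l (c0 + k)))) &&
    segOK lam l i (u + len) t

/-- total length of a segment list -/
def segLen : List (ℕ × ℕ) → ℕ
  | [] => 0
  | (len, _) :: t => len + segLen t

theorem segOK_sound (lam : ℕ) (l : List ℕ) (i : ℕ) (s : List (ℕ × ℕ)) :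
    ∀ u, segOK lam l i u s = true → ∀ w, u ≤ w → w < u + segLen s →
      ∃ c0, ∀ c, c0 ≤ c → c ≤ c0 + i → c ∈ act lam l.length (fn l) w := by
  induction s with
  | nil => intro u _ w h1 h2; simp [segLen] at h2; omega
  | cons p t ih =>
    obtain ⟨len, c0⟩ := p
    intro u h w h1 h2
    rw [segOK, Bool.and_eq_true, List.all_eq_true] at h
    obtain ⟨h3, h4⟩ := h
    by_cases hw : w < u + len
    · refine ⟨c0, fun c hc1 hc2 => ?_⟩
      have h5 := h3 (c - c0) (by rw [List.mem_range]; omega)
      have e : c0 + (c - c0) = c := by omega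
      rw [e, Bool.and_eq_true, Bool.and_eq_true] at h5
      obtain ⟨h6, h7, h8⟩ := h5
      have h6' : c < l.length := by
        have := Nat.le_of_ble_eq_true h6
        omega
      have h7' := Nat.le_of_ble_eq_true h7
      have h8' := Nat.le_of_ble_eq_true h8
      rw [mem_act]
      exact ⟨h6', by omega, by omega⟩
    · refine ih (u + len) h4 w (by omega) ?_
      rw [segLen] at h2
      omega

/-- data of an interval move: for every new row the start and the segments -/
def mvOK (lam : ℕ) (l : List ℕ) : ℕ → List (ℕ × List (ℕ × ℕ)) → Bool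
  | _, [] => true
  | i, (a, s) :: t => (Nat.ble (lam * i) a && segOK lam l i a s) && mvOK lam l (i + 1) t

/-- the rows after an interval move -/
def mvRes : List (ℕ × List (ℕ × ℕ)) → List ℕ
  | [] => []
  | (_, s) :: t => segLen s :: mvRes t

theorem mvOK_sound (lam : ℕ) (l : List ℕ) (D : List (ℕ × List (ℕ × ℕ))) :
    ∀ k, mvOK lam l k D = true → ∀ i, ∃ a, lam * (k + i) ≤ a ∧ ∀ u, a ≤ u →
      u < a + fn (mvRes D) i →
      ∃ c0, ∀ c, c0 ≤ c → c ≤ c0 + (k + i) → c ∈ act lam l.length (fn l) u := by
  induction D with
  | nil =>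
    intro k _ i
    refine ⟨lam * (k + i), le_rfl, fun u h1 h2 => ?_⟩
    rw [mvRes, fn_nil] at h2
    omega
  | cons p t ih =>
    obtain ⟨a, s⟩ := p
    intro k h i
    rw [mvOK, Bool.and_eq_true, Bool.and_eq_true] at h
    obtain ⟨⟨h1, h2⟩, h3⟩ := h
    cases i with
    | zero =>
      refine ⟨a, ?_, fun u hu1 hu2 => ?_⟩
      · rw [add_zero]; exact Nat.le_of_ble_eq_true h1
      · rw [mvRes, fn_cons_zero] at hu2
        rw [add_zero]
        exact segOK_sound lam l k s a h2 u hu1 hu2
    | succ i =>
      obtain ⟨b, hb1, hb2⟩ := ih (k + 1) h3 i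
      have e1 : k + 1 + i = k + (i + 1) := by ring
      rw [e1] at hb1 hb2
      refine ⟨b, hb1, fun u hu1 hu2 => ?_⟩
      rw [mvRes, fn_cons_succ] at hu2
      exact hb2 u hu1 hu2

/-- moves -/
inductive Mv where
  | N (δ : ℕ)
  | M (lam : ℕ) (D : List (ℕ × List (ℕ × ℕ)))

/-- `l` is nonincreasing -/
def antiB : List ℕ → Bool
  | [] => true
  | [_] => true
  | a :: b :: t => Nat.ble b a && antiB (b :: t)

theorem antiB_sound (l : List ℕ) (h : antiB l = true) : Antitone (fn l) := by
  refine antitone_nat_of_succ_le ?_
  induction l with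
  | nil => intro n; simp [fn_nil]
  | cons a t ih =>
    cases t with
    | nil =>
      intro n
      rw [fn_cons_succ, fn_nil]
      exact Nat.zero_le _
    | cons b t =>
      rw [antiB, Bool.and_eq_true] at h
      intro n
      cases n with
      | zero => exact Nat.le_of_ble_eq_true h.1
      | succ n => exact ih h.2 n

/-- number of conditions in the final position -/
def fin (r : ℕ) : ℕ → List ℕ → ℕ
  | 0, _ => 0
  | _ + 1, [] => 0
  | m + 1, v :: t => mn v (r * (m + 1)) + fin r m t

theorem fin_eq (r : ℕ) : ∀ (m : ℕ) (l : List ℕ),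
    fin r m l = ∑ c ∈ Finset.range m, min (fn l c) (r * (m - c)) := by
  intro m
  induction m with
  | zero => intro l; simp [fin]
  | succ m ih =>
    intro l
    cases l with
    | nil => simp [fin, fn_nil]
    | cons v t =>
      rw [fin, ih, Finset.sum_range_succ', add_comm, mn_eq, fn_cons_zero, Nat.sub_zero]
      congr 1
      refine Finset.sum_congr rfl fun c _ => ?_
      rw [fn_cons_succ, Nat.add_sub_add_right]

/-- run a list of moves and compare the final number with `R` -/
def run (r m R : ℕ) : List Mv → List ℕ → Bool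
  | [], l => Nat.ble R (fin r m l)
  | Mv.N δ :: t, l => run r m R t (nodL δ l)
  | Mv.M lam D :: t, l => mvOK lam l 0 D && (antiB (mvRes D) && run r m R t (mvRes D))

theorem run_sound [Infinite K] (r m R : ℕ) (M : List Mv) : ∀ l : List ℕ, Antitone (fn l) →
    run r m R M l = true → Good K r m (fn l) R := by
  induction M with
  | nil =>
    intro l _ h
    refine (Good.final (K := K) r m (fn l)).le ?_
    rw [← fin_eq]
    exact Nat.le_of_ble_eq_true h
  | cons a t ih =>
    intro l hl h
    cases a with
    | N δ =>
      rw [run] at h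
      have h1 := ih (nodL δ l) (by rw [fn_nodL]; exact nod_antitone hl) h
      rw [fn_nodL] at h1
      exact nodal_move δ l.length (fun c c' hc _ => hl hc) h1
    | M lam D =>
      rw [run, Bool.and_eq_true, Bool.and_eq_true] at h
      obtain ⟨h1, h2, h3⟩ := h
      have h4 := ih (mvRes D) (antiB_sound _ h2) h3
      refine moveI (lam := lam) ⟨l.length, fun i => ?_⟩ h4
      obtain ⟨a, ha1, ha2⟩ := mvOK_sound lam l D 0 h1 i
      rw [zero_add] at ha1 ha2
      exact ⟨a, ha1, ha2⟩

/-- `∑_{s < a} (e - s)` -/
def stripV : ℕ → ℕ → ℕ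
  | 0, _ => 0
  | a + 1, e => e + stripV a (e - 1)

theorem stripV_eq : ∀ a e : ℕ, stripV a e = ∑ s ∈ Finset.range a, (e - s) := by
  intro a
  induction a with
  | zero => intro e; rfl
  | succ a ih =>
    intro e
    rw [stripV, ih, Finset.sum_range_succ', Nat.sub_zero, add_comm]
    congr 1
    refine Finset.sum_congr rfl fun s _ => ?_
    omega

/-- the strips of width `a` as a list with `k` entries, `e = d + 1` -/
def stripL (a : ℕ) : ℕ → ℕ → List ℕ
  | 0, _ => []
  | k + 1, e => stripV a e :: stripL a k (e - a)

theorem fn_stripL (a d : ℕ) : ∀ k j i, fn (stripL a k (d + 1 - j * a)) i =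
    if i < k then strip a d (j + i) else 0 := by
  intro k
  induction k with
  | zero => intro j i; simp [stripL, fn_nil]
  | succ k ih =>
    intro j i
    cases i with
    | zero =>
      rw [stripL, fn_cons_zero, if_pos (by omega), stripV_eq, add_zero, strip]
      refine Finset.sum_congr rfl fun s _ => ?_
      omega
    | succ i =>
      have e : d + 1 - j * a - a = d + 1 - (j + 1) * a := by
        rw [Nat.sub_sub]
        congr 1
        ring
      rw [stripL, fn_cons_succ, e, ih]
      have e2 : j + 1 + i = j + (i + 1) := by ring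
      rw [e2]
      by_cases h : i < k
      · rw [if_pos h, if_pos (by omega)]
      · rw [if_neg h, if_neg (by omega)]

theorem fn_stripL_zero (a d k : ℕ) (hk : d < a * k) : fn (stripL a k (d + 1)) = strip a d := by
  funext i
  have h := fn_stripL a d k 0 i
  rw [zero_mul, Nat.sub_zero, zero_add] at h
  rw [h]
  by_cases hi : i < k
  · rw [if_pos hi]
  · rw [if_neg hi]
    refine (strip_zero a d i ?_).symm
    have : a * k ≤ a * i := Nat.mul_le_mul_left _ (by omega)
    rw [mul_comm i a]
    omega

/-- a certificate for one case: width of the strips and moves -/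
theorem good_of_run [Infinite K] (r m d R a k : ℕ) (M : List Mv) (ha : 0 < a) (hk : d < a * k)
    (h : run r m R M (stripL a k (d + 1)) = true) : Good K r m (fun b => d + 1 - b) R := by
  refine start a d ha ?_
  have h1 := fn_stripL_zero a d k hk
  rw [← h1]
  refine run_sound r m R M _ ?_ h
  rw [h1]
  exact strip_antitone a d

end Pool.Agent.Helper22.E6
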