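import Pool.Agent.Helper22.E6.Core

set_option autoImplicit false

/-! # Small multiplicities in every characteristic (helper22): critical degrees, uniform range -/

namespace Pool.Agent.Helper22.E6

open Pool.Agent.Helper41.Fat Pool.Agent.Helper7.NM Pool.Agent.Helper7.Free Pool.Agent.Helper6.SQ

variable {K : Type*} [Field K]

theorem two_choose (n : ℕ) : 2 * (n + 1).choose 2 = n * (n + 1) := two_mul_choose n

/-- The expected statement for one case. -/
def Case (K : Type*) [Field K] (r m d : ℕ) : Prop :=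
  Good K r m (fun b => d + 1 - b) (min ((d + 2).choose 2) (r * (m + 1).choose 2))

theorem two_target (r m : ℕ) : 2 * (r * (m + 1).choose 2) = r * (m * (m + 1)) := by
  rw [← two_choose m]; ring

theorem sum_Td (d B : ℕ) (hB : d < B) :
    ∑ c ∈ Finset.range B, (d + 1 - c) = (d + 2).choose 2 := by
  have h1 : ∑ c ∈ Finset.range (d + 1), (d + 1 - c) = (d + 2).choose 2 := sum_stair (d + 1)
  rw [← h1]
  refine (Finset.sum_subset (Finset.range_subset_range.2 hB) fun c _ hc => ?_).symm
  rw [Finset.mem_range] at hc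
  omega

/-- It is enough to treat the two critical degrees. -/
theorem case_of_crit (r m d₁ : ℕ) (h1 : (d₁ + 1) * (d₁ + 2) ≤ r * (m * (m + 1)))
    (h2 : r * (m * (m + 1)) ≤ (d₁ + 2) * (d₁ + 3)) (hE : Case K r m d₁)
    (hR : Case K r m (d₁ + 1)) (d : ℕ) : Case K r m d := by
  have e1 : 2 * (d + 2).choose 2 = (d + 1) * (d + 2) := two_choose (d + 1)
  have e2 : 2 * (d₁ + 2).choose 2 = (d₁ + 1) * (d₁ + 2) := two_choose (d₁ + 1)
  have e3 : 2 * (d₁ + 1 + 2).choose 2 = (d₁ + 2) * (d₁ + 3) := two_choose (d₁ + 2)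
  have e4 := two_target r m
  unfold Case at *
  by_cases h : d ≤ d₁
  · have h5 : (d + 1) * (d + 2) ≤ (d₁ + 1) * (d₁ + 2) := Nat.mul_le_mul (by omega) (by omega)
    rw [min_eq_left (by omega)] at hE
    rw [min_eq_left (by omega)]
    have h6 := Good.shrink (K := K) (r := r) (m := m) (d₁ + 1) (d + 1) (n := fun b => d₁ + 1 - b)
      (n' := fun b => d + 1 - b) (fun c hc => by omega) (fun c => by omega)
      (by rw [sum_Td d₁ (d₁ + 1) (by omega)]; exact hE)
    rwa [sum_Td d (d + 1) (by omega)] at h6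
  · rw [min_eq_right (by omega)] at hR
    have h7 := Good.mono (K := K) (r := r) (m := m) (n := fun b => d₁ + 1 + 1 - b)
      (n' := fun b => d + 1 - b) (fun c => by omega) hR
    exact h7.le (min_le_right _ _)

/-- An exact case of the unit moves, as a boolean. -/
def exB (r m d : ℕ) : ℕ → Bool
  | 0 => false
  | a + 1 => (Nat.ble ((a + 1) * (a + 1)) r && (Nat.beq ((r - (a + 1) * (a + 1)) % 2) 0 &&
      (Nat.ble ((a + 1) * (m + 1)) (d + 1) && Nat.blt d ((a + 1) * (m + 2))))) || exB r m d a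

theorem case_of_strip [Infinite K] (r m d a : ℕ) (ha : 0 < a) (h1 : a * a ≤ r)
    (h2 : (r - a * a) % 2 = 0) (h3 : a * (m + 1) ≤ d + 1) (h4 : d < a * (m + 2)) :
    Case K r m d := by
  have e : r = a ^ 2 + 2 * ((r - a * a) / 2) := by
    rw [pow_two]
    omega
  unfold Case
  rw [e]
  exact strip_exact a ((r - a * a) / 2) m d ha h3 h4

theorem case_of_exB [Infinite K] (r m d : ℕ) : ∀ k, exB r m d k = true → Case K r m d := by
  intro k
  induction k with
  | zero => intro h; exact absurd h (by simp [exB])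
  | succ a ih =>
    intro h
    rw [exB, Bool.or_eq_true] at h
    rcases h with h | h
    · rw [Bool.and_eq_true, Bool.and_eq_true, Bool.and_eq_true] at h
      obtain ⟨h1, h2, h3, h4⟩ := h
      exact case_of_strip r m d (a + 1) (Nat.succ_pos a) (Nat.le_of_ble_eq_true h1)
        (Nat.eq_of_beq_eq_true h2) (Nat.le_of_ble_eq_true h3) (Nat.le_of_ble_eq_true h4)
    · exact ih h

/-- **Uniform range**: `d > 2 m (m + 2)`. -/
theorem case_uniform [Infinite K] (r m d : ℕ) (hm : 1 ≤ m) (hd : 2 * m * (m + 2) < d)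
    (h : d * (d + 1) ≤ r * (m * (m + 1))) : Case K r m d := by
  set q := (d + 1) / (m + 1) with hq
  have h1 : (m + 1) * q ≤ d + 1 := Nat.mul_div_le _ _
  have h2 : d + 1 < (m + 1) * (q + 1) := Nat.lt_mul_div_succ _ (Nat.succ_pos m)
  have hq3 : 3 ≤ q := by
    by_contra hcon
    have h3 : (m + 1) * (q + 1) ≤ (m + 1) * 3 := Nat.mul_le_mul_left _ (by omega)
    nlinarith
  -- `q ^ 2 ≤ r`
  have hqr : q * q ≤ r := by
    by_contra hcon
    push Not at hcon
    have h3 : (r + 1) * ((m + 1) * (m + 1)) ≤ (q * q) * ((m + 1) * (m + 1)) :=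
      Nat.mul_le_mul_right _ hcon
    have h4 : (q * q) * ((m + 1) * (m + 1)) ≤ (d + 1) * (d + 1) := by
      have := Nat.mul_le_mul h1 h1
      nlinarith
    have h5 : d + 1 < (r + 1) * (m + 1) + (m + 1) * (m + 1) := by
      -- `d ≤ r (m + 1)`, since `d ^ 2 ≤ r m (m + 1)`
      by_contra h6
      push Not at h6
      have h7 : r * (m + 1) ≤ d := by nlinarith
      have h8 : m ≤ d := by nlinarith
      have h9 : r * (m + 1) * m ≤ d * d := Nat.mul_le_mul h7 h8
      nlinarith
    nlinarith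
  obtain ⟨a, ha1, ha2, ha3⟩ : ∃ a, a ≤ q ∧ q ≤ a + 1 ∧ (r - a * a) % 2 = 0 := by
    by_cases hpar : (r - q * q) % 2 = 0
    · exact ⟨q, le_rfl, by omega, hpar⟩
    · refine ⟨q - 1, by omega, by omega, ?_⟩
      have e : q * q = (q - 1) * (q - 1) + 2 * (q - 1) + 1 := by
        obtain ⟨k, hk⟩ : ∃ k, q = k + 1 := ⟨q - 1, by omega⟩
        rw [hk, Nat.add_sub_cancel]
        ring
      omega
  have ha0 : 0 < a := by omega
  have h5 : a * a ≤ r := (Nat.mul_le_mul ha1 ha1).trans hqr
  refine case_of_strip r m d a ha0 h5 ha3 ?_ ?_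
  · have : a * (m + 1) ≤ q * (m + 1) := Nat.mul_le_mul_right _ ha1
    nlinarith
  · have h6 : (m + 1) * (q + 1) ≤ (m + 1) * (a + 2) := Nat.mul_le_mul_left _ (by omega)
    have h7 : d + 2 ≤ (m + 1) * (a + 2) := by omega
    -- `d (m + 1) < a (m + 2) (m + 1)`
    by_contra hcon
    push Not at hcon
    have h8 : a * (m + 2) * (m + 1) ≤ d * (m + 1) := Nat.mul_le_mul_right _ hcon
    have h9 : (d + 2) * (m + 2) ≤ (m + 1) * (a + 2) * (m + 2) := Nat.mul_le_mul_right _ h7
    nlinarith

/-- Large `r`. -/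
theorem case_large [Infinite K] (r m : ℕ) (hm : 1 ≤ m)
    (h : (2 * m * (m + 2) + 2) * (2 * m * (m + 2) + 3) ≤ r * (m * (m + 1))) (d : ℕ) :
    Case K r m d := by
  obtain ⟨d₁, h1, h2⟩ : ∃ d₁, (d₁ + 1) * (d₁ + 2) ≤ r * (m * (m + 1)) ∧
      r * (m * (m + 1)) < (d₁ + 2) * (d₁ + 3) := by
    have hex : ∃ e, r * (m * (m + 1)) < (e + 2) * (e + 3) :=
      ⟨r * (m * (m + 1)), by nlinarith [Nat.zero_le (r * (m * (m + 1)))]⟩
    classical
    refine ⟨Nat.find hex, ?_, Nat.find_spec hex⟩
    rcases Nat.eq_zero_or_pos (Nat.find hex) with h0 | h0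
    · rw [h0]
      refine le_trans ?_ h
      exact Nat.mul_le_mul (by omega) (by omega)
    · have h3 := Nat.find_min hex (Nat.sub_lt h0 one_pos)
      push Not at h3
      have e1 : Nat.find hex - 1 + 2 = Nat.find hex + 1 := by omega
      have e2 : Nat.find hex - 1 + 3 = Nat.find hex + 2 := by omega
      rwa [e1, e2] at h3
  have h3 : 2 * m * (m + 2) < d₁ := by
    by_contra hcon
    push Not at hcon
    have := Nat.mul_le_mul (show d₁ + 2 ≤ 2 * m * (m + 2) + 2 by omega)
      (show d₁ + 3 ≤ 2 * m * (m + 2) + 3 by omega)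
    omega
  refine case_of_crit r m d₁ h1 h2.le ?_ ?_ d
  · refine case_uniform r m d₁ hm h3 (le_trans ?_ h1)
    exact Nat.mul_le_mul (by omega) (by omega)
  · refine case_uniform r m (d₁ + 1) hm (by omega) (le_trans ?_ h1)
    exact le_of_eq (by ring)

/-! ### Tables -/

/-- one certificate: `r`, `d`, width, number of strips, moves -/
structure Cert where
  r : ℕ
  d : ℕ
  a : ℕ
  k : ℕ
  M : List Mv

/-- the certificate list settles the case -/
def certB (r m d : ℕ) : List Cert → Bool
  | [] => false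
  | c :: t => (Nat.beq c.r r && (Nat.beq c.d d && (Nat.blt 0 c.a && (Nat.blt d (c.a * c.k) &&
      run r m (mn ((d + 2) * (d + 1) / 2) (r * ((m + 1) * m / 2))) c.M
        (stripL c.a c.k (d + 1)))))) || certB r m d t

theorem case_of_certB [Infinite K] (r m d : ℕ) (L : List Cert) (h : certB r m d L = true) :
    Case K r m d := by
  induction L with
  | nil => exact absurd h (by simp [certB])
  | cons c t ih =>
    rw [certB, Bool.or_eq_true] at h
    rcases h with h | h
    · rw [Bool.and_eq_true, Bool.and_eq_true, Bool.and_eq_true, Bool.and_eq_true] at h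
      obtain ⟨_, _, h3, h4, h5⟩ := h
      have h3' := Nat.le_of_ble_eq_true h3
      have h4' := Nat.le_of_ble_eq_true h4
      have h6 := good_of_run (K := K) r m d _ c.a c.k c.M (by omega) (by omega) h5
      unfold Case
      have e1 : (d + 2) * (d + 1) / 2 = (d + 2).choose 2 := by
        rw [Nat.choose_two_right]
        rfl
      have e2 : (m + 1) * m / 2 = (m + 1).choose 2 := by
        rw [Nat.choose_two_right]
        rfl
      rw [mn_eq, e1, e2] at h6
      exact h6
    · exact ih h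

/-- increase `d` while `(d + 2) (d + 3) ≤ N` -/
def adj (N : ℕ) : ℕ → ℕ → ℕ
  | 0, d => d
  | f + 1, d => bif Nat.ble ((d + 2) * (d + 3)) N then adj N f (d + 1) else d

/-- the check for one `r`, with the critical degree `d` -/
def rowB (m r d : ℕ) (L : List Cert) : Bool :=
  Nat.ble ((d + 1) * (d + 2)) (r * (m * (m + 1))) &&
    (Nat.ble (r * (m * (m + 1))) ((d + 2) * (d + 3)) &&
      ((exB r m d 40 || certB r m d L) && (exB r m (d + 1) 40 || certB r m (d + 1) L)))

theorem case_of_rowB [Infinite K] (m r d₁ : ℕ) (L : List Cert) (h : rowB m r d₁ L = true)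
    (d : ℕ) : Case K r m d := by
  rw [rowB, Bool.and_eq_true, Bool.and_eq_true, Bool.and_eq_true, Bool.or_eq_true,
    Bool.or_eq_true] at h
  obtain ⟨h1, h2, h3, h4⟩ := h
  refine case_of_crit r m d₁ (Nat.le_of_ble_eq_true h1) (Nat.le_of_ble_eq_true h2) ?_ ?_ d
  · rcases h3 with h3 | h3
    · exact case_of_exB r m d₁ 40 h3
    · exact case_of_certB r m d₁ L h3
  · rcases h4 with h4 | h4
    · exact case_of_exB r m (d₁ + 1) 40 h4
    · exact case_of_certB r m (d₁ + 1) L h4

/-- the check for `r₀ ≤ r < r₀ + n`; `d` is a lower bound of the critical degree -/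
def tabB (m : ℕ) (L : List Cert) : ℕ → ℕ → ℕ → Bool
  | 0, _, _ => true
  | n + 1, r, d => rowB m r (adj (r * (m * (m + 1))) 100 d) L &&
      tabB m L n (r + 1) (adj (r * (m * (m + 1))) 100 d)

theorem case_of_tabB [Infinite K] (m : ℕ) (L : List Cert) : ∀ n r₀ d₀,
    tabB m L n r₀ d₀ = true → ∀ r, r₀ ≤ r → r < r₀ + n → ∀ d, Case K r m d := by
  intro n
  induction n with
  | zero => intro r₀ d₀ _ r h1 h2; omega
  | succ n ih =>
    intro r₀ d₀ h r h1 h2 d
    rw [tabB, Bool.and_eq_true] at h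
    by_cases hr : r = r₀
    · subst hr
      exact case_of_rowB m r _ L h.1 d
    · exact ih (r₀ + 1) _ h.2 r (by omega) (by omega) d

end Pool.Agent.Helper22.E6
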