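import Pool.Agent.Helper41.FatCore

set_option autoImplicit false

/-! # Descent of goodness along a field extension (helper22), MP_e6aa12_ag

If `Good L r m n ρ` holds for an extension field `L` of an infinite field `K` then
`Good K r m n ρ`. -/

open Polynomial

namespace Pool.Agent.Helper22.E6

open Pool.Agent.Helper41.Fat

variable {K L : Type*} [Field K] [Field L]

theorem smul_eq_CC (a : L) (Q : L[X][X]) : a • Q = C (C a) * Q := by
  rw [← Polynomial.smul_eq_C_mul]
  ext : 2
  simp

/-- rows are spanned by monomials -/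
theorem rows_le_span (n : ℕ → ℕ) : rows L n ≤ Submodule.span L
    (Set.range fun p : {p : ℕ × ℕ // p.1 < n p.2} => (C (X ^ p.1.1) * X ^ p.1.2 : L[X][X])) := by
  classical
  intro P hP
  set S := Submodule.span L
    (Set.range fun p : {p : ℕ × ℕ // p.1 < n p.2} => (C (X ^ p.1.1) * X ^ p.1.2 : L[X][X])) with hS
  have h1 : P = ∑ b ∈ P.support, C (P.coeff b) * X ^ b := P.as_sum_support_C_mul_X_pow
  rw [h1]
  refine S.sum_mem fun b _ => ?_
  have h2 : P.coeff b ∈ degreeLT L (n b) := hP b
  have h3 : P.coeff b = ∑ a ∈ Finset.range (n b), C ((P.coeff b).coeff a) * X ^ a := by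
    ext e
    rw [finsetSum_coeff]
    simp only [coeff_C_mul_X_pow]
    by_cases he : e < n b
    · rw [Finset.sum_eq_single e]
      · rw [if_pos rfl]
      · intro e' _ he'
        rw [if_neg (Ne.symm he')]
      · intro h'
        exact absurd (Finset.mem_range.2 he) h'
    · rw [mem_degreeLT, degree_lt_iff_coeff_zero] at h2
      rw [h2 e (by omega), Finset.sum_eq_zero]
      intro e' he'
      rw [Finset.mem_range] at he'
      rw [if_neg (by omega)]
  rw [h3, map_sum, Finset.sum_mul]
  refine S.sum_mem fun a ha => ?_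
  rw [Finset.mem_range] at ha
  have h4 : (C (C ((P.coeff b).coeff a) * X ^ a) * X ^ b : L[X][X]) =
      ((P.coeff b).coeff a) • (C (X ^ a) * X ^ b) := by
    rw [smul_eq_CC, map_mul, mul_assoc]
  rw [h4]
  exact S.smul_mem _ (Submodule.subset_span ⟨⟨(a, b), ha⟩, rfl⟩)

/-- a good family may be taken to consist of monomials -/
theorem exists_monos {r m : ℕ} {n : ℕ → ℕ} {ρ : ℕ} (h : Good L r m n ρ) :
    ∃ (η : L[X]) (e : Fin ρ → ℕ × ℕ), (∀ i, (e i).1 < n (e i).2) ∧
      LinearIndependent L (fun i => Phi L r m η (C (X ^ (e i).1) * X ^ (e i).2)) := by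
  obtain ⟨η, w, hw, hl⟩ := h
  let ι := {p : ℕ × ℕ // p.1 < n p.2}
  let v : ι → (L[X][X] ⧸ cond L r m) := fun p => Phi L r m η (C (X ^ p.1.1) * X ^ p.1.2)
  obtain ⟨κ, a, _, hsp, hli⟩ := exists_linearIndependent' L v
  let B := Module.Basis.span hli
  have hmem : ∀ i, Phi L r m η (w i) ∈ Submodule.span L (Set.range (v ∘ a)) := by
    intro i
    rw [hsp]
    have h1 : w i ∈ Submodule.span L (Set.range fun p : ι => (C (X ^ p.1.1) * X ^ p.1.2 : L[X][X])) :=
      rows_le_span n (hw i)
    have h2 := Submodule.mem_map_of_mem (f := Phi L r m η) h1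
    rw [Submodule.map_span, ← Set.range_comp] at h2
    exact h2
  have hu : LinearIndependent L (fun i : Fin ρ =>
      (⟨Phi L r m η (w i), hmem i⟩ : Submodule.span L (Set.range (v ∘ a)))) := by
    have := hl
    refine LinearIndependent.of_comp (Submodule.subtype _) ?_
    exact this
  have h1 := hu.cardinal_lift_le_rank
  have h2 := B.mk_eq_rank
  rw [← h2, Cardinal.lift_le] at h1
  have h3 : Nonempty (Fin ρ ↪ κ) := h1
  obtain ⟨f⟩ := h3
  exact ⟨η, fun i => (a (f i)).1, fun i => (a (f i)).2, hli.comp f f.injective⟩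

/-- specialization of a parameter to the small field -/
theorem exists_spec [Algebra K L] [Infinite K] {R : Type*} [CommRing R] [Algebra L R]
    {Q : Type*} [AddCommGroup Q] [Module L Q] (Φ : R →ₗ[L] Q) {ρ : ℕ} (w : Fin ρ → R[X]) (s₀ : L)
    (hw : LinearIndependent L (fun i => Φ ((w i).eval (algebraMap L R s₀)))) :
    ∃ t : K, LinearIndependent L (fun i => Φ ((w i).eval (algebraMap L R (algebraMap K L t)))) := by
  classical
  obtain ⟨φ, hφ⟩ := exists_coord hw
  let A : Matrix (Fin ρ) (Fin ρ) L[X] := Matrix.of fun i j =>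
    ∑ k ∈ (w j).support, monomial k (φ (Φ ((w j).coeff k)) i)
  have hev : ∀ t : L, ∀ i j, (A i j).eval t = φ (Φ ((w j).eval (algebraMap L R t))) i := by
    intro t i j
    have h1 : (w j).eval (algebraMap L R t)
        = ∑ k ∈ (w j).support, (t ^ k) • ((w j).coeff k) := by
      rw [Polynomial.eval_eq_sum, Polynomial.sum_def]
      refine Finset.sum_congr rfl fun k _ => ?_
      rw [← map_pow, mul_comm, Algebra.smul_def]
    rw [h1]
    simp only [A, Matrix.of_apply, eval_finsetSum, eval_monomial, map_sum, map_smul,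
      Finset.sum_apply, Pi.smul_apply, smul_eq_mul]
    exact Finset.sum_congr rfl fun k _ => mul_comm _ _
  have hdet : ∀ t : L, A.det.eval t
      = (Matrix.of fun i j => φ (Φ ((w j).eval (algebraMap L R t))) i).det := by
    intro t
    have := (Polynomial.evalRingHom t).map_det A
    rw [coe_evalRingHom] at this
    rw [this]
    congr 1
    ext i j
    simp [hev]
  have h0 : A.det.eval s₀ = 1 := by
    rw [hdet]
    have : (Matrix.of fun i j => φ (Φ ((w j).eval (algebraMap L R s₀))) i)
        = (1 : Matrix (Fin ρ) (Fin ρ) L) := by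
      ext i j
      rw [Matrix.of_apply, hφ, Matrix.one_apply, Pi.single_apply]
    rw [this, Matrix.det_one]
  have hne : A.det ≠ 0 := by
    intro h
    rw [h] at h0
    simp at h0
  obtain ⟨t, ht⟩ : ∃ t : K, A.det.eval (algebraMap K L t) ≠ 0 := by
    by_contra hcon
    push Not at hcon
    apply hne
    refine eq_zero_of_infinite_isRoot _ ?_
    refine Set.Infinite.mono (s := Set.range (algebraMap K L)) ?_
      (Set.infinite_range_of_injective (algebraMap K L).injective)
    rintro _ ⟨t, rfl⟩
    exact hcon t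
  refine ⟨t, ?_⟩
  apply linearIndependent_of_det _ φ
  rw [← hdet]
  exact ht

/-- one coefficient of the germ may be moved to the small field -/
theorem spec_coeff [Algebra K L] [Infinite K] {r m ρ : ℕ} (P : Fin ρ → L[X][X]) (η : L[X])
    (k : ℕ) (h : LinearIndependent L (fun i => Phi L r m η (P i))) :
    ∃ t : K, LinearIndependent L (fun i =>
      Phi L r m (η - C (η.coeff k) * X ^ k + C (algebraMap K L t) * X ^ k) (P i)) := by
  set η' := η - C (η.coeff k) * X ^ k with hη'
  let w : Fin ρ → (L[X][X])[X] := fun i =>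
    (P i).eval₂ ((C : L[X][X] →+* (L[X][X])[X]).comp (C : L[X] →+* L[X][X]))
      (C (X + C η') + X * C (C (X ^ k)))
  have hw : ∀ (s : L) (i : Fin ρ), (w i).eval (algebraMap L L[X][X] s) =
      taylor (η' + C s * X ^ k) (P i) := by
    intro s i
    change (evalRingHom (algebraMap L L[X][X] s)) (w i) = _
    rw [Polynomial.hom_eval₂, taylor_apply, comp]
    congr 1
    · ext a
      · simp
      · simp
    · have e1 : algebraMap L L[X][X] s = C (C s) := rfl
      rw [e1]
      simp only [coe_evalRingHom, eval_C, eval_X, map_add, map_mul]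
      ring
  have h0 : LinearIndependent L (fun i => (cond L r m).mkQ
      ((w i).eval (algebraMap L L[X][X] (η.coeff k)))) := by
    have e : η' + C (η.coeff k) * X ^ k = η := by rw [hη']; ring
    simp only [hw, e]
    exact h
  obtain ⟨t, ht⟩ := exists_spec (K := K) (cond L r m).mkQ w (η.coeff k) h0
  refine ⟨t, ?_⟩
  simp only [hw] at ht
  exact ht

/-- the germ may be taken over the small field -/
theorem exists_germ [Algebra K L] [Infinite K] {r m ρ : ℕ} (P : Fin ρ → L[X][X]) (η : L[X])
    (h : LinearIndependent L (fun i => Phi L r m η (P i))) :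
    ∃ η₀ : K[X], LinearIndependent L (fun i => Phi L r m (η₀.map (algebraMap K L)) (P i)) := by
  set N := η.natDegree + 1 with hN
  have key : ∀ j ≤ N, ∃ η₁ : L[X], (∀ k < j, ∃ a : K, η₁.coeff k = algebraMap K L a) ∧
      (∀ k, N ≤ k → η₁.coeff k = 0) ∧
      LinearIndependent L (fun i => Phi L r m η₁ (P i)) := by
    intro j
    induction j with
    | zero =>
      intro _
      refine ⟨η, fun k hk => by omega, fun k hk => ?_, h⟩
      exact coeff_eq_zero_of_natDegree_lt (by omega)
    | succ j ih =>
      intro hj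
      obtain ⟨η₁, h1, h2, h3⟩ := ih (by omega)
      obtain ⟨t, ht⟩ := spec_coeff (K := K) P η₁ j h3
      refine ⟨_, fun k hk => ?_, fun k hk => ?_, ht⟩
      · rw [coeff_add, coeff_sub, coeff_C_mul_X_pow, coeff_C_mul_X_pow]
        by_cases hkj : k = j
        · subst hkj
          rw [if_pos rfl, if_pos rfl, sub_self, zero_add]
          exact ⟨t, rfl⟩
        · rw [if_neg hkj, if_neg hkj, sub_zero, add_zero]
          exact h1 k (by omega)
      · rw [coeff_add, coeff_sub, coeff_C_mul_X_pow, coeff_C_mul_X_pow, if_neg (by omega),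
          if_neg (by omega), h2 k hk, sub_zero, add_zero]
  obtain ⟨η₁, h1, h2, h3⟩ := key N le_rfl
  choose! a ha using h1
  refine ⟨∑ k ∈ Finset.range N, C (a k) * X ^ k, ?_⟩
  have e : (∑ k ∈ Finset.range N, C (a k) * X ^ k : K[X]).map (algebraMap K L) = η₁ := by
    ext e
    rw [coeff_map, finsetSum_coeff]
    simp only [coeff_C_mul_X_pow]
    by_cases he : e < N
    · rw [Finset.sum_eq_single e]
      · rw [if_pos rfl, ha e he]
      · intro e' _ he'
        rw [if_neg (Ne.symm he')]
      · intro h'
        exact absurd (Finset.mem_range.2 he) h'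
    · rw [h2 e (by omega), Finset.sum_eq_zero, map_zero]
      intro e' he'
      rw [Finset.mem_range] at he'
      rw [if_neg (by omega)]
  rw [e]
  exact h3

/-- **Descent.** -/
theorem good_descend [Algebra K L] [Infinite K] {r m : ℕ} {n : ℕ → ℕ} {ρ : ℕ}
    (h : Good L r m n ρ) : Good K r m n ρ := by
  obtain ⟨η, e, he, hl⟩ := exists_monos h
  obtain ⟨η₀, h0⟩ := exists_germ (K := K) _ η hl
  refine ⟨η₀, fun i => C (X ^ (e i).1) * X ^ (e i).2, fun i j => ?_, ?_⟩
  · rw [coeff_C_mul, coeff_X_pow]
    by_cases hj : j = (e i).2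
    · rw [if_pos hj, mul_one, hj, mem_degreeLT]
      refine lt_of_le_of_lt (degree_X_pow_le _) ?_
      exact_mod_cast he i
    · rw [if_neg hj, mul_zero]
      exact Submodule.zero_mem _
  · rw [Fintype.linearIndependent_iff] at h0 ⊢
    intro c hc i
    let ψ : K[X][X] →+* L[X][X] := mapRingHom (mapRingHom (algebraMap K L))
    have h1 := h0 (fun i => algebraMap K L (c i)) ?_ i
    · exact (map_eq_zero (algebraMap K L)).1 h1
    · have e1 : ∑ i, c i • Phi K r m η₀ (C (X ^ (e i).1) * X ^ (e i).2) =
          Phi K r m η₀ (∑ i, c i • (C (X ^ (e i).1) * X ^ (e i).2)) := by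
        simp only [map_sum, map_smul]
      have e2 : ∑ i, algebraMap K L (c i) • Phi L r m (η₀.map (algebraMap K L))
            (C (X ^ (e i).1) * X ^ (e i).2) =
          Phi L r m (η₀.map (algebraMap K L))
            (∑ i, algebraMap K L (c i) • (C (X ^ (e i).1) * X ^ (e i).2)) := by
        simp only [map_sum, map_smul]
      rw [e1, Phi_eq_zero_iff] at hc
      rw [e2, Phi_eq_zero_iff]
      have e3 : (∑ i, algebraMap K L (c i) • (C (X ^ (e i).1) * X ^ (e i).2) : L[X][X]) =
          ψ (∑ i, c i • (C (X ^ (e i).1) * X ^ (e i).2)) := by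
        rw [map_sum]
        refine Finset.sum_congr rfl fun i _ => ?_
        rw [smul_eq_CC, smul_eq_CC]
        simp [ψ]
      have e4 : taylor (η₀.map (algebraMap K L)) (ψ (∑ i, c i • (C (X ^ (e i).1) * X ^ (e i).2)))
          = ψ (taylor η₀ (∑ i, c i • (C (X ^ (e i).1) * X ^ (e i).2))) := by
        generalize (∑ i, c i • (C (X ^ (e i).1) * X ^ (e i).2) : K[X][X]) = P
        rw [taylor_apply, taylor_apply]
        change (P.map (mapRingHom (algebraMap K L))).comp _ =
          (P.comp (X + C η₀)).map (mapRingHom (algebraMap K L))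
        rw [Polynomial.map_comp, Polynomial.map_add, map_X, map_C, coe_mapRingHom]
      rw [e3, e4]
      intro j hj
      have h5 := hc j hj
      have h6 := map_dvd (mapRingHom (algebraMap K L)) h5
      simpa [ψ] using h6

end Pool.Agent.Helper22.E6
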