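import Pool.Agent.Helper22.E6.Crit

set_option autoImplicit false

/-! # Germ certificates in every characteristic (helper22), MP_e6aa12_ag

The germ is a sum of monomials.  For every cell of the rows which does not fit there is a linear
functional on the conditions which takes the value `D` on this cell and `0` on all the others,
modulo `N`.  The functionals are packed in natural numbers (base `X`). -/

open Polynomial

namespace Pool.Agent.Helper22.E6

open Pool.Agent.Helper41.Fat

/-! ### Digits -/

/-- the digit number `e` of `S` to the base `X` -/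
def dg (X e S : ℕ) : ℕ := S / X ^ e % X

theorem dg_zero_left (X S : ℕ) : dg X 0 S = S % X := by simp [dg]

theorem dg_succ (X e S : ℕ) : dg X (e + 1) S = dg X e (S / X) := by
  rw [dg, dg, pow_succ', Nat.div_div_eq_div_mul]

theorem dg_zero (X e : ℕ) : dg X e 0 = 0 := by simp [dg]

theorem dg_add (X b b' : ℕ) (hbb : b + b' < X) : ∀ e S T : ℕ, (∀ e, dg X e S ≤ b) →
    (∀ e, dg X e T ≤ b') → dg X e (S + T) = dg X e S + dg X e T := by
  intro e
  induction e with
  | zero =>
    intro S T hS hT
    have h1 := hS 0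
    have h2 := hT 0
    rw [dg_zero_left] at h1 h2 ⊢
    rw [dg_zero_left, dg_zero_left, Nat.add_mod, Nat.mod_eq_of_lt (by omega)]
  | succ e ih =>
    intro S T hS hT
    have h1 := hS 0
    have h2 := hT 0
    rw [dg_zero_left] at h1 h2
    rw [dg_succ, dg_succ, dg_succ, Nat.add_div_eq_of_add_mod_lt (by omega)]
    exact ih _ _ (fun e => by rw [← dg_succ]; exact hS _) (fun e => by rw [← dg_succ]; exact hT _)

/-- conversion from base `Y` to base `X`, `E` digits -/
def spr (X Y : ℕ) (E : ℕ) : ℕ → ℕ :=
  Nat.rec (motive := fun _ => ℕ → ℕ) (fun _ => 0)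
    (fun _ ih S => cond (Nat.beq S Nat.zero) Nat.zero
      (Nat.add (Nat.mod S Y) (Nat.mul X (ih (Nat.div S Y))))) E

theorem spr_succ (X Y E S : ℕ) : spr X Y (E + 1) S =
    bif Nat.beq S 0 then 0 else S % Y + X * spr X Y E (S / Y) := rfl

theorem dg_spr (X Y : ℕ) (hY : 0 < Y) (hYX : Y ≤ X) : ∀ E S e, dg X e (spr X Y E S) ≤ Y - 1 := by
  intro E
  induction E with
  | zero =>
    intro S e
    have h : spr X Y 0 S = 0 := rfl
    rw [h, dg_zero]
    exact Nat.zero_le _
  | succ E ih =>
    intro S e
    have h1 : S % Y < Y := Nat.mod_lt _ hY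
    have hX : 0 < X := by omega
    rw [spr_succ]
    cases h : Nat.beq S 0 with
    | true => rw [cond_true, dg_zero]; exact Nat.zero_le _
    | false =>
      rw [cond_false]
      cases e with
      | zero =>
        rw [dg_zero_left, Nat.add_mul_mod_self_left, Nat.mod_eq_of_lt (by omega)]
        omega
      | succ e =>
        rw [dg_succ, Nat.add_mul_div_left _ _ hX, Nat.div_eq_of_lt (by omega), zero_add]
        exact ih _ _

/-! ### Lists -/

/-- the entry `(i, k)` -/
def vl (W : List (List ℕ)) (i k : ℕ) : ℕ := (W.getD i []).getD k 0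

/-- addition of lists -/
def addL (v : List ℕ) : List ℕ → List ℕ :=
  List.rec (motive := fun _ => List ℕ → List ℕ) (fun w => w)
    (fun a v ih w => List.rec (motive := fun _ => List ℕ) (a :: v)
      (fun b w' _ => Nat.add a b :: ih w') w) v

theorem addL_nil (w : List ℕ) : addL [] w = w := rfl

theorem addL_cons_nil (a : ℕ) (v : List ℕ) : addL (a :: v) [] = a :: v := rfl

theorem addL_cons_cons (a b : ℕ) (v w : List ℕ) :
    addL (a :: v) (b :: w) = (a + b) :: addL v w := rfl

theorem getD_addL : ∀ (v w : List ℕ) (k : ℕ),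
    (addL v w).getD k 0 = v.getD k 0 + w.getD k 0 := by
  intro v
  induction v with
  | nil => intro w k; rw [addL_nil]; simp
  | cons a v ih =>
    intro w k
    cases w with
    | nil => rw [addL_cons_nil]; simp
    | cons b w =>
      rw [addL_cons_cons]
      cases k with
      | zero => rfl
      | succ k => exact ih w k

/-- `∑ e ∈ es, drop e w` -/
def shiftSum (w : List ℕ) : List ℕ → List ℕ
  | [] => []
  | e :: t => addL (w.drop e) (shiftSum w t)

theorem getD_shiftSum (w : List ℕ) (k : ℕ) : ∀ es : List ℕ,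
    (shiftSum w es).getD k 0 = (es.map fun e => w.getD (k + e) 0).sum := by
  intro es
  induction es with
  | nil => simp [shiftSum]
  | cons e t ih =>
    rw [shiftSum, getD_addL, ih, List.map_cons, List.sum_cons]
    congr 1
    rw [List.getD_eq_getElem?_getD, List.getElem?_drop, List.getD_eq_getElem?_getD, Nat.add_comm]

/-- one step: multiplication by `ζ + η` -/
def stepW (es : List ℕ) : List (List ℕ) → List (List ℕ)
  | [] => []
  | w :: t => addL (t.headD []) (shiftSum w es) :: stepW es t

theorem vl_stepW (es : List ℕ) : ∀ (W : List (List ℕ)) (i k : ℕ), vl (stepW es W) i k =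
    vl W (i + 1) k + (es.map fun e => vl W i (k + e)).sum := by
  intro W
  induction W with
  | nil => intro i k; simp [stepW, vl]
  | cons w t ih =>
    intro i k
    cases i with
    | zero =>
      have h1 : vl (stepW es (w :: t)) 0 k = (addL (t.headD []) (shiftSum w es)).getD k 0 := rfl
      rw [h1, getD_addL, getD_shiftSum]
      congr 1
      cases t <;> rfl
    | succ i =>
      have h1 : vl (stepW es (w :: t)) (i + 1) k = vl (stepW es t) i k := rfl
      rw [h1, ih]
      rfl

/-- bound for the digits of all entries -/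
def BndW (X b : ℕ) (W : List (List ℕ)) : Prop := ∀ i k e, dg X e (vl W i k) ≤ b

theorem dg_list_sum (X b : ℕ) (f : ℕ → ℕ) (hf : ∀ x e, dg X e (f x) ≤ b) : ∀ es : List ℕ,
    b * es.length < X → ∀ e, dg X e (es.map f).sum = (es.map fun x => dg X e (f x)).sum ∧
      dg X e (es.map f).sum ≤ b * es.length := by
  intro es
  induction es with
  | nil => intro _ e; simp [dg_zero]
  | cons x t ih =>
    intro h e
    rw [List.length_cons, Nat.mul_succ] at h
    have h1 := ih (by omega)
    have h2 : dg X e ((x :: t).map f).sum = dg X e (f x) + dg X e (t.map f).sum := by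
      rw [List.map_cons, List.sum_cons]
      exact dg_add X b (b * t.length) (by omega) e _ _ (hf x) (fun e => (h1 e).2)
    refine ⟨?_, ?_⟩
    · rw [h2, (h1 e).1, List.map_cons, List.sum_cons]
    · rw [h2, List.length_cons, Nat.mul_succ]
      have := hf x e
      have := (h1 e).2
      omega

theorem dg_stepW (X b : ℕ) (es : List ℕ) (W : List (List ℕ)) (hW : BndW X b W)
    (hb : b * (es.length + 1) < X) (i k e : ℕ) : dg X e (vl (stepW es W) i k) =
      dg X e (vl W (i + 1) k) + (es.map fun x => dg X e (vl W i (k + x))).sum ∧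
      dg X e (vl (stepW es W) i k) ≤ b * (es.length + 1) := by
  rw [Nat.mul_succ] at hb
  have h1 := dg_list_sum X b (fun x => vl W i (k + x)) (fun x e => hW _ _ _) es (by omega)
  have h2 : dg X e (vl (stepW es W) i k) = dg X e (vl W (i + 1) k) +
      dg X e (es.map fun x => vl W i (k + x)).sum := by
    rw [vl_stepW]
    exact dg_add X b (b * es.length) (by omega) e _ _ (fun e => hW _ _ _) (fun e => (h1 e).2)
  refine ⟨by rw [h2, (h1 e).1], ?_⟩
  rw [h2, Nat.mul_succ]
  have := hW (i + 1) k e
  have := (h1 e).2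
  omega

/-! ### The functionals -/

variable {K : Type*} [Field K]

/-- the germ `∑ x ^ e` -/
noncomputable def germ (K : Type*) [Field K] (es : List ℕ) : K[X] := (es.map fun e => (X : K[X]) ^ e).sum

/-- the functional with coefficients `v` -/
noncomputable def phi (r m : ℕ) (v : ℕ → ℕ → K) : K[X][X] →ₗ[K] K :=
  ∑ i ∈ Finset.range m, ∑ k ∈ Finset.range (r * (m - i)),
    v i k • ((lcoeff K k) ∘ₗ ((lcoeff K[X] i).restrictScalars K))

theorem phi_apply (r m : ℕ) (v : ℕ → ℕ → K) (P : K[X][X]) : phi r m v P =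
    ∑ i ∈ Finset.range m, ∑ k ∈ Finset.range (r * (m - i)), v i k * (P.coeff i).coeff k := by
  unfold phi
  simp [LinearMap.sum_apply]

theorem phi_cond (r m : ℕ) (v : ℕ → ℕ → K) (P : K[X][X]) (hP : P ∈ cond K r m) :
    phi r m v P = 0 := by
  rw [phi_apply]
  refine Finset.sum_eq_zero fun i hi => Finset.sum_eq_zero fun k hk => ?_
  rw [Finset.mem_range] at hi hk
  rw [X_pow_dvd_iff.1 (hP i hi) k hk, mul_zero]

/-- the monomial `x ^ k ζ ^ i (ζ + η) ^ c` -/
noncomputable def mon (η : K[X]) (k i c : ℕ) : K[X][X] := C (X ^ k) * X ^ i * (X + C η) ^ c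

theorem phi_mon_zero (r m : ℕ) (v : ℕ → ℕ → K) (hv : ∀ i k, ¬ (i < m ∧ k < r * (m - i)) → v i k = 0)
    (η : K[X]) (k i : ℕ) : phi r m v (mon η k i 0) = v i k := by
  rw [phi_apply, mon, pow_zero, mul_one]
  have h1 : ∀ i' k', ((C (X ^ k) * X ^ i : K[X][X]).coeff i').coeff k' =
      if i' = i ∧ k' = k then 1 else 0 := by
    intro i' k'
    rw [coeff_C_mul_X_pow]
    by_cases h : i' = i
    · subst h
      rw [if_pos rfl, coeff_X_pow]
      simp
    · rw [if_neg h, coeff_zero, if_neg (fun h' => h h'.1)]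
  simp only [h1]
  by_cases h : i < m ∧ k < r * (m - i)
  · rw [Finset.sum_eq_single i, Finset.sum_eq_single k]
    · simp
    · intro k' _ hk'
      simp [hk']
    · intro hk
      exact absurd (Finset.mem_range.2 h.2) hk
    · intro i' _ hi'
      exact Finset.sum_eq_zero fun k' _ => by simp [hi']
    · intro hi
      exact absurd (Finset.mem_range.2 h.1) hi
  · rw [hv i k h]
    refine Finset.sum_eq_zero fun i' hi' => Finset.sum_eq_zero fun k' hk' => ?_
    rw [Finset.mem_range] at hi' hk'
    rw [if_neg, mul_zero]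
    rintro ⟨rfl, rfl⟩
    exact h ⟨hi', hk'⟩

theorem mon_succ (es : List ℕ) (k i c : ℕ) : mon (germ K es) k i (c + 1) =
    mon (germ K es) k (i + 1) c + (es.map fun e => mon (germ K es) (k + e) i c).sum := by
  have h1 : ∀ g : K[X][X], (es.map fun e => C (X ^ (k + e) : K[X]) * g).sum =
      C (X ^ k) * C (germ K es) * g := by
    intro g
    unfold germ
    induction es with
    | nil => simp
    | cons e t ih =>
      rw [List.map_cons, List.sum_cons, ih, List.map_cons, List.sum_cons, C_add, pow_add, C_mul]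
      ring
  have h2 : (es.map fun e => mon (germ K es) (k + e) i c).sum =
      C (X ^ k) * C (germ K es) * (X ^ i * (X + C (germ K es)) ^ c) := by
    rw [← h1]
    congr 1
    refine List.map_congr_left fun e _ => ?_
    unfold mon
    ring
  rw [h2]
  unfold mon
  ring

/-- the lists are not too long -/
def lenB (r m : ℕ) : ℕ → List (List ℕ) → Bool
  | _, [] => true
  | i, w :: t => (Nat.blt i m && Nat.ble w.length (r * (m - i))) && lenB r m (i + 1) t

theorem lenB_sound (r m : ℕ) : ∀ (W : List (List ℕ)) (i : ℕ), lenB r m i W = true →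
    ∀ j k, ¬ (i + j < m ∧ k < r * (m - (i + j))) → vl W j k = 0 := by
  intro W
  induction W with
  | nil => intro i _ j k _; simp [vl]
  | cons w t ih =>
    intro i h j k hjk
    rw [lenB, Bool.and_eq_true, Bool.and_eq_true] at h
    obtain ⟨⟨h1, h2⟩, h3⟩ := h
    have h1' := Nat.le_of_ble_eq_true h1
    have h2' := Nat.le_of_ble_eq_true h2
    cases j with
    | zero =>
      have h4 : vl (w :: t) 0 k = w.getD k 0 := rfl
      rw [h4, List.getD_eq_default]
      rw [add_zero] at hjk
      by_contra hcon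
      push Not at hcon
      exact hjk ⟨by omega, by omega⟩
    | succ j =>
      have h4 : vl (w :: t) (j + 1) k = vl t j k := rfl
      rw [h4]
      refine ih (i + 1) h3 j k ?_
      have e : i + 1 + j = i + (j + 1) := by ring
      rw [e]
      exact hjk

theorem bnd_stepW (X b : ℕ) (es : List ℕ) (W : List (List ℕ)) (hW : BndW X b W)
    (hb : b * (es.length + 1) < X) : BndW X (b * (es.length + 1)) (stepW es W) :=
  fun i k e => (dg_stepW X b es W hW hb i k e).2

theorem sum_sub_map (f g : ℕ → K) (es : List ℕ) :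
    (es.map fun x => f x - g x).sum = (es.map f).sum - (es.map g).sum := by
  induction es with
  | nil => simp
  | cons a t ih =>
    rw [List.map_cons, List.sum_cons, ih, List.map_cons, List.sum_cons, List.map_cons,
      List.sum_cons]
    ring

theorem cast_sum_map (f : ℕ → ℕ) (es : List ℕ) :
    (((es.map f).sum : ℕ) : K) = (es.map fun x => ((f x : ℕ) : K)).sum := by
  induction es with
  | nil => simp
  | cons a t ih =>
    rw [List.map_cons, List.sum_cons, Nat.cast_add, ih, List.map_cons, List.sum_cons]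

theorem map_sum_map (φ : K[X][X] →ₗ[K] K) (g : ℕ → K[X][X]) (es : List ℕ) :
    φ (es.map g).sum = (es.map fun x => φ (g x)).sum := by
  induction es with
  | nil => simp
  | cons a t ih =>
    rw [List.map_cons, List.sum_cons, map_add, ih, List.map_cons, List.sum_cons]

/-- the values of a functional on the monomials with `c` factors `ζ + η` -/
def Vals (φ : K[X][X] →ₗ[K] K) (X₀ e : ℕ) (es : List ℕ) (c : ℕ) (Wp Wm : List (List ℕ)) : Prop :=
  ∀ i k, φ (mon (germ K es) k i c) =
    ((dg X₀ e (vl Wp i k) : ℕ) : K) - ((dg X₀ e (vl Wm i k) : ℕ) : K)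

theorem Vals.step {φ : K[X][X] →ₗ[K] K} {X₀ e : ℕ} {es : List ℕ} {c b : ℕ}
    {Wp Wm : List (List ℕ)} (h : Vals φ X₀ e es c Wp Wm) (hp : BndW X₀ b Wp) (hm : BndW X₀ b Wm)
    (hb : b * (es.length + 1) < X₀) : Vals φ X₀ e es (c + 1) (stepW es Wp) (stepW es Wm) := by
  intro i k
  rw [mon_succ, map_add, map_sum_map, (dg_stepW X₀ b es Wp hp hb i k e).1,
    (dg_stepW X₀ b es Wm hm hb i k e).1, Nat.cast_add, Nat.cast_add, cast_sum_map, cast_sum_map,
    h (i + 1) k]
  have h1 : (es.map fun x => φ (mon (germ K es) (k + x) i c)) =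
      es.map fun x => ((dg X₀ e (vl Wp i (k + x)) : ℕ) : K) -
        ((dg X₀ e (vl Wm i (k + x)) : ℕ) : K) :=
    List.map_congr_left fun x _ => h i (k + x)
  rw [h1, sum_sub_map (fun x => ((dg X₀ e (vl Wp i (k + x)) : ℕ) : K))
    (fun x => ((dg X₀ e (vl Wm i (k + x)) : ℕ) : K))]
  ring

theorem vals_zero (r m X₀ e : ℕ) (es : List ℕ) (Wp Wm : List (List ℕ))
    (hp : lenB r m 0 Wp = true) (hm : lenB r m 0 Wm = true) :
    Vals (phi r m fun i k => ((dg X₀ e (vl Wp i k) : ℕ) : K) - ((dg X₀ e (vl Wm i k) : ℕ) : K))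
      X₀ e es 0 Wp Wm := by
  intro i k
  rw [phi_mon_zero]
  intro i k hik
  rw [lenB_sound r m Wp 0 hp i k (by rw [Nat.zero_add]; exact hik),
    lenB_sound r m Wm 0 hm i k (by rw [Nat.zero_add]; exact hik), sub_self]

/-! ### The checker -/

/-- equality of `E` digits modulo `N` -/
def digEq (X N : ℕ) (E : ℕ) : ℕ → ℕ → Bool :=
  Nat.rec (motive := fun _ => ℕ → ℕ → Bool) (fun _ _ => true)
    (fun _ ih S T => or (Nat.beq S T)
      (and (Nat.beq (Nat.mod (Nat.mod S X) N) (Nat.mod (Nat.mod T X) N))
        (ih (Nat.div S X) (Nat.div T X)))) E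

theorem digEq_succ (X N E S T : ℕ) : digEq X N (E + 1) S T = (Nat.beq S T ||
    (Nat.beq (S % X % N) (T % X % N) && digEq X N E (S / X) (T / X))) := rfl

theorem digEq_sound (X N : ℕ) : ∀ E S T : ℕ, digEq X N E S T = true → ∀ e < E,
    dg X e S % N = dg X e T % N := by
  intro E
  induction E with
  | zero => intro S T _ e he; omega
  | succ E ih =>
    intro S T h e he
    rw [digEq_succ, Bool.or_eq_true, Bool.and_eq_true] at h
    rcases h with h | h
    · rw [Nat.eq_of_beq_eq_true h]
    · cases e with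
      | zero => rw [dg_zero_left, dg_zero_left]; exact Nat.eq_of_beq_eq_true h.1
      | succ e => rw [dg_succ, dg_succ]; exact ih _ _ h.2 e (by omega)

/-- the check for one cell -/
def cellEq (X N E S T : ℕ) : Bool := bif Nat.beq N 0 then Nat.beq S T else digEq X N E S T

theorem cast_eq_of_mod (N a b : ℕ) (hN : (N : K) = 0) (h : a % N = b % N) : (a : K) = b := by
  rw [← Nat.div_add_mod a N, ← Nat.div_add_mod b N, h]
  push_cast
  rw [hN, zero_mul, zero_mul]

theorem cellEq_sound (X N E S T : ℕ) (hN : (N : K) = 0) (h : cellEq X N E S T = true) (e : ℕ)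
    (he : e < E) : ((dg X e S : ℕ) : K) = ((dg X e T : ℕ) : K) := by
  unfold cellEq at h
  cases h1 : Nat.beq N 0 with
  | true =>
    rw [h1, cond_true] at h
    rw [Nat.eq_of_beq_eq_true h]
  | false =>
    rw [h1, cond_false] at h
    exact cast_eq_of_mod N _ _ hN (digEq_sound X N E S T h e he)

theorem dg_mul_pow (X D t e : ℕ) (hD : D < X) : dg X e (D * X ^ t) = if e = t then D else 0 := by
  have hX : 0 < X := by omega
  unfold dg
  rcases lt_trichotomy e t with h | h | h
  · rw [if_neg (by omega)]
    have h1 : D * X ^ t = X ^ e * (X * (D * X ^ (t - e - 1))) := by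
      have h2 : X ^ t = X ^ e * (X * X ^ (t - e - 1)) := by
        rw [← pow_succ', ← pow_add]
        congr 1
        omega
      rw [h2]
      ring
    rw [h1, Nat.mul_div_cancel_left _ (Nat.pow_pos hX), Nat.mul_mod_right]
  · subst h
    rw [if_pos rfl, Nat.mul_div_cancel _ (Nat.pow_pos hX), Nat.mod_eq_of_lt hD]
  · rw [if_neg (by omega)]
    have h1 : D * X ^ t < X ^ e := by
      calc D * X ^ t < X * X ^ t := Nat.mul_lt_mul_of_pos_right hD (Nat.pow_pos hX)
        _ = X ^ (t + 1) := (pow_succ' X t).symm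
        _ ≤ X ^ e := Nat.pow_le_pow_right hX h
    rw [Nat.div_eq_of_lt h1, Nat.zero_mod]

/-- head -/
def hd (w : List ℕ) : ℕ := List.rec (motive := fun _ => ℕ) Nat.zero (fun a _ _ => a) w

/-- tail -/
def tl (w : List ℕ) : List ℕ := List.rec (motive := fun _ => List ℕ) [] (fun _ t _ => t) w

/-- the check for the cells `k, k + 1, …` (`n` cells) of one row; the cells from `lo` on are the
excess cells, with the numbers `base, base + 1, …` -/
def rowC (X N D E lo base : ℕ) (n : ℕ) : ℕ → List ℕ → List ℕ → Bool :=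
  Nat.rec (motive := fun _ => ℕ → List ℕ → List ℕ → Bool) (fun _ _ _ => true)
    (fun _ ih k wp wm => and (cond (Nat.ble lo k)
        (and (Nat.blt (Nat.add base (Nat.sub k lo)) E)
          (cellEq X N E (hd wp) (Nat.add (hd wm)
            (Nat.mul D (Nat.pow X (Nat.add base (Nat.sub k lo)))))))
        (cellEq X N E (hd wp) (hd wm)))
      (ih (Nat.succ k) (tl wp) (tl wm))) n

theorem rowC_succ (X N D E lo base n k : ℕ) (wp wm : List ℕ) :
    rowC X N D E lo base (n + 1) k wp wm = ((bif Nat.ble lo k then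
      (Nat.blt (base + (k - lo)) E &&
        cellEq X N E (wp.headD 0) (wm.headD 0 + D * X ^ (base + (k - lo))))
    else cellEq X N E (wp.headD 0) (wm.headD 0)) &&
      rowC X N D E lo base n (k + 1) wp.tail wm.tail) := by
  cases wp <;> cases wm <;> rfl

theorem getD_tail (w : List ℕ) (j : ℕ) : w.tail.getD j 0 = w.getD (j + 1) 0 := by
  cases w <;> simp

theorem headD_getD (w : List ℕ) : w.headD 0 = w.getD 0 0 := by
  cases w <;> simp

theorem rowC_sound (X N D E lo base : ℕ) (hN : (N : K) = 0) : ∀ (n k : ℕ) (wp wm : List ℕ),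
    rowC X N D E lo base n k wp wm = true → ∀ j < n,
    (lo ≤ k + j → base + (k + j - lo) < E ∧ ∀ e < E, ((dg X e (wp.getD j 0) : ℕ) : K) =
      ((dg X e (wm.getD j 0 + D * X ^ (base + (k + j - lo))) : ℕ) : K)) ∧
    (k + j < lo → ∀ e < E, ((dg X e (wp.getD j 0) : ℕ) : K) =
      ((dg X e (wm.getD j 0) : ℕ) : K)) := by
  intro n
  induction n with
  | zero => intro k wp wm _ j hj; omega
  | succ n ih =>
    intro k wp wm h j hj
    rw [rowC_succ, Bool.and_eq_true] at h
    obtain ⟨h1, h2⟩ := h
    cases j with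
    | zero =>
      rw [add_zero, ← headD_getD, ← headD_getD]
      cases h3 : Nat.ble lo k with
      | true =>
        rw [h3, cond_true, Bool.and_eq_true] at h1
        have h4 := Nat.le_of_ble_eq_true h3
        refine ⟨fun _ => ⟨Nat.le_of_ble_eq_true h1.1, fun e he => ?_⟩, fun h5 => by omega⟩
        exact cellEq_sound X N E _ _ hN h1.2 e he
      | false =>
        rw [h3, cond_false] at h1
        refine ⟨fun h5 => ?_, fun _ e he => cellEq_sound X N E _ _ hN h1 e he⟩
        rw [Nat.ble_eq_true_of_le h5] at h3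
        exact absurd h3 (by decide)
    | succ j =>
      have h3 := ih (k + 1) wp.tail wm.tail h2 j (by omega)
      rw [getD_tail, getD_tail] at h3
      have e1 : k + 1 + j = k + (j + 1) := by ring
      rw [e1] at h3
      exact h3

/-- the check for all rows -/
def chk (X N D E r m : ℕ) (es : List ℕ) :
    ℕ → ℕ → ℕ → List (List ℕ) → List (List ℕ) → List ℕ → Bool
  | _, _, _, _, _, [] => true
  | c, base, b, Wp, Wm, v :: t =>
    (Nat.blt (b + D) X && (Nat.blt (b * (es.length + 1)) X &&
      rowC X N D E (r * (m - c)) base v 0 (Wp.headD []) (Wm.headD []))) &&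
      chk X N D E r m es (c + 1) (base + (v - r * (m - c))) (b * (es.length + 1))
        (stepW es Wp) (stepW es Wm) t

/-- the number of the excess cell `(c, k)` -/
def idx (r m : ℕ) (f : ℕ → ℕ) (c k : ℕ) : ℕ :=
  ∑ c' ∈ Finset.range c, (f c' - r * (m - c')) + (k - r * (m - c))

theorem idx_inj (r m : ℕ) (f : ℕ → ℕ) {c k c' k' : ℕ} (hk : k < f c) (hk' : k' < f c')
    (h1 : r * (m - c) ≤ k) (h1' : r * (m - c') ≤ k') (h : idx r m f c k = idx r m f c' k') :
    c = c' ∧ k = k' := by
  have key : ∀ {c k c' k' : ℕ}, k < f c → r * (m - c) ≤ k → c < c' →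
      idx r m f c k < idx r m f c' k' := by
    intro c k c' k' hk h1 hc
    unfold idx
    have h2 : ∑ x ∈ Finset.range (c + 1), (f x - r * (m - x)) ≤
        ∑ x ∈ Finset.range c', (f x - r * (m - x)) :=
      Finset.sum_le_sum_of_subset (Finset.range_subset_range.2 hc)
    rw [Finset.sum_range_succ] at h2
    omega
  rcases lt_trichotomy c c' with hc | hc | hc
  · exact absurd h (key hk h1 hc).ne
  · subst hc
    refine ⟨rfl, ?_⟩
    unfold idx at h
    omega
  · exact absurd h.symm (key hk' h1' hc).ne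

theorem vl_head (W : List (List ℕ)) (k : ℕ) : vl W 0 k = (W.headD []).getD k 0 := by
  cases W <;> simp [vl]

theorem chk_sound (X₀ N D E r m : ℕ) (es : List ℕ) (hN : (N : K) = 0)
    (φ : ℕ → K[X][X] →ₗ[K] K) (f : ℕ → ℕ) : ∀ (l : List ℕ) (c base b : ℕ)
    (Wp Wm : List (List ℕ)), chk X₀ N D E r m es c base b Wp Wm l = true →
    base = ∑ c' ∈ Finset.range c, (f c' - r * (m - c')) → (∀ i, fn l i = f (c + i)) →
    BndW X₀ b Wp → BndW X₀ b Wm → (∀ e < E, Vals (φ e) X₀ e es c Wp Wm) →
    ∀ c', c ≤ c' → ∀ k < f c',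
      (r * (m - c') ≤ k → idx r m f c' k < E ∧ ∀ e < E, φ e (mon (germ K es) k 0 c') =
        if e = idx r m f c' k then (D : K) else 0) ∧
      (k < r * (m - c') → ∀ e < E, φ e (mon (germ K es) k 0 c') = 0) := by
  intro l
  induction l with
  | nil =>
    intro c base b Wp Wm _ _ hf _ _ _ c' hc k hk
    have h1 := hf (c' - c)
    have e1 : c + (c' - c) = c' := by omega
    rw [fn_nil, e1] at h1
    omega
  | cons v t ih =>
    intro c base b Wp Wm h hbase hf hp hm hV c' hc k hk
    rw [chk, Bool.and_eq_true, Bool.and_eq_true, Bool.and_eq_true] at h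
    obtain ⟨⟨h1, h2, h3⟩, h4⟩ := h
    have h1' : b + D < X₀ := Nat.le_of_ble_eq_true h1
    have h2' : b * (es.length + 1) < X₀ := Nat.le_of_ble_eq_true h2
    have hfc : v = f c := by
      have := hf 0
      rwa [fn_cons_zero, add_zero] at this
    rcases Nat.eq_or_lt_of_le hc with hcc | hcc
    · subst hcc
      have h5 := rowC_sound X₀ N D E (r * (m - c)) base hN v 0 _ _ h3 k (by omega)
      rw [Nat.zero_add, ← vl_head, ← vl_head] at h5
      refine ⟨fun hk1 => ?_, fun hk1 e he => ?_⟩
      · obtain ⟨h6, h7⟩ := h5.1 hk1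
        have hidx : base + (k - r * (m - c)) = idx r m f c k := by
          unfold idx
          rw [hbase]
        rw [hidx] at h6 h7
        refine ⟨h6, fun e he => ?_⟩
        rw [hV e he 0 k, h7 e he]
        have hD : D < X₀ := by omega
        rw [dg_add X₀ b D h1' e _ _ (fun e => hm 0 k e) (fun e => by
          rw [dg_mul_pow X₀ D _ e hD]
          split
          · exact le_rfl
          · exact Nat.zero_le _), dg_mul_pow X₀ D _ e hD, Nat.cast_add, add_sub_cancel_left]
        split
        · rfl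
        · simp
      · rw [hV e he 0 k, h5.2 hk1 e he, sub_self]
    · refine ih (c + 1) _ _ _ _ h4 ?_ ?_ (bnd_stepW X₀ b es Wp hp h2') (bnd_stepW X₀ b es Wm hm h2')
        (fun e he => (hV e he).step hp hm h2') c' hcc k hk
      · rw [Finset.sum_range_succ, ← hbase, ← hfc]
      · intro i
        have := hf (i + 1)
        rw [fn_cons_succ] at this
        rw [this]
        congr 1
        ring

/-! ### Vanishing -/

theorem coeff_eq_zero_of_excess {r m : ℕ} {f : ℕ → ℕ} {es : List ℕ} {c₀ k₀ B : ℕ}
    (hB : ∀ c, B ≤ c → f c = 0)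
    (φ : K[X][X] →ₗ[K] K) (hφ : ∀ Q ∈ cond K r m, φ Q = 0) (D : K) (hD : D ≠ 0)
    (hval : ∀ c k, k < f c → φ (mon (germ K es) k 0 c) = if c = c₀ ∧ k = k₀ then D else 0)
    (hk₀ : k₀ < f c₀) (P : K[X][X]) (hP : P ∈ rows K f)
    (hP0 : taylor (germ K es) P ∈ cond K r m) : (P.coeff c₀).coeff k₀ = 0 := by
  have hc₀ : c₀ < B := by
    by_contra hcon
    rw [hB c₀ (by omega)] at hk₀
    omega
  have h1 : P = ∑ c ∈ Finset.range B, ∑ k ∈ Finset.range (f c),
      ((P.coeff c).coeff k) • (C ((X : K[X]) ^ k) * (X : K[X][X]) ^ c) := by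
    ext c k
    rw [finsetSum_coeff]
    simp only [finsetSum_coeff, coeff_smul, coeff_C_mul, coeff_X_pow]
    by_cases hc : c < B
    · rw [Finset.sum_eq_single c]
      · by_cases hk : k < f c
        · rw [Finset.sum_eq_single k]
          · simp
          · intro k' _ hk'
            simp [coeff_X_pow, Ne.symm hk']
          · intro hk'
            exact absurd (Finset.mem_range.2 hk) hk'
        · have h2 := hP c
          rw [mem_degreeLT] at h2
          have h3 : (P.coeff c).coeff k = 0 := by
            refine coeff_eq_zero_of_degree_lt (lt_of_lt_of_le h2 ?_)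
            exact_mod_cast (by omega : f c ≤ k)
          rw [h3]
          refine (Finset.sum_eq_zero fun k' hk' => ?_).symm
          rw [Finset.mem_range] at hk'
          simp [coeff_X_pow, show k ≠ k' by omega]
      · intro c' _ hc'
        exact Finset.sum_eq_zero fun k' _ => by simp [Ne.symm hc']
      · intro hc'
        exact absurd (Finset.mem_range.2 hc) hc'
    · have h2 := hP c
      rw [hB c (by omega), mem_degreeLT] at h2
      have h3 : P.coeff c = 0 := by
        rw [← degree_eq_bot]
        have h4 : degree (P.coeff c) < ((0 : ℕ) : WithBot ℕ) := h2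
        exact Nat.WithBot.lt_zero_iff.1 h4
      rw [h3, coeff_zero]
      refine (Finset.sum_eq_zero fun c' hc' => Finset.sum_eq_zero fun k' _ => ?_).symm
      rw [Finset.mem_range] at hc'
      simp [show c ≠ c' by omega]
  have h2 : taylor (germ K es) P = ∑ c ∈ Finset.range B, ∑ k ∈ Finset.range (f c),
      ((P.coeff c).coeff k) • mon (germ K es) k 0 c := by
    conv_lhs => rw [h1]
    rw [map_sum]
    refine Finset.sum_congr rfl fun c _ => ?_
    rw [map_sum]
    refine Finset.sum_congr rfl fun k _ => ?_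
    have h3 : ∀ (a : K) (Q : K[X][X]), taylor (germ K es) (a • Q) =
        a • taylor (germ K es) Q := fun a Q => by
      exact ((taylor (germ K es)).restrictScalars K).map_smul a Q
    rw [h3, taylor_mul, taylor_C, taylor_pow, taylor_X]
    unfold mon
    rw [pow_zero, mul_one]
  have h3 := hφ _ hP0
  rw [h2, map_sum] at h3
  have h4 : ∀ c ∈ Finset.range B, φ (∑ k ∈ Finset.range (f c),
      ((P.coeff c).coeff k) • mon (germ K es) k 0 c) =
      if c = c₀ then (P.coeff c₀).coeff k₀ * D else 0 := by
    intro c _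
    rw [map_sum]
    simp only [map_smul, smul_eq_mul]
    by_cases hc : c = c₀
    · subst hc
      rw [if_pos rfl, Finset.sum_eq_single k₀]
      · rw [hval c k₀ hk₀, if_pos ⟨rfl, rfl⟩]
      · intro k hk hk'
        rw [hval c k (Finset.mem_range.1 hk), if_neg (fun h => hk' h.2), mul_zero]
      · intro hk
        exact absurd (Finset.mem_range.2 hk₀) hk
    · rw [if_neg hc]
      refine Finset.sum_eq_zero fun k hk => ?_
      rw [hval c k (Finset.mem_range.1 hk), if_neg (fun h => hc h.1), mul_zero]
  rw [Finset.sum_congr rfl h4, Finset.sum_ite_eq' (Finset.range B) c₀, if_pos (Finset.mem_range.2 hc₀)] at h3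
  exact (mul_eq_zero.1 h3).resolve_right hD

/-- once the excess coefficients vanish, the element vanishes -/
theorem eq_zero_of_triangular {r m : ℕ} {η : K[X]} (P : K[X][X])
    (hP : ∀ c, (P.coeff c).degree < ((r * (m - c) : ℕ) : WithBot ℕ))
    (hP0 : taylor η P ∈ cond K r m) : P = 0 := by
  by_contra hne
  set n := P.natDegree with hn
  have h1 : P.coeff n ≠ 0 := by
    rw [hn, coeff_natDegree]
    exact leadingCoeff_ne_zero.2 hne
  have h2 : n < m := by
    by_contra hcon
    have h3 := hP n
    have e : m - n = 0 := by omega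
    rw [e, mul_zero] at h3
    exact h1 (degree_eq_bot.1 (Nat.WithBot.lt_zero_iff.1 h3))
  have h4 : (taylor η P).coeff n = P.coeff n := by
    rw [hn, coeff_natDegree]
    have h5 : (taylor η P).natDegree = P.natDegree := natDegree_taylor P η
    rw [← h5, coeff_natDegree, leadingCoeff_taylor]
  have h5 := hP0 n h2
  rw [h4] at h5
  refine h1 (eq_zero_of_dvd_of_degree_lt h5 ?_)
  rw [degree_X_pow]
  exact hP n

/-! ### The certificate theorem -/

/-- apply a function to all entries -/
def mapT (g : ℕ → ℕ) : List (List ℕ) → List (List ℕ)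
  | [] => []
  | w :: t => w.map g :: mapT g t

theorem lenB_mapT (g : ℕ → ℕ) (r m : ℕ) : ∀ (W : List (List ℕ)) (i : ℕ),
    lenB r m i (mapT g W) = lenB r m i W := by
  intro W
  induction W with
  | nil => intro i; rfl
  | cons w t ih =>
    intro i
    rw [mapT, lenB, lenB, ih, List.length_map]

theorem bnd_mapT (X b : ℕ) (g : ℕ → ℕ) (hg : ∀ s e, dg X e (g s) ≤ b) (W : List (List ℕ)) :
    BndW X b (mapT g W) := by
  induction W with
  | nil =>
    intro i k e
    simp [mapT, vl, dg_zero]
  | cons w t ih =>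
    intro i k e
    cases i with
    | zero =>
      have h1 : vl (mapT g (w :: t)) 0 k = (w.map g).getD k 0 := rfl
      rw [h1]
      by_cases hk : k < w.length
      · rw [List.getD_eq_getElem _ _ (by rwa [List.length_map]), List.getElem_map]
        exact hg _ _
      · rw [List.getD_eq_default _ _ (by rw [List.length_map]; omega), dg_zero]
        exact Nat.zero_le _
    | succ i =>
      have h1 : vl (mapT g (w :: t)) (i + 1) k = vl (mapT g t) i k := rfl
      rw [h1]
      exact ih i k e

/-- The whole check.  The tables contain, for every condition, the `E` coefficients of the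
functionals (positive and negative parts), packed to the base `Y`. -/
def etaB (X Y N D E r m : ℕ) (es : List ℕ) (tp tm : List (List ℕ)) (l : List ℕ) : Bool :=
  Nat.blt 0 Y && (Nat.ble Y X && (lenB r m 0 tp && (lenB r m 0 tm &&
    chk X N D E r m es 0 0 (Y - 1) (mapT (fun s => spr X Y E s) tp)
      (mapT (fun s => spr X Y E s) tm) l)))

theorem good_of_eta (X₀ Y N D E r m : ℕ) (es : List ℕ) (tp tm : List (List ℕ)) (l : List ℕ)
    (h : etaB X₀ Y N D E r m es tp tm l = true) (hN : (N : K) = 0) (hD : (D : K) ≠ 0) :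
    Good K r m (fn l) (∑ c ∈ Finset.range l.length, fn l c) := by
  rw [etaB, Bool.and_eq_true, Bool.and_eq_true, Bool.and_eq_true, Bool.and_eq_true] at h
  obtain ⟨h1, h2, h3, h3', h4⟩ := h
  have h1' : 0 < Y := Nat.le_of_ble_eq_true h1
  have h2' : Y ≤ X₀ := Nat.le_of_ble_eq_true h2
  set Wp := mapT (fun s => spr X₀ Y E s) tp with hWp
  set Wm := mapT (fun s => spr X₀ Y E s) tm with hWm
  have hlp : lenB r m 0 Wp = true := by rw [hWp, lenB_mapT]; exact h3
  have hlm : lenB r m 0 Wm = true := by rw [hWm, lenB_mapT]; exact h3'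
  have hbp : BndW X₀ (Y - 1) Wp := bnd_mapT X₀ _ _ (fun s e => dg_spr X₀ Y h1' h2' E s e) tp
  have hbm : BndW X₀ (Y - 1) Wm := bnd_mapT X₀ _ _ (fun s e => dg_spr X₀ Y h1' h2' E s e) tm
  set φ : ℕ → K[X][X] →ₗ[K] K := fun e => phi r m fun i k =>
    ((dg X₀ e (vl Wp i k) : ℕ) : K) - ((dg X₀ e (vl Wm i k) : ℕ) : K) with hφ
  have hsound := chk_sound X₀ N D E r m es hN φ (fn l) l 0 0 (Y - 1) Wp Wm h4 (by simp)
    (fun i => by rw [Nat.zero_add]) hbp hbm (fun e _ => vals_zero r m X₀ e es Wp Wm hlp hlm)
  have hB : ∀ c, l.length ≤ c → fn l c = 0 := fn_of_le l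
  refine good_of_inj l.length (germ K es) fun P hP hP0 => ?_
  rw [Phi_eq_zero_iff] at hP0
  refine eq_zero_of_triangular (η := germ K es) P (fun c => ?_) hP0
  by_contra hcon
  -- the leading coefficient of the row `c` is an excess coefficient
  have h5 : P.coeff c ≠ 0 := by
    intro h0
    rw [h0, degree_zero] at hcon
    exact hcon (WithBot.bot_lt_coe _)
  have h6 := hP c
  rw [mem_degreeLT, degree_eq_natDegree h5] at h6
  rw [degree_eq_natDegree h5, not_lt] at hcon
  have h7 : (P.coeff c).natDegree < fn l c := by exact_mod_cast h6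
  have h8 : r * (m - c) ≤ (P.coeff c).natDegree := by exact_mod_cast hcon
  obtain ⟨h9, h10⟩ := (hsound c (Nat.zero_le c) _ h7).1 h8
  refine h5 (leadingCoeff_eq_zero.1 ?_)
  rw [leadingCoeff]
  refine coeff_eq_zero_of_excess hB (φ (idx r m (fn l) c (P.coeff c).natDegree))
    (fun Q hQ => phi_cond r m _ Q hQ) (D : K) hD (fun c' k' hk' => ?_) h7 P hP hP0
  rcases Nat.lt_or_ge k' (r * (m - c')) with h11 | h11
  · rw [(hsound c' (Nat.zero_le c') k' hk').2 h11 _ h9, if_neg]
    rintro ⟨rfl, rfl⟩
    omega
  · rw [((hsound c' (Nat.zero_le c') k' hk').1 h11).2 _ h9]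
    by_cases h12 : c' = c ∧ k' = (P.coeff c).natDegree
    · rw [if_pos h12, if_pos]
      rw [h12.1, h12.2]
    · rw [if_neg h12, if_neg]
      intro h13
      exact h12 (idx_inj r m (fn l) hk' h7 h11 h8 h13.symm)

end Pool.Agent.Helper22.E6
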