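import Pool.Agent.Helper22.E6.Eta

set_option autoImplicit false

/-! # Germ certificates: from the rows after some moves to a case (helper22), MP_e6aa12_ag -/

open Polynomial

namespace Pool.Agent.Helper22.E6

open Pool.Agent.Helper41.Fat Pool.Agent.Helper7.NM Pool.Agent.Helper7.Free Pool.Agent.Helper6.SQ

variable {K : Type*} [Field K]

/-- validity of a list of moves -/
def runB : List Mv → List ℕ → Bool
  | [], _ => true
  | Mv.N δ :: t, l => runB t (nodL δ l)
  | Mv.M lam D :: t, l => mvOK lam l 0 D && (antiB (mvRes D) && runB t (mvRes D))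

/-- the rows after a list of moves -/
def endL : List Mv → List ℕ → List ℕ
  | [], l => l
  | Mv.N δ :: t, l => endL t (nodL δ l)
  | Mv.M _ D :: t, _ => endL t (mvRes D)

theorem runB_sound [Infinite K] (r m R : ℕ) (M : List Mv) : ∀ l : List ℕ, Antitone (fn l) →
    runB M l = true → Good K r m (fn (endL M l)) R → Good K r m (fn l) R := by
  induction M with
  | nil => intro l _ _ h; exact h
  | cons a t ih =>
    intro l hl h hg
    cases a with
    | N δ =>
      rw [runB] at h
      rw [endL] at hg
      have h1 := ih (nodL δ l) (by rw [fn_nodL]; exact nod_antitone hl) h hg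
      rw [fn_nodL] at h1
      exact nodal_move δ l.length (fun c c' hc _ => hl hc) h1
    | M lam D =>
      rw [runB, Bool.and_eq_true, Bool.and_eq_true] at h
      rw [endL] at hg
      obtain ⟨h1, h2, h3⟩ := h
      have h4 := ih (mvRes D) (antiB_sound _ h2) h3 hg
      refine moveI (lam := lam) ⟨l.length, fun i => ?_⟩ h4
      obtain ⟨a, ha1, ha2⟩ := mvOK_sound lam l D 0 h1 i
      rw [zero_add] at ha1 ha2
      exact ⟨a, ha1, ha2⟩

/-- comparison of rows -/
def leL : List ℕ → List ℕ → Bool
  | [], _ => true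
  | v :: t, [] => Nat.ble v 0 && leL t []
  | v :: t, w :: u => Nat.ble v w && leL t u

theorem leL_sound : ∀ l l' : List ℕ, leL l l' = true → ∀ i, fn l i ≤ fn l' i := by
  intro l
  induction l with
  | nil => intro l' _ i; rw [fn_nil]; exact Nat.zero_le _
  | cons v t ih =>
    intro l' h i
    cases l' with
    | nil =>
      rw [leL, Bool.and_eq_true] at h
      have h1 := Nat.le_of_ble_eq_true h.1
      cases i with
      | zero => rw [fn_cons_zero, fn_nil]; exact h1
      | succ i =>
        rw [fn_cons_succ, fn_nil]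
        have := ih [] h.2 i
        rwa [fn_nil] at this
    | cons w u =>
      rw [leL, Bool.and_eq_true] at h
      cases i with
      | zero => exact Nat.le_of_ble_eq_true h.1
      | succ i => exact ih u h.2 i

/-- the sum of the rows -/
def sumL : List ℕ → ℕ
  | [] => 0
  | v :: t => v + sumL t

theorem sumL_eq (l : List ℕ) : sumL l = ∑ c ∈ Finset.range l.length, fn l c := by
  induction l with
  | nil => rfl
  | cons v t ih =>
    rw [sumL, ih, List.length_cons, Finset.sum_range_succ', add_comm]
    rfl

/-- the check of the moves for a case -/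
def pathB (r m d : ℕ) (M : List Mv) (l : List ℕ) : Bool :=
  runB M (stripL 1 (d + 1) (d + 1)) && (leL l (endL M (stripL 1 (d + 1) (d + 1))) &&
    Nat.ble (mn ((d + 2) * (d + 1) / 2) (r * ((m + 1) * m / 2))) (sumL l))

theorem case_of_path [Infinite K] (r m d : ℕ) (M : List Mv) (l : List ℕ)
    (h : pathB r m d M l = true)
    (hg : Good K r m (fn l) (∑ c ∈ Finset.range l.length, fn l c)) : Case K r m d := by
  rw [pathB, Bool.and_eq_true, Bool.and_eq_true] at h
  obtain ⟨h1, h2, h3⟩ := h
  rw [← sumL_eq] at hg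
  have h4 : Good K r m (fn l) (mn ((d + 2) * (d + 1) / 2) (r * ((m + 1) * m / 2))) :=
    hg.le (Nat.le_of_ble_eq_true h3)
  have h5 := h4.mono (leL_sound _ _ h2)
  have e : fn (stripL 1 (d + 1) (d + 1)) = strip 1 d := fn_stripL_zero 1 d (d + 1) (by omega)
  have h6 := runB_sound (K := K) r m _ M _ (by rw [e]; exact strip_antitone 1 d) h1 h5
  rw [e] at h6
  have h7 := start 1 d one_pos h6
  unfold Case
  have e1 : (d + 2) * (d + 1) / 2 = (d + 2).choose 2 := by
    rw [Nat.choose_two_right]
    rfl
  have e2 : (m + 1) * m / 2 = (m + 1).choose 2 := by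
    rw [Nat.choose_two_right]
    rfl
  rw [mn_eq, e1, e2] at h7
  exact h7

theorem cast_zero_of_dvd {D N : ℕ} (k : ℕ) (h : D ∣ N ^ k) (hD : (D : K) = 0) : (N : K) = 0 := by
  obtain ⟨c, hc⟩ := h
  have h1 : ((N ^ k : ℕ) : K) = 0 := by rw [hc, Nat.cast_mul, hD, zero_mul]
  rw [Nat.cast_pow] at h1
  rcases Nat.eq_zero_or_pos k with h0 | h0
  · subst h0
    rw [pow_zero] at h1
    exact absurd h1 one_ne_zero
  · exact (pow_eq_zero_iff (by omega)).1 h1

end Pool.Agent.Helper22.E6
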