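import Pool.Agent.Helper22.E6.EtaS
import Pool.Agent.Helper22.E6.Descend

set_option autoImplicit false

/-! # Germ certificates over the field with eight elements (helper22), MP_e6aa12_ag

In characteristic `2` the germ is `η₀ + α η₁` with `α ^ 3 = α + 1`.  A polynomial over the field
with eight elements is a triple `(P₀, P₁, P₂)`, standing for `P₀ + α P₁ + α ^ 2 P₂`. -/

open Polynomial

namespace Pool.Agent.Helper22.E6

open Pool.Agent.Helper41.Fat

variable {K : Type*} [Field K]

/-- sum of lists -/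
def add2 : List ℕ → List ℕ → List ℕ
  | [], S => S
  | a :: R, [] => a :: R
  | a :: R, b :: S => Nat.add a b :: add2 R S

theorem getD_add2 : ∀ (R S : List ℕ) (i : ℕ),
    (add2 R S).getD i 0 = R.getD i 0 + S.getD i 0 := by
  intro R
  induction R with
  | nil => intro S i; rw [add2, List.getD_nil, zero_add]
  | cons a R ih =>
    intro S i
    cases S with
    | nil => rw [add2, List.getD_nil, add_zero]
    | cons b S =>
      cases i with
      | zero => rfl
      | succ i =>
        have e1 : (add2 (a :: R) (b :: S)).getD (i + 1) 0 = (add2 R S).getD i 0 := rfl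
        rw [e1, ih]
        rfl

theorem repL_add2 {X₀ b b' : ℕ} {R S : List ℕ} {P Q : K[X][X]} (hP : RepL X₀ b R P)
    (hQ : RepL X₀ b' S Q) (hb : b + b' < X₀) : RepL X₀ (b + b') (add2 R S) (P + Q) := by
  intro i
  rw [getD_add2, coeff_add]
  exact rep_add (hP i) (hQ i) hb

theorem repL_mono {X₀ b b' : ℕ} {R : List ℕ} {P : K[X][X]} (h : RepL X₀ b R P) (hb : b ≤ b') :
    RepL X₀ b' R P := fun i => rep_mono (h i) hb

/-- multiplication of a list by a germ -/
def mulL (X₀ : ℕ) (es : List ℕ) : List ℕ → List ℕ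
  | [] => []
  | s :: t => mulg X₀ s es :: mulL X₀ es t

theorem getD_mulL (X₀ : ℕ) (es : List ℕ) : ∀ (R : List ℕ) (i : ℕ),
    (mulL X₀ es R).getD i 0 = mulg X₀ (R.getD i 0) es := by
  intro R
  induction R with
  | nil => intro i; rw [mulL, List.getD_nil, mulg_zero]
  | cons s t ih =>
    intro i
    cases i with
    | zero => rfl
    | succ i =>
      have e1 : (mulL X₀ es (s :: t)).getD (i + 1) 0 = (mulL X₀ es t).getD i 0 := rfl
      rw [e1, ih]
      rfl

theorem repL_mulL {X₀ b : ℕ} {es R : List ℕ} {P : K[X][X]} (hX : 0 < X₀) (hR : RepL X₀ b R P)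
    (hb : b * es.length < X₀) : RepL X₀ (b * es.length) (mulL X₀ es R) (C (germ K es) * P) := by
  intro i
  rw [getD_mulL, coeff_C_mul, mul_comm (germ K es)]
  exact rep_mulg hX (hR i) es hb

/-- one step of the Horner scheme for triples -/
def st3 (X₀ : ℕ) (es fs : List ℕ) (a b c : ℕ) (R : List ℕ × List ℕ × List ℕ) :
    List ℕ × List ℕ × List ℕ :=
  (add2 (hs X₀ es a R.1) (mulL X₀ fs R.2.2),
    add2 (hs X₀ es b R.2.1) (mulL X₀ fs (add2 R.1 R.2.2)),
    add2 (hs X₀ es c R.2.2) (mulL X₀ fs R.2.1))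

/-- the Horner scheme for triples -/
def hor3 (X₀ : ℕ) (es fs : List ℕ) : ℕ → List ℕ → List ℕ → List ℕ → List ℕ × List ℕ × List ℕ
  | 0, _, _, _ => ([], [], [])
  | n + 1, A, B, D => st3 X₀ es fs (hd A) (hd B) (hd D) (hor3 X₀ es fs n (tl A) (tl B) (tl D))

theorem repL_tl {X₀ b : ℕ} {A : List ℕ} {P : K[X][X]} (h : RepL X₀ b A P) :
    RepL X₀ b (tl A) P.divX := by
  intro i
  rw [tl_getD, coeff_divX]
  exact h (i + 1)

theorem repL_nil {X₀ b : ℕ} : RepL X₀ b [] (0 : K[X][X]) := by
  intro i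
  rw [List.getD_nil, coeff_zero]
  exact rep_zero _ _

/-- the Horner scheme computes the Taylor shift -/
theorem repL_hor3 {X₀ b : ℕ} {es fs : List ℕ} (hX : 0 < X₀) (α : K) (hα : α ^ 3 = α + 1) :
    ∀ (n : ℕ) (A B D : List ℕ) (P Q R : K[X][X]), RepL X₀ b A P → RepL X₀ b B Q →
    RepL X₀ b D R → (∀ i, n ≤ i → P.coeff i = 0) → (∀ i, n ≤ i → Q.coeff i = 0) →
    (∀ i, n ≤ i → R.coeff i = 0) → b * (es.length + 1 + 2 * fs.length) ^ n < X₀ →
    ∃ T U V : K[X][X],
      RepL X₀ (b * (es.length + 1 + 2 * fs.length) ^ n) (hor3 X₀ es fs n A B D).1 T ∧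
      RepL X₀ (b * (es.length + 1 + 2 * fs.length) ^ n) (hor3 X₀ es fs n A B D).2.1 U ∧
      RepL X₀ (b * (es.length + 1 + 2 * fs.length) ^ n) (hor3 X₀ es fs n A B D).2.2 V ∧
      T + C (C α) * U + C (C α) ^ 2 * V = taylor (germ K es + C α * germ K fs)
        (P + C (C α) * Q + C (C α) ^ 2 * R) := by
  intro n
  induction n with
  | zero =>
    intro A B D P Q R _ _ _ hP hQ hR _
    have h0 : ∀ S : K[X][X], (∀ i, 0 ≤ i → S.coeff i = 0) → S = 0 := by
      intro S hS
      ext i : 1
      rw [hS i (Nat.zero_le i), coeff_zero]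
    rw [h0 P hP, h0 Q hQ, h0 R hR]
    refine ⟨0, 0, 0, repL_nil, repL_nil, repL_nil, ?_⟩
    simp
  | succ n ih =>
    intro A B D P Q R hA hB hD hP hQ hR hb
    set M := es.length + 1 + 2 * fs.length with hM
    have hM1 : 1 ≤ M := by omega
    rw [pow_succ, ← mul_assoc] at hb ⊢
    set b' := b * M ^ n with hb'
    have hle : b' ≤ b' * M := Nat.le_mul_of_pos_right _ hM1
    have hbb : b ≤ b' := Nat.le_mul_of_pos_right _ (Nat.pow_pos hM1)
    obtain ⟨T, U, V, hT, hU, hV, hTay⟩ := ih (tl A) (tl B) (tl D) P.divX Q.divX R.divX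
      (repL_tl hA) (repL_tl hB) (repL_tl hD)
      (fun i hi => by rw [coeff_divX]; exact hP _ (by omega))
      (fun i hi => by rw [coeff_divX]; exact hQ _ (by omega))
      (fun i hi => by rw [coeff_divX]; exact hR _ (by omega)) (by omega)
    have hbM : b' * M = b' * (es.length + 1) + 2 * (b' * fs.length) := by rw [hM]; ring
    have hfs : b' * fs.length ≤ 2 * (b' * fs.length) := Nat.le_mul_of_pos_left _ (by norm_num)
    have hhd : ∀ (E : List ℕ) (S : K[X][X]), RepL X₀ b E S → Rep X₀ b' (hd E) (S.coeff 0) := by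
      intro E S hE
      rw [hd_getD]
      exact rep_mono (hE 0) hbb
    have hfs1 : b' * es.length + b' = b' * (es.length + 1) := by ring
    have s1 := repL_hs (es := es) hX (hhd A P hA) hT (by omega)
    have s2 := repL_hs (es := es) hX (hhd B Q hB) hU (by omega)
    have s3 := repL_hs (es := es) hX (hhd D R hD) hV (by omega)
    have hTV : b' + b' < X₀ ∨ fs.length = 0 := by
      rcases Nat.eq_zero_or_pos fs.length with h | h
      · exact Or.inr h
      · left
        have : b' * 1 ≤ b' * fs.length := Nat.mul_le_mul_left _ h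
        have h2 : b' ≤ b' * (es.length + 1) := Nat.le_mul_of_pos_right _ (Nat.succ_pos _)
        omega
    have m1 := repL_mulL (es := fs) hX hV (by omega)
    have m3 := repL_mulL (es := fs) hX hU (by omega)
    have m2 : RepL X₀ (2 * (b' * fs.length)) (mulL X₀ fs (add2 (hor3 X₀ es fs n (tl A) (tl B) (tl D)).1
        (hor3 X₀ es fs n (tl A) (tl B) (tl D)).2.2)) (C (germ K fs) * (T + V)) := by
      rcases hTV with h | h
      · have h3 := repL_mulL (es := fs) hX (repL_add2 hT hV h) (by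
          have e : (b' + b') * fs.length = 2 * (b' * fs.length) := by ring
          omega)
        have e : (b' + b') * fs.length = 2 * (b' * fs.length) := by ring
        rwa [e] at h3
      · have h4 : fs = [] := List.length_eq_zero_iff.1 h
        subst h4
        intro i
        rw [getD_mulL]
        have e1 : germ K [] = 0 := by simp [germ]
        rw [e1, C_0, zero_mul, coeff_zero]
        exact rep_mono (rep_zero X₀ 0) (Nat.zero_le _)
    have r1 := repL_mono (repL_add2 s1 m1 (by omega)) (show _ ≤ b' * M by omega)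
    have r2 := repL_mono (repL_add2 s2 m2 (by omega)) (show _ ≤ b' * M by omega)
    have r3 := repL_mono (repL_add2 s3 m3 (by omega)) (show _ ≤ b' * M by omega)
    refine ⟨_, _, _, r1, r2, r3, ?_⟩
    have hA3 : (C (C α) : K[X][X]) ^ 3 = C (C α) + 1 := by
      rw [← C_pow, ← C_pow, hα, C_add, C_add, C_1, C_1]
    have e2 : P + C (C α) * Q + C (C α) ^ 2 * R =
        C (P.coeff 0 + C α * Q.coeff 0 + C α ^ 2 * R.coeff 0) +
          X * (P.divX + C (C α) * Q.divX + C (C α) ^ 2 * R.divX) := by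
      conv_lhs => rw [← P.divX_mul_X_add, ← Q.divX_mul_X_add, ← R.divX_mul_X_add]
      rw [C_add, C_add, C_mul, C_mul, C_pow]
      ring
    rw [e2, map_add, taylor_C, taylor_mul, taylor_X, ← hTay]
    rw [C_add, C_add, C_add, C_mul, C_mul, C_mul, C_pow]
    linear_combination (-(C (germ K fs) * V)) * hA3

/-- the conditions for a triple -/
def chkF (X₀ t r m : ℕ) (R : List ℕ × List ℕ × List ℕ) : Bool :=
  condD X₀ 2 t r m R.1 [] && (condD X₀ 2 t r m R.2.1 [] && condD X₀ 2 t r m R.2.2 [])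

/-- one certificate: for the row `c` -/
def oneF (X₀ G W r m t : ℕ) (es fs l : List ℕ) (c : ℕ) (ta tb tc : List ℕ) : Bool :=
  okL G W l ta && (okL G W l tb && (okL G W l tc &&
    chkF X₀ t r m (hor3 X₀ es fs l.length (addAt (pkL X₀ G W l ta) c (Nat.pow X₀ (fn l c)))
      (pkL X₀ G W l tb) (pkL X₀ G W l tc))))

/-- a list of certificates for the rows `c, c + 1, …` -/
def allF (X₀ G W r m t : ℕ) (es fs l : List ℕ) : ℕ → List (List ℕ × List ℕ × List ℕ) → Bool
  | _, [] => true
  | c, (ta, tb, tc) :: u => oneF X₀ G W r m t es fs l c ta tb tc &&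
      allF X₀ G W r m t es fs l (c + 1) u

theorem allF_sound (X₀ G W r m t : ℕ) (es fs l : List ℕ) :
    ∀ (L : List (List ℕ × List ℕ × List ℕ)) (c : ℕ), allF X₀ G W r m t es fs l c L = true →
    ∀ i < L.length, ∃ ta tb tc, oneF X₀ G W r m t es fs l (c + i) ta tb tc = true := by
  intro L
  induction L with
  | nil => intro c _ i hi; simp at hi
  | cons a u ih =>
    obtain ⟨ta, tb, tc⟩ := a
    intro c h i hi
    rw [allF, Bool.and_eq_true] at h
    cases i with
    | zero => exact ⟨ta, tb, tc, h.1⟩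
    | succ i =>
      have h4 := ih (c + 1) h.2 i (by simpa using hi)
      have e : c + 1 + i = c + (i + 1) := by ring
      rwa [e] at h4

/-- The whole check over the field with eight elements. -/
def etaF (X₀ G V W r m t : ℕ) (es fs l : List ℕ) (L : List (List ℕ × List ℕ × List ℕ)) : Bool :=
  (Nat.beq W (V * G) && (Nat.blt 0 V && (Nat.ble m l.length && (Nat.beq L.length l.length &&
    (Nat.beq (sumL l) (r * ((m + 1) * m / 2)) &&
    (Nat.blt (V * (es.length + 1 + 2 * fs.length) ^ l.length) X₀ &&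
      Nat.ble (r * m) (2 ^ t))))))) &&
  allF X₀ G W r m t es fs l 0 L

theorem condD_mem {X₀ b t r m : ℕ} {R : List ℕ} {T : K[X][X]} (h2 : ((2 : ℕ) : K) = 0)
    (hrm : r * m ≤ 2 ^ t) (hT : RepL X₀ b R T) (h : condD X₀ 2 t r m R [] = true) :
    T ∈ cond K r m := by
  intro j hj
  rw [X_pow_dvd_iff]
  intro e he
  rw [(hT j e).1, condD_sound X₀ 2 t r h2 m R [] hrm h j hj e he, List.getD_nil, dg_zero,
    Nat.cast_zero]

/-- **The certificate theorem** over a field containing the field with eight elements. -/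
theorem good_of_etaF_root (X₀ G V W r m t : ℕ) (es fs l : List ℕ)
    (L : List (List ℕ × List ℕ × List ℕ)) (h : etaF X₀ G V W r m t es fs l L = true)
    (h2 : ((2 : ℕ) : K) = 0) (α : K) (hα : α ^ 3 = α + 1) :
    Good K r m (fn l) (∑ c ∈ Finset.range l.length, fn l c) := by
  rw [etaF, Bool.and_eq_true, Bool.and_eq_true, Bool.and_eq_true, Bool.and_eq_true,
    Bool.and_eq_true, Bool.and_eq_true, Bool.and_eq_true] at h
  obtain ⟨⟨h1, hV, h3, h4, h5, h6, h6'⟩, h7⟩ := h
  have hrm : r * m ≤ 2 ^ t := Nat.le_of_ble_eq_true h6'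
  obtain rfl : W = V * G := Nat.eq_of_beq_eq_true h1
  have hV0 : 0 < V := Nat.le_of_ble_eq_true hV
  have hm : m ≤ l.length := Nat.le_of_ble_eq_true h3
  have hL : L.length = l.length := Nat.eq_of_beq_eq_true h4
  have hsum : sumL l = r * ((m + 1) * m / 2) := Nat.eq_of_beq_eq_true h5
  have hb : V * (es.length + 1 + 2 * fs.length) ^ l.length < X₀ := Nat.le_of_ble_eq_true h6
  have hM1 : 1 ≤ (es.length + 1 + 2 * fs.length) ^ l.length := Nat.one_le_pow _ _ (by omega)
  have hb1 : V ≤ V * (es.length + 1 + 2 * fs.length) ^ l.length :=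
    Nat.le_mul_of_pos_right _ hM1
  have hX2 : 2 ≤ X₀ := by omega
  have hX0 : 0 < X₀ := by omega
  have hVX : V ≤ X₀ := by omega
  have e1 : (m + 1) * m / 2 = (m + 1).choose 2 := by
    rw [Nat.choose_two_right]
    rfl
  rw [← sumL_eq, hsum, e1]
  have hlast : ∀ c, l.length ≤ c → fn l c = 0 := fn_of_le l
  refine Pool.Agent.Helper54.FM.good_of_hypx (germ K es + C α * germ K fs) hm hlast
    fun c hc => ?_
  obtain ⟨ta, tb, tc, hone⟩ := allF_sound X₀ G (V * G) r m t es fs l L 0 h7 c (by omega)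
  rw [Nat.zero_add] at hone
  rw [oneF, Bool.and_eq_true, Bool.and_eq_true, Bool.and_eq_true] at hone
  obtain ⟨ho1, ho2, ho3, ho4⟩ := hone
  obtain ⟨ha1, ha2⟩ := okL_sound X₀ G V hVX hV0 l ta ho1
  obtain ⟨hb1', hb2⟩ := okL_sound X₀ G V hVX hV0 l tb ho2
  obtain ⟨hc1, hc2⟩ := okL_sound X₀ G V hVX hV0 l tc ho3
  have hdp : ∀ i e, dg X₀ e ((addAt (pkL X₀ G (V * G) l ta) c (X₀ ^ fn l c)).getD i 0) =
      dg X₀ e ((pkL X₀ G (V * G) l ta).getD i 0) + if i = c ∧ e = fn l c then 1 else 0 := by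
    intro i e
    rw [getD_addAt]
    by_cases hic : i = c
    · rw [if_pos hic]
      have h9 : X₀ ^ fn l c = 1 * X₀ ^ fn l c := (one_mul _).symm
      rw [h9, dg_add X₀ (V - 1) 1 (by omega) e _ _ (ha2 i).1 (fun e => by
        rw [dg_mul_pow X₀ 1 _ e (by omega)]
        split
        · exact le_rfl
        · exact Nat.zero_le _), dg_mul_pow X₀ 1 _ e (by omega)]
      by_cases he : e = fn l c
      · rw [if_pos he, if_pos ⟨hic, he⟩]
      · rw [if_neg he, if_neg (fun h => he h.2)]
    · rw [if_neg hic, if_neg (fun h => hic h.1), add_zero, add_zero]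
  obtain ⟨P, hP, hP'⟩ := repL_exists (K := K) X₀ V hX2
    (addAt (pkL X₀ G (V * G) l ta) c (X₀ ^ fn l c)) (fun i e => by
      rw [hdp]
      have := (ha2 i).1 e
      split <;> omega)
  obtain ⟨Q, hQ, hQ'⟩ := repL_exists (K := K) X₀ V hX2 (pkL X₀ G (V * G) l tb) (fun i e => by
      have := (hb2 i).1 e
      omega)
  obtain ⟨R, hR, hR'⟩ := repL_exists (K := K) X₀ V hX2 (pkL X₀ G (V * G) l tc) (fun i e => by
      have := (hc2 i).1 e
      omega)
  have hlen := length_addAt c (pkL X₀ G (V * G) l ta) (X₀ ^ fn l c) _ ha1 hc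
  obtain ⟨T, U, Z, hT, hU, hZ, hTay⟩ := repL_hor3 (es := es) (fs := fs) hX0 α hα l.length _ _ _
    P Q R hP hQ hR (fun i hi => by rcases hP' i with h | h; exacts [h, by omega])
    (fun i hi => by rcases hQ' i with h | h; exacts [h, by omega])
    (fun i hi => by rcases hR' i with h | h; exacts [h, by omega]) hb
  rw [chkF, Bool.and_eq_true, Bool.and_eq_true] at ho4
  obtain ⟨hk1, hk2, hk3⟩ := ho4
  have hmul : ∀ (a : K) (S : K[X][X]), S ∈ cond K r m → C (C a) * S ∈ cond K r m := by
    intro a S hS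
    rw [← smul_eq_CC]
    exact (cond K r m).smul_mem a hS
  have hmulr : ∀ (a : K) (S : K[X][X]), S ∈ rows K (fn l) → C (C a) * S ∈ rows K (fn l) := by
    intro a S hS
    rw [← smul_eq_CC]
    exact (rows K (fn l)).smul_mem a hS
  have hC2 : (C (C α) : K[X][X]) ^ 2 = C (C (α ^ 2)) := by rw [C_pow, C_pow]
  refine ⟨P + C (C α) * Q + C (C α) ^ 2 * R, ?_, ?_⟩
  · rw [← hTay, hC2]
    exact (cond K r m).add_mem ((cond K r m).add_mem (condD_mem h2 hrm hT hk1)
      (hmul _ _ (condD_mem h2 hrm hU hk2))) (hmul _ _ (condD_mem h2 hrm hZ hk3))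
  · have e2 : P + C (C α) * Q + C (C α) ^ 2 * R - C (X ^ fn l c) * X ^ c =
        (P - C (X ^ fn l c) * X ^ c) + C (C α) * Q + C (C (α ^ 2)) * R := by
      rw [hC2]; ring
    rw [e2]
    refine (rows K (fn l)).add_mem ((rows K (fn l)).add_mem ?_ (hmulr _ _ ?_)) (hmulr _ _ ?_)
    · intro i
      rw [mem_degreeLT, degree_lt_iff_coeff_zero]
      intro e he
      rw [coeff_sub, coeff_sub, (hP i e).1, hdp, (ha2 i).2 e he, zero_add, coeff_C_mul_X_pow]
      by_cases hic : i = c
      · subst hic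
        rw [if_pos rfl, coeff_X_pow]
        by_cases he2 : e = fn l i
        · rw [if_pos ⟨rfl, he2⟩, if_pos he2, Nat.cast_one, sub_self]
        · rw [if_neg (fun h => he2 h.2), if_neg he2, Nat.cast_zero, sub_self]
      · rw [if_neg (fun h => hic h.1), if_neg hic, coeff_zero, Nat.cast_zero, sub_self]
    · intro i
      rw [mem_degreeLT, degree_lt_iff_coeff_zero]
      intro e he
      rw [(hQ i e).1, (hb2 i).2 e he, Nat.cast_zero]
    · intro i
      rw [mem_degreeLT, degree_lt_iff_coeff_zero]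
      intro e he
      rw [(hR i e).1, (hc2 i).2 e he, Nat.cast_zero]

/-- **The certificate theorem** over an arbitrary infinite field of characteristic `2`. -/
theorem good_of_etaF [Infinite K] (X₀ G V W r m t : ℕ) (es fs l : List ℕ)
    (L : List (List ℕ × List ℕ × List ℕ)) (h : etaF X₀ G V W r m t es fs l L = true)
    (h2 : ((2 : ℕ) : K) = 0) :
    Good K r m (fn l) (∑ c ∈ Finset.range l.length, fn l c) := by
  have h2' : ((2 : ℕ) : AlgebraicClosure K) = 0 := by
    rw [← map_natCast (algebraMap K (AlgebraicClosure K)) 2, h2, map_zero]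
  obtain ⟨α, hα⟩ := IsAlgClosed.exists_root (X ^ 3 - X - 1 : (AlgebraicClosure K)[X]) (by
    have : (X ^ 3 - X - 1 : (AlgebraicClosure K)[X]).natDegree = 3 := by compute_degree!
    have h0 := degree_ne_of_natDegree_ne (n := 0) (p := (X ^ 3 - X - 1 : (AlgebraicClosure K)[X]))
      (by rw [this]; norm_num)
    exact_mod_cast h0)
  have hα' : α ^ 3 = α + 1 := by
    have h3 : α ^ 3 - α - 1 = 0 := by simpa [IsRoot] using hα
    linear_combination h3
  exact good_descend (L := AlgebraicClosure K)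
    (good_of_etaF_root X₀ G V W r m t es fs l L h h2' α hα')

end Pool.Agent.Helper22.E6
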