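import Pool.Agent.Helper22.E6.EtaF

set_option autoImplicit false

/-! # A faster checker for germ certificates (helper22), MP_e6aa12_ag

The germ is packed in one number, divisibility of all digits by `N` is checked with a bit mask
(the base is a power of two), the recursions are explicit recursors. -/

open Polynomial

namespace Pool.Agent.Helper22.E6

open Pool.Agent.Helper41.Fat Pool.Agent.Helper7.NM Pool.Agent.Helper7.Free Pool.Agent.Helper6.SQ

variable {K : Type*} [Field K]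

/-! ### The Horner scheme -/

theorem mulg_eq (X₀ S : ℕ) (es : List ℕ) : mulg X₀ S es = S * mulg X₀ 1 es := by
  induction es with
  | nil => rfl
  | cons x t ih => rw [mulg_cons, mulg_cons, ih, one_mul, mul_add]

/-- one Horner step, `Gm` is the packed germ -/
def hsM (Gm : ℕ) (R : List ℕ) : ℕ → List ℕ :=
  List.rec (motive := fun _ => ℕ → List ℕ) (fun a => [a])
    (fun s _ ih a => Nat.add a (Nat.mul s Gm) :: ih s) R

theorem hsM_eq (X₀ : ℕ) (es : List ℕ) : ∀ (R : List ℕ) (a : ℕ),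
    hsM (mulg X₀ 1 es) R a = hs X₀ es a R := by
  intro R
  induction R with
  | nil => intro a; rfl
  | cons s t ih =>
    intro a
    rw [hs, mulg_eq X₀ s es, ← ih]
    rfl

/-- the Horner scheme -/
def horM (Gm : ℕ) (L : List ℕ) : List ℕ :=
  List.rec (motive := fun _ => List ℕ) [] (fun a _ ih => hsM Gm ih a) L

theorem horM_eq (X₀ : ℕ) (es L : List ℕ) : horM (mulg X₀ 1 es) L = hor X₀ es L := by
  induction L with
  | nil => rfl
  | cons a L ih =>
    rw [hor, ← ih, ← hsM_eq]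
    rfl

/-! ### Bit masks -/

/-- the low part of `Q` has small digits -/
theorem mask_digit (w b : ℕ) (hb : b ≤ w) (x : ℕ) (hx : x < 2 ^ w)
    (h : x &&& ((2 ^ b - 1) * 2 ^ (w - b)) = 0) : x < 2 ^ (w - b) := by
  refine Nat.lt_pow_two_of_testBit x fun i hi => ?_
  by_cases hiw : i < w
  · have h1 : (x &&& ((2 ^ b - 1) * 2 ^ (w - b))).testBit i = false := by
      rw [h, Nat.zero_testBit]
    rw [Nat.testBit_and] at h1
    have h2 : ((2 ^ b - 1) * 2 ^ (w - b)).testBit i = true := by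
      rw [Nat.testBit_mul_two_pow]
      rw [Nat.testBit_two_pow_sub_one]
      simp only [Bool.and_eq_true, decide_eq_true_eq]
      omega
    rw [h2, Bool.and_true] at h1
    exact h1
  · exact Nat.testBit_lt_two_pow (lt_of_lt_of_le hx (Nat.pow_le_pow_right (by norm_num) (by omega)))

/-- the mask for `k` digits -/
def mk (X₀ M₀ : ℕ) : ℕ → ℕ
  | 0 => 0
  | k + 1 => M₀ + X₀ * mk X₀ M₀ k

theorem mk_eq (X₀ M₀ : ℕ) (hX : 2 ≤ X₀) : ∀ k, mk X₀ M₀ k = M₀ * ((X₀ ^ k - 1) / (X₀ - 1)) := by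
  intro k
  rw [← Nat.geomSum_eq hX]
  induction k with
  | zero => simp [mk]
  | succ k ih =>
    rw [mk, ih, Finset.sum_range_succ']
    rw [mul_add, pow_zero, mul_one, add_comm M₀, ← mul_assoc, mul_comm X₀ M₀, mul_assoc,
      Finset.mul_sum (a := X₀)]
    congr 2
    exact Finset.sum_congr rfl fun i _ => (pow_succ' X₀ i).symm

theorem mask_all (w b : ℕ) (hb : b ≤ w) : ∀ k Q : ℕ,
    Q &&& mk (2 ^ w) ((2 ^ b - 1) * 2 ^ (w - b)) k = 0 → ∀ e < k,
    dg (2 ^ w) e Q < 2 ^ (w - b) := by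
  have hM : (2 ^ b - 1) * 2 ^ (w - b) < 2 ^ w := by
    have h1 : 2 ^ b * 2 ^ (w - b) = 2 ^ w := by rw [← pow_add]; congr 1; omega
    have h2 : 0 < 2 ^ (w - b) := Nat.pow_pos (by norm_num)
    have h3 : 0 < 2 ^ b := Nat.pow_pos (by norm_num)
    rw [← h1]
    exact Nat.mul_lt_mul_of_pos_right (by omega) h2
  intro k
  induction k with
  | zero => intro Q _ e he; omega
  | succ k ih =>
    intro Q h e he
    set M₀ := (2 ^ b - 1) * 2 ^ (w - b) with hM₀
    have hw : 0 < 2 ^ w := Nat.pow_pos (by norm_num)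
    have h1 : (Q &&& mk (2 ^ w) M₀ (k + 1)) % 2 ^ w = 0 := by rw [h, Nat.zero_mod]
    have h2 : (Q &&& mk (2 ^ w) M₀ (k + 1)) / 2 ^ w = 0 := by rw [h, Nat.zero_div]
    rw [Nat.and_mod_two_pow, mk, Nat.add_mul_mod_self_left, Nat.mod_eq_of_lt hM] at h1
    rw [Nat.and_div_two_pow, mk, Nat.add_mul_div_left _ _ hw, Nat.div_eq_of_lt hM, zero_add] at h2
    cases e with
    | zero =>
      rw [dg_zero_left]
      exact mask_digit w b hb _ (Nat.mod_lt _ hw) h1
    | succ e =>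
      rw [dg_succ]
      exact ih _ h2 e (by omega)

theorem dg_mul_small (X₀ N B : ℕ) (hNB : N * B ≤ X₀) (hN : 0 < N) : ∀ k Q : ℕ,
    (∀ e < k, dg X₀ e Q < B) → ∀ e < k, dg X₀ e (N * Q) = N * dg X₀ e Q := by
  intro k
  induction k with
  | zero => intro Q _ e he; omega
  | succ k ih =>
    intro Q h e he
    have h0 := h 0 (Nat.succ_pos k)
    rw [dg_zero_left] at h0
    have hlt : N * (Q % X₀) < X₀ := lt_of_lt_of_le (Nat.mul_lt_mul_of_pos_left h0 hN) hNB
    have hX : 0 < X₀ := by omega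
    have h1 : N * Q = N * (Q % X₀) + X₀ * (N * (Q / X₀)) := by
      conv_lhs => rw [← Nat.mod_add_div Q X₀]
      ring
    cases e with
    | zero => rw [dg_zero_left, dg_zero_left, h1, Nat.add_mul_mod_self_left, Nat.mod_eq_of_lt hlt]
    | succ e =>
      rw [dg_succ, dg_succ, h1, Nat.add_mul_div_left _ _ hX, Nat.div_eq_of_lt hlt, zero_add]
      refine ih _ (fun e he => ?_) e (by omega)
      rw [← dg_succ]
      exact h (e + 1) (by omega)

/-- the `k` lowest digits are divisible by `N` -/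
def divM (X₀ N M₀ k S : ℕ) : Bool :=
  Nat.beq (Nat.mod (Nat.mod S (Nat.pow X₀ k)) N) 0 &&
    Nat.beq (Nat.land (Nat.div (Nat.mod S (Nat.pow X₀ k)) N)
      (Nat.mul M₀ (Nat.div (Nat.sub (Nat.pow X₀ k) 1) (Nat.sub X₀ 1)))) 0

theorem divM_sound (w b N k S : ℕ) (hb : b ≤ w) (hw : 1 ≤ w) (hN : 0 < N) (hNb : N ≤ 2 ^ b)
    (h : divM (2 ^ w) N ((2 ^ b - 1) * 2 ^ (w - b)) k S = true) :
    ∀ e < k, N ∣ dg (2 ^ w) e S := by
  rw [divM, Bool.and_eq_true] at h
  obtain ⟨h1, h2⟩ := h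
  have h1' : S % (2 ^ w) ^ k % N = 0 := Nat.eq_of_beq_eq_true h1
  have h2' : (S % (2 ^ w) ^ k / N) &&&
      ((2 ^ b - 1) * 2 ^ (w - b) * (((2 ^ w) ^ k - 1) / (2 ^ w - 1))) = 0 :=
    Nat.eq_of_beq_eq_true h2
  have hX : 2 ≤ 2 ^ w := by
    calc 2 = 2 ^ 1 := by norm_num
      _ ≤ 2 ^ w := Nat.pow_le_pow_right (by norm_num) hw
  rw [← mk_eq _ _ hX] at h2'
  have h3 := mask_all w b hb k _ h2'
  have hNB : N * 2 ^ (w - b) ≤ 2 ^ w := by
    calc N * 2 ^ (w - b) ≤ 2 ^ b * 2 ^ (w - b) := Nat.mul_le_mul_right _ hNb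
      _ = 2 ^ w := by rw [← pow_add]; congr 1; omega
  have h4 := dg_mul_small (2 ^ w) N (2 ^ (w - b)) hNB hN k _ h3
  intro e he
  have h5 := h4 e he
  have h6 : N * (S % (2 ^ w) ^ k / N) = S % (2 ^ w) ^ k :=
    Nat.mul_div_cancel' (Nat.dvd_of_mod_eq_zero h1')
  rw [h6, dg_mod _ _ _ _ he] at h5
  exact ⟨_, h5⟩

/-! ### The conditions -/

/-- the lowest `k` digits agree modulo `N` -/
def lowM (X₀ N M₀ k S T : ℕ) : Bool :=
  cond (Nat.beq N 0) (Nat.beq (Nat.mod S (Nat.pow X₀ k)) (Nat.mod T (Nat.pow X₀ k)))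
    (divM X₀ N M₀ k S && divM X₀ N M₀ k T)

/-- the conditions for the rows `j, …` -/
def condM (X₀ N M₀ r m : ℕ) : List ℕ → List ℕ → Bool :=
  Nat.rec (motive := fun _ => List ℕ → List ℕ → Bool) (fun _ _ => true)
    (fun m ih R T => lowM X₀ N M₀ (Nat.mul r (Nat.succ m)) (hd R) (hd T) && ih (tl R) (tl T)) m

theorem lowM_sound (w b N k S T : ℕ) (hb : b ≤ w) (hw : 1 ≤ w) (hNb : N ≤ 2 ^ b)
    (hN : (N : K) = 0) (h : lowM (2 ^ w) N ((2 ^ b - 1) * 2 ^ (w - b)) k S T = true) (e : ℕ)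
    (he : e < k) : ((dg (2 ^ w) e S : ℕ) : K) = ((dg (2 ^ w) e T : ℕ) : K) := by
  unfold lowM at h
  cases h1 : Nat.beq N 0 with
  | true =>
    rw [h1, cond_true] at h
    have h2 : S % (2 ^ w) ^ k = T % (2 ^ w) ^ k := Nat.eq_of_beq_eq_true h
    rw [← dg_mod _ e k S he, ← dg_mod _ e k T he, h2]
  | false =>
    rw [h1, cond_false, Bool.and_eq_true] at h
    have hN0 : 0 < N := by
      rcases Nat.eq_zero_or_pos N with h0 | h0
      · subst h0
        exact absurd h1 (by decide)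
      · exact h0
    have key : ∀ U : ℕ, divM (2 ^ w) N ((2 ^ b - 1) * 2 ^ (w - b)) k U = true →
        ((dg (2 ^ w) e U : ℕ) : K) = 0 := by
      intro U hU
      obtain ⟨q, hq⟩ := divM_sound w b N k U hb hw hN0 hNb hU e he
      rw [hq, Nat.cast_mul, hN, zero_mul]
    rw [key S h.1, key T h.2]

theorem condM_sound (w b N r : ℕ) (hb : b ≤ w) (hw : 1 ≤ w) (hNb : N ≤ 2 ^ b)
    (hN : (N : K) = 0) : ∀ (m : ℕ) (R T : List ℕ),
    condM (2 ^ w) N ((2 ^ b - 1) * 2 ^ (w - b)) r m R T = true → ∀ j < m, ∀ e < r * (m - j),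
    ((dg (2 ^ w) e (R.getD j 0) : ℕ) : K) = ((dg (2 ^ w) e (T.getD j 0) : ℕ) : K) := by
  intro m
  induction m with
  | zero => intro R T _ j hj; omega
  | succ m ih =>
    intro R T h j hj e he
    change (lowM (2 ^ w) N _ (r * (m + 1)) (hd R) (hd T) &&
      condM (2 ^ w) N _ r m (tl R) (tl T)) = true at h
    rw [Bool.and_eq_true] at h
    cases j with
    | zero =>
      rw [← hd_getD, ← hd_getD]
      exact lowM_sound w b N _ _ _ hb hw hNb hN h.1 e he
    | succ j =>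
      have h1 := ih (tl R) (tl T) h.2 j (by omega) e (by
        have e1 : m + 1 - (j + 1) = m - j := by omega
        rwa [e1] at he)
      rwa [tl_getD, tl_getD] at h1

/-! ### Unpacking -/

/-- `unp` with an explicit recursor -/
def unpM (X₀ G W k : ℕ) : ℕ → ℕ :=
  Nat.rec (motive := fun _ => ℕ → ℕ) (fun _ => 0)
    (fun _ ih S => cond (Nat.beq S 0) 0
      (Nat.mul (Nat.add (Nat.div (Nat.mod S W) G) (Nat.mul X₀ (ih (Nat.div S W))))
        (Nat.pow X₀ (Nat.mod (Nat.mod S W) G)))) k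

theorem unpM_eq (X₀ G W : ℕ) : ∀ k S : ℕ, unpM X₀ G W k S = unp X₀ G W k S := by
  intro k
  induction k with
  | zero => intro S; rfl
  | succ k ih =>
    intro S
    rw [unp, ← ih]
    rfl

/-- `unB` with an explicit recursor -/
def unBM (G W k : ℕ) : ℕ → ℕ → Bool :=
  Nat.rec (motive := fun _ => ℕ → ℕ → Bool) (fun _ _ => true)
    (fun _ ih n S => cond (Nat.beq S 0) true
      (cond (Nat.blt (Nat.mod (Nat.mod S W) G) n)
        (ih (Nat.sub (Nat.sub n (Nat.mod (Nat.mod S W) G)) 1) (Nat.div S W)) false)) k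

theorem unBM_eq (G W : ℕ) : ∀ k n S : ℕ, unBM G W k n S = unB G W k n S := by
  intro k
  induction k with
  | zero => intro n S; rfl
  | succ k ih =>
    intro n S
    rw [unB, ← ih]
    rfl

/-- change of the base from `Y` to `X₀` by bisection, `2 ^ t` digits -/
def sprM (X₀ Y t : ℕ) : ℕ → ℕ :=
  Nat.rec (motive := fun _ => ℕ → ℕ) (fun S => S)
    (fun t ih S => cond (Nat.beq S 0) 0
      (Nat.add (ih (Nat.mod S (Nat.pow Y (Nat.pow 2 t))))
        (Nat.mul (Nat.pow X₀ (Nat.pow 2 t)) (ih (Nat.div S (Nat.pow Y (Nat.pow 2 t))))))) t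

theorem sprM_succ (X₀ Y t S : ℕ) : sprM X₀ Y (t + 1) S = cond (Nat.beq S 0) 0
    (sprM X₀ Y t (S % Y ^ 2 ^ t) + X₀ ^ 2 ^ t * sprM X₀ Y t (S / Y ^ 2 ^ t)) := rfl

theorem sprM_sound (X₀ Y : ℕ) (hY : 0 < Y) (hYX : Y ≤ X₀) : ∀ t S : ℕ, S < Y ^ 2 ^ t →
    (∀ e, dg X₀ e (sprM X₀ Y t S) = dg Y e S) ∧ sprM X₀ Y t S < X₀ ^ 2 ^ t := by
  intro t
  induction t with
  | zero =>
    intro S hS
    rw [pow_zero, pow_one] at hS
    have e0 : sprM X₀ Y 0 S = S := rfl
    rw [e0, pow_zero, pow_one]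
    refine ⟨fun e => ?_, by omega⟩
    cases e with
    | zero => rw [dg_zero_left, dg_zero_left, Nat.mod_eq_of_lt hS, Nat.mod_eq_of_lt (by omega)]
    | succ e =>
      rw [dg_succ, dg_succ, Nat.div_eq_of_lt hS, Nat.div_eq_of_lt (by omega), dg_zero, dg_zero]
  | succ t ih =>
    intro S hS
    rw [sprM_succ]
    cases h0 : Nat.beq S 0 with
    | true =>
      have hS0 : S = 0 := Nat.eq_of_beq_eq_true h0
      subst hS0
      rw [cond_true]
      exact ⟨fun e => by rw [dg_zero, dg_zero], Nat.pow_pos (by omega)⟩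
    | false =>
      rw [cond_false]
      have hp : 0 < Y ^ 2 ^ t := Nat.pow_pos hY
      have e2 : 2 ^ (t + 1) = 2 ^ t + 2 ^ t := by rw [pow_succ]; ring
      have hlt : S / Y ^ 2 ^ t < Y ^ 2 ^ t := by
        rw [Nat.div_lt_iff_lt_mul hp, ← pow_add, ← e2]
        exact hS
      obtain ⟨h1, h2⟩ := ih _ (Nat.mod_lt S hp)
      obtain ⟨h3, h4⟩ := ih _ hlt
      set A := sprM X₀ Y t (S % Y ^ 2 ^ t) with hA
      set B := sprM X₀ Y t (S / Y ^ 2 ^ t) with hB
      have hXp : 0 < X₀ ^ 2 ^ t := Nat.pow_pos (by omega)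
      refine ⟨fun e => ?_, ?_⟩
      · by_cases he : e < 2 ^ t
        · rw [← dg_mod X₀ e (2 ^ t) (A + X₀ ^ 2 ^ t * B) he, Nat.add_mul_mod_self_left,
            Nat.mod_eq_of_lt h2, h1, dg_mod Y e _ S he]
        · obtain ⟨e', rfl⟩ : ∃ e', e = 2 ^ t + e' := ⟨e - 2 ^ t, by omega⟩
          have key : ∀ Z U : ℕ, dg Z (2 ^ t + e') U = dg Z e' (U / Z ^ 2 ^ t) := by
            intro Z U
            unfold dg
            rw [pow_add, Nat.div_div_eq_div_mul]
          rw [key, key, Nat.add_mul_div_left _ _ hXp, Nat.div_eq_of_lt h2, zero_add, h3]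
      · rw [e2, pow_add]
        calc A + X₀ ^ 2 ^ t * B < X₀ ^ 2 ^ t + X₀ ^ 2 ^ t * B := by omega
          _ = X₀ ^ 2 ^ t * (B + 1) := by ring
          _ ≤ X₀ ^ 2 ^ t * X₀ ^ 2 ^ t := Nat.mul_le_mul_left _ h4

/-- number of digits of a sparse row, by bisection of the `2 ^ t` entries -/
def spT (G W t : ℕ) : ℕ → ℕ :=
  Nat.rec (motive := fun _ => ℕ → ℕ)
    (fun S => cond (Nat.beq S 0) 0 (Nat.succ (Nat.mod S G)))
    (fun t ih S => cond (Nat.beq S 0) 0
      (Nat.add (ih (Nat.mod S (Nat.pow W (Nat.pow 2 t))))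
        (ih (Nat.div S (Nat.pow W (Nat.pow 2 t)))))) t

/-- unpack a sparse row by bisection of the `2 ^ t` entries -/
def vT (X₀ G W t : ℕ) : ℕ → ℕ :=
  Nat.rec (motive := fun _ => ℕ → ℕ)
    (fun S => Nat.mul (Nat.div S G) (Nat.pow X₀ (Nat.mod S G)))
    (fun t ih S => cond (Nat.beq S 0) 0
      (Nat.add (ih (Nat.mod S (Nat.pow W (Nat.pow 2 t))))
        (Nat.mul (Nat.pow X₀ (spT G W t (Nat.mod S (Nat.pow W (Nat.pow 2 t)))))
          (ih (Nat.div S (Nat.pow W (Nat.pow 2 t))))))) t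

theorem spT_succ (G W t S : ℕ) : spT G W (t + 1) S = cond (Nat.beq S 0) 0
    (spT G W t (S % W ^ 2 ^ t) + spT G W t (S / W ^ 2 ^ t)) := rfl

theorem vT_succ (X₀ G W t S : ℕ) : vT X₀ G W (t + 1) S = cond (Nat.beq S 0) 0
    (vT X₀ G W t (S % W ^ 2 ^ t) +
      X₀ ^ (spT G W t (S % W ^ 2 ^ t)) * vT X₀ G W t (S / W ^ 2 ^ t)) := rfl

theorem dg_split (X₀ a e A B : ℕ) (hX : 0 < X₀) (hA : A < X₀ ^ a) :
    dg X₀ e (A + X₀ ^ a * B) = if e < a then dg X₀ e A else dg X₀ (e - a) B := by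
  have hXp : 0 < X₀ ^ a := Nat.pow_pos hX
  by_cases he : e < a
  · rw [if_pos he, ← dg_mod X₀ e a (A + X₀ ^ a * B) he, Nat.add_mul_mod_self_left,
      Nat.mod_eq_of_lt hA]
  · rw [if_neg he]
    obtain ⟨e', rfl⟩ : ∃ e', e = a + e' := ⟨e - a, by omega⟩
    have key : dg X₀ (a + e') (A + X₀ ^ a * B) = dg X₀ e' ((A + X₀ ^ a * B) / X₀ ^ a) := by
      unfold dg
      rw [pow_add, Nat.div_div_eq_div_mul]
    rw [key, Nat.add_mul_div_left _ _ hXp, Nat.div_eq_of_lt hA, zero_add, Nat.add_sub_cancel_left]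

theorem vT_sound (X₀ G V : ℕ) (hV : V ≤ X₀) (hV0 : 0 < V) (hX2 : 2 ≤ X₀) (hG : 0 < G) :
    ∀ t S : ℕ, S < (V * G) ^ 2 ^ t → (∀ e, dg X₀ e (vT X₀ G (V * G) t S) ≤ V - 1) ∧
      vT X₀ G (V * G) t S < X₀ ^ (spT G (V * G) t S) := by
  have hX0 : 0 < X₀ := by omega
  intro t
  induction t with
  | zero =>
    intro S hS
    rw [pow_zero, pow_one] at hS
    have e1 : vT X₀ G (V * G) 0 S = S / G * X₀ ^ (S % G) := rfl
    have e2 : spT G (V * G) 0 S = cond (Nat.beq S 0) 0 (S % G + 1) := rfl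
    have hv : S / G < V := by
      refine Nat.div_lt_of_lt_mul ?_
      rw [Nat.mul_comm G V]
      exact hS
    rw [e1, e2]
    refine ⟨fun e => ?_, ?_⟩
    · rw [dg_mul_pow X₀ (S / G) _ e (by omega)]
      split
      · omega
      · exact Nat.zero_le _
    · cases h0 : Nat.beq S 0 with
      | true =>
        have hS0 : S = 0 := Nat.eq_of_beq_eq_true h0
        subst hS0
        rw [cond_true, Nat.zero_div, zero_mul, pow_zero]
        exact one_pos
      | false =>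
        rw [cond_false, pow_succ, mul_comm]
        exact Nat.mul_lt_mul_of_pos_left (by omega) (Nat.pow_pos hX0)
  | succ t ih =>
    intro S hS
    rw [vT_succ, spT_succ]
    cases h0 : Nat.beq S 0 with
    | true =>
      rw [cond_true, cond_true]
      exact ⟨fun e => by rw [dg_zero]; exact Nat.zero_le _, by rw [pow_zero]; exact one_pos⟩
    | false =>
      rw [cond_false, cond_false]
      have hp : 0 < (V * G) ^ 2 ^ t := Nat.pow_pos (Nat.mul_pos hV0 hG)
      have e2 : 2 ^ (t + 1) = 2 ^ t + 2 ^ t := by rw [pow_succ]; ring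
      have hlt : S / (V * G) ^ 2 ^ t < (V * G) ^ 2 ^ t := by
        rw [Nat.div_lt_iff_lt_mul hp, ← pow_add, ← e2]
        exact hS
      obtain ⟨h1, h2⟩ := ih _ (Nat.mod_lt S hp)
      obtain ⟨h3, h4⟩ := ih _ hlt
      refine ⟨fun e => ?_, ?_⟩
      · rw [dg_split _ _ _ _ _ hX0 h2]
        split
        · exact h1 e
        · exact h3 _
      · rw [pow_add]
        set A := vT X₀ G (V * G) t (S % (V * G) ^ 2 ^ t)
        set B := vT X₀ G (V * G) t (S / (V * G) ^ 2 ^ t)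
        set P := X₀ ^ spT G (V * G) t (S % (V * G) ^ 2 ^ t)
        set Q := X₀ ^ spT G (V * G) t (S / (V * G) ^ 2 ^ t)
        calc A + P * B < P + P * B := by omega
          _ = P * (B + 1) := by ring
          _ ≤ P * Q := Nat.mul_le_mul_left _ h4

/-- unpack a row: dense in base `V` if `G = 0`, otherwise sparse, by bisection if `t ≠ 0` -/
def decM (X₀ G V W t n a : ℕ) : ℕ := cond (Nat.beq G 0) (sprM X₀ V t a)
  (cond (Nat.beq t 0) (unpM X₀ G W n a) (vT X₀ G W t a))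

/-- validity of a row -/
def rokM (G V W t n a : ℕ) : Bool :=
  cond (Nat.beq G 0) (Nat.blt a (Nat.pow V n) && Nat.ble n (Nat.pow 2 t))
    (cond (Nat.beq t 0) (unBM G W n n a)
      (Nat.blt a (Nat.pow W (Nat.pow 2 t)) && Nat.ble (spT G W t a) n))

theorem decM_sound (X₀ G V W t n a : ℕ) (hW : W = V * G) (hV : V ≤ X₀) (hV0 : 0 < V)
    (hX2 : 2 ≤ X₀) (h : rokM G V W t n a = true) :
    (∀ e, dg X₀ e (decM X₀ G V W t n a) ≤ V - 1) ∧
      ∀ e, n ≤ e → dg X₀ e (decM X₀ G V W t n a) = 0 := by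
  unfold rokM at h
  unfold decM
  cases h0 : Nat.beq G 0 with
  | false =>
    rw [h0, cond_false] at h
    rw [cond_false]
    subst hW
    cases ht : Nat.beq t 0 with
    | true =>
      rw [ht, cond_true, unBM_eq] at h
      rw [cond_true, unpM_eq]
      exact dg_unp X₀ G V hV hV0 n n a h
    | false =>
      rw [ht, cond_false, Bool.and_eq_true] at h
      rw [cond_false]
      have h1 : a < (V * G) ^ 2 ^ t := Nat.le_of_ble_eq_true h.1
      have h2 : spT G (V * G) t a ≤ n := Nat.le_of_ble_eq_true h.2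
      have hG : 0 < G := by
        rcases Nat.eq_zero_or_pos G with h3 | h3
        · subst h3
          exact absurd h0 (by decide)
        · exact h3
      obtain ⟨h3, h4⟩ := vT_sound X₀ G V hV hV0 hX2 hG t a h1
      refine ⟨h3, fun e he => ?_⟩
      unfold dg
      rw [Nat.div_eq_of_lt (lt_of_lt_of_le h4 (Nat.pow_le_pow_right (by omega) (by omega))),
        Nat.zero_mod]
  | true =>
    rw [h0, cond_true, Bool.and_eq_true] at h
    rw [cond_true]
    have h1 : a < V ^ n := Nat.le_of_ble_eq_true h.1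
    have h2 : n ≤ 2 ^ t := Nat.le_of_ble_eq_true h.2
    obtain ⟨h3, _⟩ := sprM_sound X₀ V hV0 hV t a
      (lt_of_lt_of_le h1 (Nat.pow_le_pow_right hV0 h2))
    refine ⟨fun e => ?_, fun e he => ?_⟩
    · rw [h3]
      have := Nat.mod_lt (a / V ^ e) hV0
      unfold dg
      omega
    · rw [h3]
      unfold dg
      rw [Nat.div_eq_of_lt (lt_of_lt_of_le h1 (Nat.pow_le_pow_right hV0 he)), Nat.zero_mod]

/-- the rows -/
def pkM (X₀ G V W t : ℕ) (l : List ℕ) : List ℕ → List ℕ :=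
  List.rec (motive := fun _ => List ℕ → List ℕ) (fun _ => [])
    (fun n _ ih u => List.rec (motive := fun _ => List ℕ) []
      (fun a v _ => decM X₀ G V W t n a :: ih v) u) l

/-- validity of the rows -/
def okM (G V W t : ℕ) (l : List ℕ) : List ℕ → Bool :=
  List.rec (motive := fun _ => List ℕ → Bool) (fun _ => true)
    (fun n _ ih u => List.rec (motive := fun _ => Bool) true
      (fun a v _ => rokM G V W t n a && ih v) u) l

theorem okM_sound (X₀ G V W t : ℕ) (hW : W = V * G) (hV : V ≤ X₀) (hV0 : 0 < V)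
    (hX2 : 2 ≤ X₀) :
    ∀ l u : List ℕ, okM G V W t l u = true →
      (pkM X₀ G V W t l u).length ≤ l.length ∧ ∀ i,
      (∀ e, dg X₀ e ((pkM X₀ G V W t l u).getD i 0) ≤ V - 1) ∧
      ∀ e, fn l i ≤ e → dg X₀ e ((pkM X₀ G V W t l u).getD i 0) = 0 := by
  have hnil : ∀ (l : List ℕ) (i : ℕ), (∀ e, dg X₀ e (([] : List ℕ).getD i 0) ≤ V - 1) ∧
      ∀ e, fn l i ≤ e → dg X₀ e (([] : List ℕ).getD i 0) = 0 := by
    intro l i
    rw [List.getD_nil]
    exact ⟨fun e => by rw [dg_zero]; exact Nat.zero_le _, fun e _ => dg_zero X₀ e⟩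
  intro l
  induction l with
  | nil =>
    intro u _
    exact ⟨le_rfl, hnil _⟩
  | cons n l ih =>
    intro u h
    cases u with
    | nil => exact ⟨Nat.zero_le _, hnil _⟩
    | cons a v =>
      change (rokM G V W t n a && okM G V W t l v) = true at h
      have e0 : pkM X₀ G V W t (n :: l) (a :: v) = decM X₀ G V W t n a :: pkM X₀ G V W t l v := rfl
      rw [Bool.and_eq_true] at h
      rw [e0]
      obtain ⟨h1, h2⟩ := ih v h.2
      refine ⟨by rw [List.length_cons, List.length_cons]; omega, fun i => ?_⟩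
      cases i with
      | zero =>
        have h3 := decM_sound X₀ G V W t n a hW hV hV0 hX2 h.1
        rw [fn_cons_zero]
        exact h3
      | succ i =>
        rw [fn_cons_succ]
        exact h2 i

/-! ### The whole check -/

/-- from packed numbers to the hypothesis of the criterion -/
theorem hypx_of_digitsM (X₀ B D r m : ℕ) (es l : List ℕ) (c : ℕ) (hc : c < l.length)
    (hX2 : 2 ≤ X₀) (hb : B * (es.length + 1) ^ l.length < X₀)
    (hDK : (D : K) ≠ 0) (Lp Lm : List ℕ) (hlp : Lp.length ≤ l.length)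
    (hlm : Lm.length ≤ l.length) (hbp : ∀ i e, dg X₀ e (Lp.getD i 0) ≤ B)
    (hbm : ∀ i e, dg X₀ e (Lm.getD i 0) ≤ B)
    (htp : ∀ i e, fn l i ≤ e → dg X₀ e (Lp.getD i 0) = if i = c ∧ e = fn l i then D else 0)
    (htm : ∀ i e, fn l i ≤ e → dg X₀ e (Lm.getD i 0) = 0)
    (hcond : ∀ j < m, ∀ e < r * (m - j), ((dg X₀ e ((hor X₀ es Lp).getD j 0) : ℕ) : K) =
      ((dg X₀ e ((hor X₀ es Lm).getD j 0) : ℕ) : K)) :
    ∃ P : K[X][X], taylor (germ K es) P ∈ cond K r m ∧
      P - C (X ^ fn l c) * X ^ c ∈ rows K (fn l) := by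
  have hX0 : 0 < X₀ := by omega
  have hpos : 0 < es.length + 1 := Nat.succ_pos _
  have hpw : ∀ k ≤ l.length, B * (es.length + 1) ^ k < X₀ := fun k hk =>
    lt_of_le_of_lt (Nat.mul_le_mul_left _ (Nat.pow_le_pow_right hpos hk)) hb
  obtain ⟨P, hP, _⟩ := repL_exists (K := K) X₀ B hX2 Lp hbp
  obtain ⟨Q, hQ, _⟩ := repL_exists (K := K) X₀ B hX2 Lm hbm
  have hTP := repL_hor (es := es) hX0 Lp P hP (hpw _ hlp)
  have hTQ := repL_hor (es := es) hX0 Lm Q hQ (hpw _ hlm)
  refine ⟨(D : K)⁻¹ • (P - Q), ?_, ?_⟩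
  · intro j hj
    have h8 : taylor (germ K es) ((D : K)⁻¹ • (P - Q)) =
        (D : K)⁻¹ • (taylor (germ K es) P - taylor (germ K es) Q) := by
      rw [← map_sub]
      exact ((taylor (germ K es)).restrictScalars K).map_smul _ _
    rw [h8, coeff_smul, coeff_sub]
    refine dvd_smul_of_dvd _ ?_
    rw [X_pow_dvd_iff]
    intro e he
    rw [coeff_sub, (hTP j e).1, (hTQ j e).1, hcond j hj e he, sub_self]
  · intro i
    rw [mem_degreeLT, degree_lt_iff_coeff_zero]
    intro e he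
    rw [coeff_sub, coeff_smul, coeff_sub, coeff_sub, coeff_smul, coeff_sub, (hP i e).1,
      (hQ i e).1, htp i e he, htm i e he, coeff_C_mul_X_pow]
    by_cases hic : i = c
    · subst hic
      rw [if_pos rfl, coeff_X_pow]
      by_cases he2 : e = fn l i
      · rw [if_pos ⟨rfl, he2⟩, if_pos he2, Nat.cast_zero, sub_zero, smul_eq_mul,
          inv_mul_cancel₀ hDK, sub_self]
      · rw [if_neg (fun h => he2 h.2), if_neg he2, Nat.cast_zero, sub_self, smul_zero, sub_self]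
    · rw [if_neg (fun h => hic h.1), if_neg hic, coeff_zero, Nat.cast_zero, sub_self, smul_zero,
        sub_self]

/-- one certificate: for the row `c` -/
def oneM (X₀ G V W N M₀ Gm D r m t : ℕ) (l : List ℕ) (c : ℕ) (tp tm : List ℕ) : Bool :=
  okM G V W t l tp && (okM G V W t l tm &&
    condM X₀ N M₀ r m
      (horM Gm (addAt (pkM X₀ G V W t l tp) c (Nat.mul D (Nat.pow X₀ (fn l c)))))
      (horM Gm (pkM X₀ G V W t l tm)))

/-- a list of certificates for the rows `c, c + 1, …` -/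
def allM (X₀ G V W N M₀ Gm D₀ r m t : ℕ) (l : List ℕ) : ℕ → List (ℕ × List ℕ × List ℕ) → Bool
  | _, [] => true
  | c, (D, tp, tm) :: u => (Nat.beq (Nat.mod D₀ D) 0 && (Nat.ble D D₀ &&
      oneM X₀ G V W N M₀ Gm D r m t l c tp tm)) && allM X₀ G V W N M₀ Gm D₀ r m t l (c + 1) u

theorem allM_sound (X₀ G V W N M₀ Gm D₀ r m t : ℕ) (l : List ℕ) :
    ∀ (L : List (ℕ × List ℕ × List ℕ)) (c : ℕ),
    allM X₀ G V W N M₀ Gm D₀ r m t l c L = true → ∀ i < L.length, ∃ D tp tm, D ∣ D₀ ∧ D ≤ D₀ ∧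
      oneM X₀ G V W N M₀ Gm D r m t l (c + i) tp tm = true := by
  intro L
  induction L with
  | nil => intro c _ i hi; simp at hi
  | cons a u ih =>
    obtain ⟨D, tp, tm⟩ := a
    intro c h i hi
    rw [allM, Bool.and_eq_true, Bool.and_eq_true, Bool.and_eq_true] at h
    obtain ⟨⟨h1, h1', h2⟩, h3⟩ := h
    cases i with
    | zero =>
      exact ⟨D, tp, tm, Nat.dvd_of_mod_eq_zero (Nat.eq_of_beq_eq_true h1),
        Nat.le_of_ble_eq_true h1', h2⟩
    | succ i =>
      have h4 := ih (c + 1) h3 i (by simpa using hi)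
      have e : c + 1 + i = c + (i + 1) := by ring
      rwa [e] at h4

/-- The whole check.  `X₀ = 2 ^ w`; `V` is a strict bound for the values, `G` for the gaps
(`G = 0`: dense form, base `V`), `W = V G`; `b` is the number of mask bits, `M₀` the mask of one
digit, `Gm` the packed germ. -/
def etaM (w b X₀ G V W N M₀ Gm D₀ r m t : ℕ) (es l : List ℕ) (L : List (ℕ × List ℕ × List ℕ)) :
    Bool :=
  (Nat.beq X₀ (2 ^ w) && (Nat.beq M₀ ((2 ^ b - 1) * 2 ^ (w - b)) && (Nat.ble b w &&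
    (Nat.ble 1 w && (Nat.ble N (2 ^ b) && (Nat.beq Gm (mulg X₀ 1 es) &&
  (Nat.beq W (V * G) && (Nat.blt 0 V && (Nat.ble m l.length && (Nat.beq L.length l.length &&
    (Nat.beq (sumL l) (r * ((m + 1) * m / 2)) &&
    Nat.blt ((V - 1 + D₀) * (es.length + 1) ^ l.length) X₀))))))))))) &&
  allM X₀ G V W N M₀ Gm D₀ r m t l 0 L

/-- **The certificate theorem**, one polynomial per row, fast form. -/
theorem good_of_etaM (w b X₀ G V W N M₀ Gm D₀ r m t : ℕ) (es l : List ℕ)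
    (L : List (ℕ × List ℕ × List ℕ))
    (h : etaM w b X₀ G V W N M₀ Gm D₀ r m t es l L = true) (hN : (N : K) = 0)
    (hD₀ : (D₀ : K) ≠ 0) : Good K r m (fn l) (∑ c ∈ Finset.range l.length, fn l c) := by
  rw [etaM] at h
  simp only [Bool.and_eq_true] at h
  obtain ⟨⟨a1, a2, a3, a4, a5, a6, h1, h2, h3, h4, h5, h6⟩, h7⟩ := h
  have hX : X₀ = 2 ^ w := Nat.eq_of_beq_eq_true a1
  have hM₀ : M₀ = (2 ^ b - 1) * 2 ^ (w - b) := Nat.eq_of_beq_eq_true a2
  have hbw : b ≤ w := Nat.le_of_ble_eq_true a3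
  have hw1 : 1 ≤ w := Nat.le_of_ble_eq_true a4
  have hNb : N ≤ 2 ^ b := Nat.le_of_ble_eq_true a5
  have hGm : Gm = mulg X₀ 1 es := Nat.eq_of_beq_eq_true a6
  have hW : W = V * G := Nat.eq_of_beq_eq_true h1
  have hV0 : 0 < V := Nat.le_of_ble_eq_true h2
  have hm : m ≤ l.length := Nat.le_of_ble_eq_true h3
  have hL : L.length = l.length := Nat.eq_of_beq_eq_true h4
  have hsum : sumL l = r * ((m + 1) * m / 2) := Nat.eq_of_beq_eq_true h5
  have hb : (V - 1 + D₀) * (es.length + 1) ^ l.length < X₀ := Nat.le_of_ble_eq_true h6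
  have hD₁ : 1 ≤ D₀ := by
    rcases Nat.eq_zero_or_pos D₀ with h0 | h0
    · rw [h0, Nat.cast_zero] at hD₀
      exact absurd rfl hD₀
    · exact h0
  have hpow : 1 ≤ (es.length + 1) ^ l.length := Nat.one_le_pow _ _ (Nat.succ_pos _)
  have hb1 : V - 1 + D₀ ≤ (V - 1 + D₀) * (es.length + 1) ^ l.length :=
    Nat.le_mul_of_pos_right _ hpow
  have hX2 : 2 ≤ X₀ := by omega
  have hX0 : 0 < X₀ := by omega
  have hVX : V ≤ X₀ := by omega
  have e1 : (m + 1) * m / 2 = (m + 1).choose 2 := by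
    rw [Nat.choose_two_right]
    rfl
  rw [← sumL_eq, hsum, e1]
  have hlast : ∀ c, l.length ≤ c → fn l c = 0 := fn_of_le l
  refine Pool.Agent.Helper54.FM.good_of_hypx (germ K es) hm hlast fun c hc => ?_
  obtain ⟨D, tp, tm, hDD, hDle, hone⟩ := allM_sound X₀ G V W N M₀ Gm D₀ r m t l L 0 h7 c
    (by omega)
  rw [Nat.zero_add] at hone
  have hDK : (D : K) ≠ 0 := by
    intro h0
    obtain ⟨k, hk⟩ := hDD
    rw [hk, Nat.cast_mul, h0, zero_mul] at hD₀
    exact hD₀ rfl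
  rw [oneM, Bool.and_eq_true, Bool.and_eq_true] at hone
  obtain ⟨ho1, ho2, ho3⟩ := hone
  rw [hGm, horM_eq, horM_eq] at ho3
  obtain ⟨h8, h9⟩ := okM_sound X₀ G V W t hW hVX hV0 hX2 l tp ho1
  obtain ⟨h10, h11⟩ := okM_sound X₀ G V W t hW hVX hV0 hX2 l tm ho2
  have hdp : ∀ i e, dg X₀ e ((addAt (pkM X₀ G V W t l tp) c (D * X₀ ^ fn l c)).getD i 0) =
      dg X₀ e ((pkM X₀ G V W t l tp).getD i 0) + if i = c ∧ e = fn l c then D else 0 := by
    intro i e
    rw [getD_addAt]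
    by_cases hic : i = c
    · rw [if_pos hic]
      rw [dg_add X₀ (V - 1) D (by omega) e _ _ (h9 i).1 (fun e => by
        rw [dg_mul_pow X₀ D _ e (by omega)]
        split
        · exact le_rfl
        · exact Nat.zero_le _), dg_mul_pow X₀ D _ e (by omega)]
      by_cases he : e = fn l c
      · rw [if_pos he, if_pos ⟨hic, he⟩]
      · rw [if_neg he, if_neg (fun h => he h.2)]
    · rw [if_neg hic, if_neg (fun h => hic h.1), add_zero, add_zero]
  refine hypx_of_digitsM X₀ (V - 1 + D₀) D r m es l c hc hX2 hb hDK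
    (addAt (pkM X₀ G V W t l tp) c (D * X₀ ^ fn l c)) (pkM X₀ G V W t l tm)
    (length_addAt c _ _ _ h8 hc) h10 ?_ ?_ ?_ ?_ ?_
  · intro i e
    rw [hdp]
    have := (h9 i).1 e
    split <;> omega
  · intro i e
    have := (h11 i).1 e
    omega
  · intro i e he
    rw [hdp, (h9 i).2 e he, zero_add]
    by_cases hic : i = c
    · subst hic; rfl
    · rw [if_neg (fun h => hic h.1), if_neg (fun h => hic h.1)]
  · intro i e he
    exact (h11 i).2 e he
  · rw [hX, hM₀] at ho3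
    rw [hX]
    exact condM_sound w b N r hbw hw1 hNb hN m _ _ ho3

/-! ### The moves, starting from a strip -/

/-- the check of the moves for a case -/
def pathM (r m d a k : ℕ) (M : List Mv) (l : List ℕ) : Bool :=
  (Nat.blt 0 a && Nat.blt d (a * k)) && (runB M (stripL a k (d + 1)) &&
    (leL l (endL M (stripL a k (d + 1))) &&
    Nat.ble (mn ((d + 2) * (d + 1) / 2) (r * ((m + 1) * m / 2))) (sumL l)))

theorem case_of_pathM [Infinite K] (r m d a k : ℕ) (M : List Mv) (l : List ℕ)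
    (h : pathM r m d a k M l = true)
    (hg : Good K r m (fn l) (∑ c ∈ Finset.range l.length, fn l c)) : Case K r m d := by
  rw [pathM, Bool.and_eq_true, Bool.and_eq_true, Bool.and_eq_true, Bool.and_eq_true] at h
  obtain ⟨⟨ha, hk⟩, h1, h2, h3⟩ := h
  have ha' : 0 < a := Nat.le_of_ble_eq_true ha
  have hk' : d < a * k := Nat.le_of_ble_eq_true hk
  rw [← sumL_eq] at hg
  have h4 : Good K r m (fn l) (mn ((d + 2) * (d + 1) / 2) (r * ((m + 1) * m / 2))) :=
    hg.le (Nat.le_of_ble_eq_true h3)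
  have h5 := h4.mono (leL_sound _ _ h2)
  have e : fn (stripL a k (d + 1)) = strip a d := fn_stripL_zero a d k (by omega)
  have h6 := runB_sound (K := K) r m _ M _ (by rw [e]; exact strip_antitone a d) h1 h5
  rw [e] at h6
  have h7 := start a d ha' h6
  unfold Case
  have e1 : (d + 2) * (d + 1) / 2 = (d + 2).choose 2 := by
    rw [Nat.choose_two_right]
    rfl
  have e2 : (m + 1) * m / 2 = (m + 1).choose 2 := by
    rw [Nat.choose_two_right]
    rfl
  rw [mn_eq, e1, e2] at h7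
  exact h7

end Pool.Agent.Helper22.E6
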