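import Pool.Agent.Helper22.E6.EtaX

set_option autoImplicit false

/-! # Germ certificates in sparse form (helper22), MP_e6aa12_ag

As `EtaX`, but the polynomials are given by their nonzero coefficients: a polynomial in `x` is a
sequence of pairs (gap, value), packed in one number. -/

open Polynomial

namespace Pool.Agent.Helper22.E6

open Pool.Agent.Helper41.Fat

variable {K : Type*} [Field K]

/-- unpack a sparse polynomial: the entries (base `W = V G`) are `value * G + gap` -/
def unp (X₀ G W : ℕ) : ℕ → ℕ → ℕ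
  | 0, _ => 0
  | k + 1, S => cond (Nat.beq S 0) 0
      (Nat.mul (Nat.add (Nat.div (Nat.mod S W) G) (Nat.mul X₀ (unp X₀ G W k (Nat.div S W))))
        (Nat.pow X₀ (Nat.mod (Nat.mod S W) G)))

/-- all positions less than `n` -/
def unB (G W : ℕ) : ℕ → ℕ → ℕ → Bool
  | 0, _, _ => true
  | k + 1, n, S => cond (Nat.beq S 0) true
      (cond (Nat.blt (Nat.mod (Nat.mod S W) G) n)
        (unB G W k (Nat.sub (Nat.sub n (Nat.mod (Nat.mod S W) G)) 1) (Nat.div S W)) false)

theorem dg_unp (X₀ G V : ℕ) (hV : V ≤ X₀) (hV0 : 0 < V) : ∀ k n S : ℕ,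
    unB G (V * G) k n S = true → (∀ e, dg X₀ e (unp X₀ G (V * G) k S) ≤ V - 1) ∧
      ∀ e, n ≤ e → dg X₀ e (unp X₀ G (V * G) k S) = 0 := by
  intro k
  induction k with
  | zero =>
    intro n S _
    exact ⟨fun e => by rw [unp, dg_zero]; exact Nat.zero_le _, fun e _ => dg_zero X₀ e⟩
  | succ k ih =>
    intro n S h
    rw [unB] at h
    cases h0 : Nat.beq S 0 with
    | true =>
      rw [unp, h0, cond_true]
      exact ⟨fun e => by rw [dg_zero]; exact Nat.zero_le _, fun e _ => dg_zero X₀ e⟩
    | false =>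
      rw [h0, cond_false] at h
      cases h1 : Nat.blt (Nat.mod (Nat.mod S (V * G)) G) n with
      | false => rw [h1, cond_false] at h; exact absurd h (by decide)
      | true =>
        rw [h1, cond_true] at h
        have h2 : S % (V * G) % G < n := Nat.le_of_ble_eq_true h1
        obtain ⟨h4, h5⟩ := ih _ _ h
        have hX : 0 < X₀ := by omega
        have hv : S % (V * G) / G < V := by
          rcases Nat.eq_zero_or_pos G with hG | hG
          · rw [hG, Nat.div_zero]
            exact hV0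
          · refine Nat.div_lt_of_lt_mul ?_
            rw [Nat.mul_comm G V]
            exact Nat.mod_lt _ (Nat.mul_pos hV0 hG)
        set g := S % (V * G) % G with hg
        set v := S % (V * G) / G with hvv
        set s := unp X₀ G (V * G) k (S / (V * G)) with hs
        have key : ∀ e, dg X₀ e (unp X₀ G (V * G) (k + 1) S) = if e < g then 0 else
            if e = g then v else dg X₀ (e - g - 1) s := by
          intro e
          have e0 : unp X₀ G (V * G) (k + 1) S = (v + X₀ * s) * X₀ ^ g := by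
            rw [unp, h0, cond_false]
            rfl
          rw [e0, dg_shift _ _ _ hX]
          by_cases he : e < g
          · rw [if_pos he, if_pos he]
          · rw [if_neg he, if_neg he]
            by_cases he2 : e = g
            · rw [if_pos he2, he2, Nat.sub_self, dg_zero_left, Nat.add_mul_mod_self_left,
                Nat.mod_eq_of_lt (by omega)]
            · rw [if_neg he2]
              obtain ⟨e', he'⟩ : ∃ e', e - g = e' + 1 := ⟨e - g - 1, by omega⟩
              rw [he', dg_succ, Nat.add_mul_div_left _ _ hX, Nat.div_eq_of_lt (by omega),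
                zero_add]
              rfl
        refine ⟨fun e => ?_, fun e he => ?_⟩
        · rw [key]
          split
          · exact Nat.zero_le _
          · split
            · omega
            · exact h4 _
        · rw [key, if_neg (by omega), if_neg (by omega)]
          refine h5 _ ?_
          change n - g - 1 ≤ e - g - 1
          omega

/-- the rows -/
def pkL (X₀ G W : ℕ) : List ℕ → List ℕ → List ℕ
  | _, [] => []
  | [], _ :: _ => []
  | n :: l, a :: t => unp X₀ G W n a :: pkL X₀ G W l t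

/-- validity of the rows -/
def okL (G W : ℕ) : List ℕ → List ℕ → Bool
  | _, [] => true
  | [], _ :: _ => true
  | n :: l, a :: t => unB G W n n a && okL G W l t

theorem okL_sound (X₀ G V : ℕ) (hV : V ≤ X₀) (hV0 : 0 < V) : ∀ l t : List ℕ,
    okL G (V * G) l t = true → (pkL X₀ G (V * G) l t).length ≤ l.length ∧ ∀ i,
      (∀ e, dg X₀ e ((pkL X₀ G (V * G) l t).getD i 0) ≤ V - 1) ∧
      ∀ e, fn l i ≤ e → dg X₀ e ((pkL X₀ G (V * G) l t).getD i 0) = 0 := by
  have hnil : ∀ (l : List ℕ) (i : ℕ), (∀ e, dg X₀ e (([] : List ℕ).getD i 0) ≤ V - 1) ∧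
      ∀ e, fn l i ≤ e → dg X₀ e (([] : List ℕ).getD i 0) = 0 := by
    intro l i
    rw [List.getD_nil]
    exact ⟨fun e => by rw [dg_zero]; exact Nat.zero_le _, fun e _ => dg_zero X₀ e⟩
  intro l
  induction l with
  | nil =>
    intro t _
    cases t with
    | nil => exact ⟨le_rfl, hnil _⟩
    | cons a t => exact ⟨le_rfl, hnil _⟩
  | cons n l ih =>
    intro t h
    cases t with
    | nil => exact ⟨Nat.zero_le _, hnil _⟩
    | cons a t =>
      rw [okL, Bool.and_eq_true] at h
      obtain ⟨h1, h2⟩ := ih t h.2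
      refine ⟨by rw [pkL, List.length_cons, List.length_cons]; omega, fun i => ?_⟩
      cases i with
      | zero =>
        have h3 := dg_unp X₀ G V hV hV0 n n a h.1
        have e1 : (pkL X₀ G (V * G) (n :: l) (a :: t)).getD 0 0 = unp X₀ G (V * G) n a := rfl
        rw [e1, fn_cons_zero]
        exact h3
      | succ i =>
        have e1 : (pkL X₀ G (V * G) (n :: l) (a :: t)).getD (i + 1) 0 =
          (pkL X₀ G (V * G) l t).getD i 0 := rfl
        rw [e1, fn_cons_succ]
        exact h2 i

/-- add `v` to the entry number `k` -/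
def addAt : List ℕ → ℕ → ℕ → List ℕ
  | [], 0, v => [v]
  | [], k + 1, v => 0 :: addAt [] k v
  | a :: t, 0, v => Nat.add a v :: t
  | a :: t, k + 1, v => a :: addAt t k v

theorem getD_addAt : ∀ (k : ℕ) (L : List ℕ) (v i : ℕ),
    (addAt L k v).getD i 0 = L.getD i 0 + if i = k then v else 0 := by
  intro k
  induction k with
  | zero =>
    intro L v i
    cases L with
    | nil =>
      cases i with
      | zero => simp [addAt]
      | succ i => simp [addAt]
    | cons a t =>
      cases i with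
      | zero =>
        rw [if_pos rfl]
        rfl
      | succ i =>
        rw [if_neg (Nat.succ_ne_zero i)]
        rfl
  | succ k ih =>
    intro L v i
    cases L with
    | nil =>
      cases i with
      | zero => simp [addAt]
      | succ i =>
        have e1 : (addAt [] (k + 1) v).getD (i + 1) 0 = (addAt [] k v).getD i 0 := rfl
        rw [e1, ih, List.getD_nil, List.getD_nil]
        by_cases h : i = k
        · rw [if_pos h, if_pos (congrArg Nat.succ h)]
        · rw [if_neg h, if_neg (fun h' => h (Nat.succ_injective h'))]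
    | cons a t =>
      cases i with
      | zero =>
        rw [if_neg (Nat.succ_ne_zero k).symm]
        rfl
      | succ i =>
        have e1 : (addAt (a :: t) (k + 1) v).getD (i + 1) 0 = (addAt t k v).getD i 0 := rfl
        have e2 : (a :: t).getD (i + 1) 0 = t.getD i 0 := rfl
        rw [e1, ih, e2]
        by_cases h : i = k
        · rw [if_pos h, if_pos (congrArg Nat.succ h)]
        · rw [if_neg h, if_neg (fun h' => h (Nat.succ_injective h'))]

theorem length_addAt : ∀ (k : ℕ) (L : List ℕ) (v n : ℕ), L.length ≤ n → k < n →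
    (addAt L k v).length ≤ n := by
  intro k
  induction k with
  | zero =>
    intro L v n hL hk
    cases L with
    | nil =>
      rw [addAt]
      exact hk
    | cons a t => simpa [addAt] using hL
  | succ k ih =>
    intro L v n hL hk
    obtain ⟨n, rfl⟩ : ∃ n', n = n' + 1 := ⟨n - 1, by omega⟩
    cases L with
    | nil =>
      rw [addAt, List.length_cons]
      exact Nat.succ_le_succ (ih [] v n (Nat.zero_le _) (by omega))
    | cons a t =>
      rw [addAt, List.length_cons]
      rw [List.length_cons] at hL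
      exact Nat.succ_le_succ (ih t v n (by omega) (by omega))

/-- the digits number `0, …, 2 ^ t - 1` agree modulo `N`, by bisection -/
def digD (X₀ N : ℕ) : ℕ → ℕ → ℕ → Bool
  | 0, S, T => Nat.beq (Nat.mod (Nat.mod S X₀) N) (Nat.mod (Nat.mod T X₀) N)
  | t + 1, S, T => cond (Nat.beq S T) true
      (cond (digD X₀ N t (Nat.mod S (Nat.pow X₀ (Nat.pow 2 t)))
          (Nat.mod T (Nat.pow X₀ (Nat.pow 2 t))))
        (digD X₀ N t (Nat.div S (Nat.pow X₀ (Nat.pow 2 t)))
          (Nat.div T (Nat.pow X₀ (Nat.pow 2 t)))) false)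

theorem digD_sound (X₀ N : ℕ) : ∀ t S T : ℕ, digD X₀ N t S T = true → ∀ e < 2 ^ t,
    dg X₀ e S % N = dg X₀ e T % N := by
  intro t
  induction t with
  | zero =>
    intro S T h e he
    obtain rfl : e = 0 := by omega
    rw [dg_zero_left, dg_zero_left]
    exact Nat.eq_of_beq_eq_true h
  | succ t ih =>
    intro S T h e he
    rw [digD] at h
    cases h0 : Nat.beq S T with
    | true => rw [Nat.eq_of_beq_eq_true h0]
    | false =>
      rw [h0, cond_false] at h
      cases h1 : digD X₀ N t (Nat.mod S (Nat.pow X₀ (Nat.pow 2 t)))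
          (Nat.mod T (Nat.pow X₀ (Nat.pow 2 t))) with
      | false => rw [h1, cond_false] at h; exact absurd h (by decide)
      | true =>
        rw [h1, cond_true] at h
        by_cases he2 : e < 2 ^ t
        · have h2 := ih _ _ h1 e he2
          change dg X₀ e (S % X₀ ^ 2 ^ t) % N = dg X₀ e (T % X₀ ^ 2 ^ t) % N at h2
          rwa [dg_mod X₀ e _ S he2, dg_mod X₀ e _ T he2] at h2
        · have h3 : 2 ^ (t + 1) = 2 ^ t + 2 ^ t := by rw [pow_succ]; ring
          have h2 := ih _ _ h (e - 2 ^ t) (by omega)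
          have h4 : ∀ U : ℕ, dg X₀ (e - 2 ^ t) (U / X₀ ^ 2 ^ t) = dg X₀ e U := by
            intro U
            unfold dg
            rw [Nat.div_div_eq_div_mul, ← pow_add]
            congr 3
            omega
          change dg X₀ (e - 2 ^ t) (S / X₀ ^ 2 ^ t) % N = dg X₀ (e - 2 ^ t) (T / X₀ ^ 2 ^ t) % N
            at h2
          rwa [h4, h4] at h2

/-- the lowest `k` digits agree modulo `N` -/
def lowD (X₀ N t k S T : ℕ) : Bool :=
  cond (Nat.beq N 0) (Nat.beq (Nat.mod S (Nat.pow X₀ k)) (Nat.mod T (Nat.pow X₀ k)))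
    (digD X₀ N t (Nat.mod S (Nat.pow X₀ k)) (Nat.mod T (Nat.pow X₀ k)))

theorem lowD_sound (X₀ N t k S T : ℕ) (hN : (N : K) = 0) (hk : k ≤ 2 ^ t)
    (h : lowD X₀ N t k S T = true) (e : ℕ) (he : e < k) :
    ((dg X₀ e S : ℕ) : K) = ((dg X₀ e T : ℕ) : K) := by
  unfold lowD at h
  cases h1 : Nat.beq N 0 with
  | true =>
    rw [h1, cond_true] at h
    have h2 : S % X₀ ^ k = T % X₀ ^ k := Nat.eq_of_beq_eq_true h
    rw [← dg_mod X₀ e k S he, ← dg_mod X₀ e k T he, h2]
  | false =>
    rw [h1, cond_false] at h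
    have h2 := digD_sound X₀ N t _ _ h e (by omega)
    change dg X₀ e (S % X₀ ^ k) % N = dg X₀ e (T % X₀ ^ k) % N at h2
    rw [dg_mod X₀ e k S he, dg_mod X₀ e k T he] at h2
    exact cast_eq_of_mod N _ _ hN h2

/-- the check of the conditions for the rows `j, …` -/
def condD (X₀ N t r : ℕ) : ℕ → List ℕ → List ℕ → Bool
  | 0, _, _ => true
  | m + 1, R, T => lowD X₀ N t (Nat.mul r (Nat.succ m)) (hd R) (hd T) &&
      condD X₀ N t r m (tl R) (tl T)

theorem condD_sound (X₀ N t r : ℕ) (hN : (N : K) = 0) : ∀ (m : ℕ) (R T : List ℕ),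
    r * m ≤ 2 ^ t → condD X₀ N t r m R T = true → ∀ j < m, ∀ e < r * (m - j),
    ((dg X₀ e (R.getD j 0) : ℕ) : K) = ((dg X₀ e (T.getD j 0) : ℕ) : K) := by
  intro m
  induction m with
  | zero => intro R T _ _ j hj; omega
  | succ m ih =>
    intro R T hrm h j hj e he
    rw [condD, Bool.and_eq_true] at h
    have hrm' : r * m ≤ 2 ^ t := le_trans (Nat.mul_le_mul_left r (Nat.le_succ m)) hrm
    cases j with
    | zero =>
      rw [← hd_getD, ← hd_getD]
      exact lowD_sound X₀ N t _ _ _ hN hrm h.1 e he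
    | succ j =>
      have h1 := ih (tl R) (tl T) hrm' h.2 j (by omega) e (by
        have e1 : m + 1 - (j + 1) = m - j := by omega
        rwa [e1] at he)
      rwa [tl_getD, tl_getD] at h1

/-- from packed numbers to the hypothesis of the criterion -/
theorem hypx_of_digits (X₀ B N D r m t : ℕ) (es l : List ℕ) (c : ℕ) (hc : c < l.length)
    (hrm : r * m ≤ 2 ^ t)
    (hX2 : 2 ≤ X₀) (hb : B * (es.length + 1) ^ l.length < X₀) (hN : (N : K) = 0)
    (hDK : (D : K) ≠ 0) (Lp Lm : List ℕ) (hlp : Lp.length ≤ l.length)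
    (hlm : Lm.length ≤ l.length) (hbp : ∀ i e, dg X₀ e (Lp.getD i 0) ≤ B)
    (hbm : ∀ i e, dg X₀ e (Lm.getD i 0) ≤ B)
    (htp : ∀ i e, fn l i ≤ e → dg X₀ e (Lp.getD i 0) = if i = c ∧ e = fn l i then D else 0)
    (htm : ∀ i e, fn l i ≤ e → dg X₀ e (Lm.getD i 0) = 0)
    (hone : condD X₀ N t r m (hor X₀ es Lp) (hor X₀ es Lm) = true) :
    ∃ P : K[X][X], taylor (germ K es) P ∈ cond K r m ∧
      P - C (X ^ fn l c) * X ^ c ∈ rows K (fn l) := by
  have hX0 : 0 < X₀ := by omega
  have hpos : 0 < es.length + 1 := Nat.succ_pos _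
  have hpw : ∀ k ≤ l.length, B * (es.length + 1) ^ k < X₀ := fun k hk =>
    lt_of_le_of_lt (Nat.mul_le_mul_left _ (Nat.pow_le_pow_right hpos hk)) hb
  obtain ⟨P, hP, _⟩ := repL_exists (K := K) X₀ B hX2 Lp hbp
  obtain ⟨Q, hQ, _⟩ := repL_exists (K := K) X₀ B hX2 Lm hbm
  have hTP := repL_hor (es := es) hX0 Lp P hP (hpw _ hlp)
  have hTQ := repL_hor (es := es) hX0 Lm Q hQ (hpw _ hlm)
  have hcond := condD_sound X₀ N t r hN m _ _ hrm hone
  refine ⟨(D : K)⁻¹ • (P - Q), ?_, ?_⟩
  · intro j hj
    have h8 : taylor (germ K es) ((D : K)⁻¹ • (P - Q)) =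
        (D : K)⁻¹ • (taylor (germ K es) P - taylor (germ K es) Q) := by
      rw [← map_sub]
      exact ((taylor (germ K es)).restrictScalars K).map_smul _ _
    rw [h8, coeff_smul, coeff_sub]
    refine dvd_smul_of_dvd _ ?_
    rw [X_pow_dvd_iff]
    intro e he
    rw [coeff_sub, (hTP j e).1, (hTQ j e).1, hcond j hj e he, sub_self]
  · intro i
    rw [mem_degreeLT, degree_lt_iff_coeff_zero]
    intro e he
    rw [coeff_sub, coeff_smul, coeff_sub, coeff_sub, coeff_smul, coeff_sub, (hP i e).1,
      (hQ i e).1, htp i e he, htm i e he, coeff_C_mul_X_pow]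
    by_cases hic : i = c
    · subst hic
      rw [if_pos rfl, coeff_X_pow]
      by_cases he2 : e = fn l i
      · rw [if_pos ⟨rfl, he2⟩, if_pos he2, Nat.cast_zero, sub_zero, smul_eq_mul,
          inv_mul_cancel₀ hDK, sub_self]
      · rw [if_neg (fun h => he2 h.2), if_neg he2, Nat.cast_zero, sub_self, smul_zero, sub_self]
    · rw [if_neg (fun h => hic h.1), if_neg hic, coeff_zero, Nat.cast_zero, sub_self, smul_zero,
        sub_self]

/-- one certificate: for the row `c` -/
def oneS (X₀ G W N D r m t : ℕ) (es l : List ℕ) (c : ℕ) (tp tm : List ℕ) : Bool :=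
  okL G W l tp && (okL G W l tm &&
    condD X₀ N t r m (hor X₀ es (addAt (pkL X₀ G W l tp) c (Nat.mul D (Nat.pow X₀ (fn l c)))))
      (hor X₀ es (pkL X₀ G W l tm)))

/-- a list of certificates for the rows `c, c + 1, …` -/
def allS (X₀ G W N D₀ r m t : ℕ) (es l : List ℕ) : ℕ → List (ℕ × List ℕ × List ℕ) → Bool
  | _, [] => true
  | c, (D, tp, tm) :: u => (Nat.beq (Nat.mod D₀ D) 0 && (Nat.ble D D₀ &&
      oneS X₀ G W N D r m t es l c tp tm)) && allS X₀ G W N D₀ r m t es l (c + 1) u

theorem allS_sound (X₀ G W N D₀ r m t : ℕ) (es l : List ℕ) :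
    ∀ (L : List (ℕ × List ℕ × List ℕ)) (c : ℕ),
    allS X₀ G W N D₀ r m t es l c L = true → ∀ i < L.length, ∃ D tp tm, D ∣ D₀ ∧ D ≤ D₀ ∧
      oneS X₀ G W N D r m t es l (c + i) tp tm = true := by
  intro L
  induction L with
  | nil => intro c _ i hi; simp at hi
  | cons a u ih =>
    obtain ⟨D, tp, tm⟩ := a
    intro c h i hi
    rw [allS, Bool.and_eq_true, Bool.and_eq_true, Bool.and_eq_true] at h
    obtain ⟨⟨h1, h1', h2⟩, h3⟩ := h
    cases i with
    | zero =>
      exact ⟨D, tp, tm, Nat.dvd_of_mod_eq_zero (Nat.eq_of_beq_eq_true h1),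
        Nat.le_of_ble_eq_true h1', h2⟩
    | succ i =>
      have h4 := ih (c + 1) h3 i (by simpa using hi)
      have e : c + 1 + i = c + (i + 1) := by ring
      rwa [e] at h4

/-- The whole check. `V` is a strict bound for the values, `G` for the gaps, `W = V G`. -/
def etaS (X₀ G V W N D₀ r m t : ℕ) (es l : List ℕ) (L : List (ℕ × List ℕ × List ℕ)) : Bool :=
  (Nat.beq W (V * G) && (Nat.blt 0 V && (Nat.ble m l.length && (Nat.beq L.length l.length &&
    (Nat.beq (sumL l) (r * ((m + 1) * m / 2)) &&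
    (Nat.blt ((V - 1 + D₀) * (es.length + 1) ^ l.length) X₀ && Nat.ble (r * m) (2 ^ t))))))) &&
  allS X₀ G W N D₀ r m t es l 0 L

/-- **The certificate theorem**, one polynomial per row, sparse form. -/
theorem good_of_etaS (X₀ G V W N D₀ r m t : ℕ) (es l : List ℕ) (L : List (ℕ × List ℕ × List ℕ))
    (h : etaS X₀ G V W N D₀ r m t es l L = true) (hN : (N : K) = 0) (hD₀ : (D₀ : K) ≠ 0) :
    Good K r m (fn l) (∑ c ∈ Finset.range l.length, fn l c) := by
  rw [etaS, Bool.and_eq_true, Bool.and_eq_true, Bool.and_eq_true, Bool.and_eq_true,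
    Bool.and_eq_true, Bool.and_eq_true, Bool.and_eq_true] at h
  obtain ⟨⟨h1, h2, h3, h4, h5, h6, h6'⟩, h7⟩ := h
  have hrm : r * m ≤ 2 ^ t := Nat.le_of_ble_eq_true h6'
  obtain rfl : W = V * G := Nat.eq_of_beq_eq_true h1
  have hV0 : 0 < V := Nat.le_of_ble_eq_true h2
  have hm : m ≤ l.length := Nat.le_of_ble_eq_true h3
  have hL : L.length = l.length := Nat.eq_of_beq_eq_true h4
  have hsum : sumL l = r * ((m + 1) * m / 2) := Nat.eq_of_beq_eq_true h5
  have hb : (V - 1 + D₀) * (es.length + 1) ^ l.length < X₀ := Nat.le_of_ble_eq_true h6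
  have hD₁ : 1 ≤ D₀ := by
    rcases Nat.eq_zero_or_pos D₀ with h0 | h0
    · rw [h0, Nat.cast_zero] at hD₀
      exact absurd rfl hD₀
    · exact h0
  have hpow : 1 ≤ (es.length + 1) ^ l.length := Nat.one_le_pow _ _ (Nat.succ_pos _)
  have hb1 : V - 1 + D₀ ≤ (V - 1 + D₀) * (es.length + 1) ^ l.length :=
    Nat.le_mul_of_pos_right _ hpow
  have hX2 : 2 ≤ X₀ := by omega
  have hX0 : 0 < X₀ := by omega
  have hVX : V ≤ X₀ := by omega
  have e1 : (m + 1) * m / 2 = (m + 1).choose 2 := by
    rw [Nat.choose_two_right]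
    rfl
  rw [← sumL_eq, hsum, e1]
  have hlast : ∀ c, l.length ≤ c → fn l c = 0 := fn_of_le l
  refine Pool.Agent.Helper54.FM.good_of_hypx (germ K es) hm hlast fun c hc => ?_
  obtain ⟨D, tp, tm, hDD, hDle, hone⟩ := allS_sound X₀ G (V * G) N D₀ r m t es l L 0 h7 c
    (by omega)
  rw [Nat.zero_add] at hone
  have hDK : (D : K) ≠ 0 := by
    intro h0
    obtain ⟨k, hk⟩ := hDD
    rw [hk, Nat.cast_mul, h0, zero_mul] at hD₀
    exact hD₀ rfl
  rw [oneS, Bool.and_eq_true, Bool.and_eq_true] at hone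
  obtain ⟨ho1, ho2, ho3⟩ := hone
  obtain ⟨h8, h9⟩ := okL_sound X₀ G V hVX hV0 l tp ho1
  obtain ⟨h10, h11⟩ := okL_sound X₀ G V hVX hV0 l tm ho2
  have hdp : ∀ i e, dg X₀ e ((addAt (pkL X₀ G (V * G) l tp) c (D * X₀ ^ fn l c)).getD i 0) =
      dg X₀ e ((pkL X₀ G (V * G) l tp).getD i 0) + if i = c ∧ e = fn l c then D else 0 := by
    intro i e
    rw [getD_addAt]
    by_cases hic : i = c
    · rw [if_pos hic]
      rw [dg_add X₀ (V - 1) D (by omega) e _ _ (h9 i).1 (fun e => by
        rw [dg_mul_pow X₀ D _ e (by omega)]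
        split
        · exact le_rfl
        · exact Nat.zero_le _), dg_mul_pow X₀ D _ e (by omega)]
      by_cases he : e = fn l c
      · rw [if_pos he, if_pos ⟨hic, he⟩]
      · rw [if_neg he, if_neg (fun h => he h.2)]
    · rw [if_neg hic, if_neg (fun h => hic h.1), add_zero, add_zero]
  refine hypx_of_digits X₀ (V - 1 + D₀) N D r m t es l c hc hrm hX2 hb hN hDK
    (addAt (pkL X₀ G (V * G) l tp) c (D * X₀ ^ fn l c)) (pkL X₀ G (V * G) l tm)
    (length_addAt c _ _ _ h8 hc) h10 ?_ ?_ ?_ ?_ ho3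
  · intro i e
    rw [hdp]
    have := (h9 i).1 e
    split <;> omega
  · intro i e
    have := (h11 i).1 e
    omega
  · intro i e he
    rw [hdp, (h9 i).2 e he, zero_add]
    by_cases hic : i = c
    · subst hic; rfl
    · rw [if_neg (fun h => hic h.1), if_neg (fun h => hic h.1)]
  · intro i e he
    exact (h11 i).2 e he

end Pool.Agent.Helper22.E6
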