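import Pool.Agent.Helper22.E6.EtaCase
import Pool.Agent.Helper54.FM.OntoX

set_option autoImplicit false

/-! # Germ certificates, one polynomial per row (helper22), MP_e6aa12_ag

The criterion is `Helper54.FM.good_of_hypx`.  Polynomials in `x` are packed in natural numbers to
the base `X₀`, polynomials in `ζ` are lists. -/

open Polynomial

namespace Pool.Agent.Helper22.E6

open Pool.Agent.Helper41.Fat

variable {K : Type*} [Field K]

/-- `S` is the packed form of `p`, all digits at most `b` -/
def Rep (X₀ b S : ℕ) (p : K[X]) : Prop := ∀ e, p.coeff e = ((dg X₀ e S : ℕ) : K) ∧ dg X₀ e S ≤ b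

theorem rep_zero (X₀ b : ℕ) : Rep X₀ b 0 (0 : K[X]) := fun e => by
  rw [dg_zero, coeff_zero]
  exact ⟨Nat.cast_zero.symm, Nat.zero_le _⟩

theorem rep_mono {X₀ b b' S : ℕ} {p : K[X]} (h : Rep X₀ b S p) (hb : b ≤ b') : Rep X₀ b' S p :=
  fun e => ⟨(h e).1, (h e).2.trans hb⟩

theorem rep_add {X₀ b b' S T : ℕ} {p q : K[X]} (hp : Rep X₀ b S p) (hq : Rep X₀ b' T q)
    (hb : b + b' < X₀) : Rep X₀ (b + b') (S + T) (p + q) := by
  intro e
  have h1 := dg_add X₀ b b' hb e S T (fun e => (hp e).2) (fun e => (hq e).2)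
  rw [coeff_add, h1, Nat.cast_add, (hp e).1, (hq e).1]
  exact ⟨rfl, Nat.add_le_add (hp e).2 (hq e).2⟩

theorem dg_shift (X₀ k S : ℕ) (hX : 0 < X₀) (e : ℕ) :
    dg X₀ e (S * X₀ ^ k) = if e < k then 0 else dg X₀ (e - k) S := by
  unfold dg
  by_cases h : e < k
  · rw [if_pos h]
    have h1 : S * X₀ ^ k = X₀ ^ e * (X₀ * (S * X₀ ^ (k - e - 1))) := by
      have h2 : X₀ ^ k = X₀ ^ e * (X₀ * X₀ ^ (k - e - 1)) := by
        rw [← pow_succ', ← pow_add]
        congr 1
        omega
      rw [h2]
      ring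
    rw [h1, Nat.mul_div_cancel_left _ (Nat.pow_pos hX), Nat.mul_mod_right]
  · rw [if_neg h]
    have h1 : X₀ ^ e = X₀ ^ k * X₀ ^ (e - k) := by rw [← pow_add]; congr 1; omega
    rw [h1, ← Nat.div_div_eq_div_mul, Nat.mul_div_cancel _ (Nat.pow_pos hX)]

theorem rep_shift {X₀ b S : ℕ} {p : K[X]} (hX : 0 < X₀) (h : Rep X₀ b S p) (k : ℕ) :
    Rep X₀ b (S * X₀ ^ k) (p * X ^ k) := by
  intro e
  rw [dg_shift X₀ k S hX, coeff_mul_X_pow']
  by_cases h1 : e < k
  · rw [if_pos h1, if_neg (by omega)]
    exact ⟨Nat.cast_zero.symm, Nat.zero_le _⟩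
  · rw [if_neg h1, if_pos (by omega)]
    exact h _

theorem rep_exists (X₀ b S : ℕ) (hX : 2 ≤ X₀) (h : ∀ e, dg X₀ e S ≤ b) :
    ∃ p : K[X], Rep X₀ b S p := by
  refine ⟨∑ e ∈ Finset.range (S + 1), C (((dg X₀ e S : ℕ) : K)) * X ^ e, fun e => ⟨?_, h e⟩⟩
  rw [finsetSum_coeff]
  simp only [coeff_C_mul_X_pow]
  by_cases he : e < S + 1
  · rw [Finset.sum_eq_single e]
    · rw [if_pos rfl]
    · intro e' _ he'
      rw [if_neg (Ne.symm he')]
    · intro h'
      exact absurd (Finset.mem_range.2 he) h'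
  · have h1 : dg X₀ e S = 0 := by
      unfold dg
      rw [Nat.div_eq_of_lt, Nat.zero_mod]
      calc S < e := by omega
        _ < X₀ ^ e := Nat.lt_pow_self (by omega)
    rw [h1, Nat.cast_zero]
    refine Finset.sum_eq_zero fun e' he' => ?_
    rw [Finset.mem_range] at he'
    rw [if_neg (by omega)]

/-- multiplication by the germ -/
def mulg (X₀ S : ℕ) : List ℕ → ℕ
  | [] => 0
  | x :: t => Nat.add (Nat.mul S (Nat.pow X₀ x)) (mulg X₀ S t)

theorem mulg_cons (X₀ S x : ℕ) (t : List ℕ) : mulg X₀ S (x :: t) = S * X₀ ^ x + mulg X₀ S t := rfl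

theorem rep_mulg {X₀ b S : ℕ} {p : K[X]} (hX : 0 < X₀) (h : Rep X₀ b S p) : ∀ es : List ℕ,
    b * es.length < X₀ → Rep X₀ (b * es.length) (mulg X₀ S es) (p * germ K es) := by
  intro es
  induction es with
  | nil =>
    intro _
    have e : p * germ K [] = 0 := by simp [germ]
    rw [e]
    exact rep_zero _ _
  | cons x t ih =>
    intro hb
    rw [List.length_cons, Nat.mul_succ] at hb
    have h1 := ih (by omega)
    have h2 := rep_add (rep_shift hX h x) h1 (by omega)
    rw [mulg_cons]
    have e : p * germ K (x :: t) = p * X ^ x + p * germ K t := by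
      unfold germ
      rw [List.map_cons, List.sum_cons]
      ring
    rw [e, List.length_cons, Nat.mul_succ, Nat.add_comm (b * t.length)]
    exact h2

/-- the list `R` represents `P` -/
def RepL (X₀ b : ℕ) (R : List ℕ) (P : K[X][X]) : Prop := ∀ i, Rep X₀ b (R.getD i 0) (P.coeff i)

/-- one Horner step -/
def hs (X₀ : ℕ) (es : List ℕ) : ℕ → List ℕ → List ℕ
  | a, [] => [a]
  | a, s :: t => Nat.add a (mulg X₀ s es) :: hs X₀ es s t

theorem getD_hs (X₀ : ℕ) (es : List ℕ) : ∀ (R : List ℕ) (a i : ℕ),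
    (hs X₀ es a R).getD i 0 = (if i = 0 then a else R.getD (i - 1) 0) +
      (if i < R.length then mulg X₀ (R.getD i 0) es else 0) := by
  intro R
  induction R with
  | nil =>
    intro a i
    cases i with
    | zero => simp [hs]
    | succ i => simp [hs]
  | cons s t ih =>
    intro a i
    cases i with
    | zero =>
      rw [if_pos rfl, if_pos (by simp)]
      rfl
    | succ i =>
      have h1 : (hs X₀ es a (s :: t)).getD (i + 1) 0 = (hs X₀ es s t).getD i 0 := rfl
      have h2 : (s :: t).getD (i + 1 - 1) 0 = if i = 0 then s else t.getD (i - 1) 0 := by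
        cases i with
        | zero => rfl
        | succ i => rfl
      have h3 : (s :: t).getD (i + 1) 0 = t.getD i 0 := rfl
      rw [h1, ih, if_neg (Nat.succ_ne_zero i), h2, h3, List.length_cons]
      congr 1
      by_cases h : i < t.length
      · rw [if_pos h, if_pos (Nat.succ_lt_succ h)]
      · rw [if_neg h, if_neg (fun h' => h (Nat.lt_of_succ_lt_succ h'))]

theorem mulg_zero (X₀ : ℕ) (es : List ℕ) : mulg X₀ 0 es = 0 := by
  induction es with
  | nil => rfl
  | cons x t ih => rw [mulg_cons, ih, Nat.zero_mul]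

theorem repL_hs {X₀ b a : ℕ} {es R : List ℕ} {p : K[X]} {P : K[X][X]} (hX : 0 < X₀)
    (ha : Rep X₀ b a p) (hR : RepL X₀ b R P) (hb : b * (es.length + 1) < X₀) :
    RepL X₀ (b * (es.length + 1)) (hs X₀ es a R) (C p + (X + C (germ K es)) * P) := by
  rw [Nat.mul_succ] at hb
  intro i
  rw [getD_hs]
  have h1 : Rep X₀ (b * es.length) (if i < R.length then mulg X₀ (R.getD i 0) es else 0)
      (P.coeff i * germ K es) := by
    by_cases h : i < R.length
    · rw [if_pos h]
      exact rep_mulg hX (hR i) es (by omega)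
    · rw [if_neg h]
      have h2 := rep_mulg (K := K) hX (hR i) es (by omega)
      rw [List.getD_eq_default _ _ (by omega), mulg_zero] at h2
      exact h2
  have h3 : Rep X₀ b (if i = 0 then a else R.getD (i - 1) 0)
      ((C p + X * P).coeff i) := by
    cases i with
    | zero =>
      rw [if_pos rfl]
      simpa using ha
    | succ i =>
      rw [if_neg (by omega)]
      simpa [coeff_C_succ] using hR i
  have h4 := rep_add h3 h1 (by omega)
  have e : (C p + (X + C (germ K es)) * P).coeff i =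
      (C p + X * P).coeff i + P.coeff i * germ K es := by
    have e1 : C p + (X + C (germ K es)) * P = (C p + X * P) + C (germ K es) * P := by ring
    rw [e1, coeff_add, coeff_C_mul, mul_comm (germ K es)]
  rw [e, Nat.mul_succ, Nat.add_comm (b * es.length)]
  exact h4

/-- Horner scheme -/
def hor (X₀ : ℕ) (es : List ℕ) : List ℕ → List ℕ
  | [] => []
  | a :: L => hs X₀ es a (hor X₀ es L)

theorem repL_hor {X₀ b : ℕ} {es : List ℕ} (hX : 0 < X₀) : ∀ (L : List ℕ) (P : K[X][X]),
    RepL X₀ b L P → b * (es.length + 1) ^ L.length < X₀ →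
    RepL X₀ (b * (es.length + 1) ^ L.length) (hor X₀ es L) (taylor (germ K es) P) := by
  intro L
  induction L with
  | nil =>
    intro P hP hb
    have h1 : ∀ i e, (P.coeff i).coeff e = 0 := by
      intro i e
      have := (hP i e).1
      rw [List.getD_nil, dg_zero, Nat.cast_zero] at this
      exact this
    have h2 : P = 0 := by
      ext i e
      rw [h1, coeff_zero, coeff_zero]
    subst h2
    rw [map_zero]
    intro i
    rw [coeff_zero]
    have e : (hor X₀ es []).getD i 0 = 0 := by simp [hor]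
    rw [e]
    exact rep_zero _ _
  | cons a L ih =>
    intro P hP hb
    rw [List.length_cons, pow_succ, ← mul_assoc] at hb
    have hpos : 0 < es.length + 1 := Nat.succ_pos _
    have h0 : b * (es.length + 1) ^ L.length ≤ b * (es.length + 1) ^ L.length * (es.length + 1) :=
      Nat.le_mul_of_pos_right _ hpos
    have h1 : RepL X₀ b L P.divX := by
      intro i
      rw [coeff_divX]
      exact hP (i + 1)
    have h2 := ih P.divX h1 (by omega)
    have h3 : Rep X₀ b a (P.coeff 0) := hP 0
    have h4 : b ≤ b * (es.length + 1) ^ L.length := Nat.le_mul_of_pos_right _ (Nat.pow_pos hpos)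
    have h5 := repL_hs (es := es) hX (rep_mono h3 h4) h2 hb
    have e : taylor (germ K es) P = C (P.coeff 0) + (X + C (germ K es)) *
        taylor (germ K es) P.divX := by
      conv_lhs => rw [← P.divX_mul_X_add]
      rw [map_add, taylor_mul, taylor_X, taylor_C]
      ring
    rw [e, List.length_cons, pow_succ, ← mul_assoc]
    exact h5

/-! ### The check -/

/-- the lowest `k` digits agree modulo `N` -/
def lowEq (X₀ N k S T : ℕ) : Bool :=
  cond (Nat.beq N 0) (Nat.beq (Nat.mod S (Nat.pow X₀ k)) (Nat.mod T (Nat.pow X₀ k)))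
    (digEq X₀ N k S T)

theorem dg_mod (X₀ : ℕ) : ∀ (e k S : ℕ), e < k → dg X₀ e (S % X₀ ^ k) = dg X₀ e S := by
  intro e
  induction e with
  | zero =>
    intro k S hk
    obtain ⟨k', rfl⟩ : ∃ k', k = k' + 1 := ⟨k - 1, by omega⟩
    rw [dg_zero_left, dg_zero_left, pow_succ', Nat.mod_mul_right_mod]
  | succ e ih =>
    intro k S hk
    obtain ⟨k', rfl⟩ : ∃ k', k = k' + 1 := ⟨k - 1, by omega⟩
    rw [dg_succ, dg_succ, pow_succ', Nat.mod_mul_right_div_self]
    exact ih k' _ (by omega)

theorem lowEq_sound (X₀ N k S T : ℕ) (hN : (N : K) = 0) (h : lowEq X₀ N k S T = true) (e : ℕ)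
    (he : e < k) : ((dg X₀ e S : ℕ) : K) = ((dg X₀ e T : ℕ) : K) := by
  unfold lowEq at h
  cases h1 : Nat.beq N 0 with
  | true =>
    rw [h1, cond_true] at h
    have h2 : S % X₀ ^ k = T % X₀ ^ k := Nat.eq_of_beq_eq_true h
    rw [← dg_mod X₀ e k S he, ← dg_mod X₀ e k T he, h2]
  | false =>
    rw [h1, cond_false] at h
    exact cast_eq_of_mod N _ _ hN (digEq_sound X₀ N k S T h e he)

/-- the check of the conditions for the rows `j, …` -/
def condB (X₀ N r : ℕ) : ℕ → List ℕ → List ℕ → Bool
  | 0, _, _ => true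
  | m + 1, R, T => lowEq X₀ N (r * (m + 1)) (hd R) (hd T) && condB X₀ N r m (tl R) (tl T)

theorem hd_getD (w : List ℕ) : hd w = w.getD 0 0 := by cases w <;> rfl

theorem tl_getD (w : List ℕ) (j : ℕ) : (tl w).getD j 0 = w.getD (j + 1) 0 := by
  cases w with
  | nil => simp [tl]
  | cons a t => rfl

theorem condB_sound (X₀ N r : ℕ) (hN : (N : K) = 0) : ∀ (m : ℕ) (R T : List ℕ),
    condB X₀ N r m R T = true → ∀ j < m, ∀ e < r * (m - j),
    ((dg X₀ e (R.getD j 0) : ℕ) : K) = ((dg X₀ e (T.getD j 0) : ℕ) : K) := by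
  intro m
  induction m with
  | zero => intro R T _ j hj; omega
  | succ m ih =>
    intro R T h j hj e he
    rw [condB, Bool.and_eq_true] at h
    cases j with
    | zero =>
      rw [← hd_getD, ← hd_getD]
      exact lowEq_sound X₀ N _ _ _ hN h.1 e he
    | succ j =>
      have h1 := ih (tl R) (tl T) h.2 j (by omega) e (by
        have e1 : m + 1 - (j + 1) = m - j := by omega
        rwa [e1] at he)
      rwa [tl_getD, tl_getD] at h1

/-- spread a list: the entry for a row of length `n` has `n` digits -/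
def sprL (X₀ Y : ℕ) : List ℕ → List ℕ → List ℕ
  | [], _ => []
  | n :: l, t => spr X₀ Y n (hd t) :: sprL X₀ Y l (tl t)

/-- the same with `D x ^ n` added in the row number `k` -/
def sprT (X₀ Y D : ℕ) : List ℕ → List ℕ → ℕ → List ℕ
  | [], _, _ => []
  | n :: l, t, 0 => Nat.add (spr X₀ Y n (hd t)) (Nat.mul D (Nat.pow X₀ n)) :: sprL X₀ Y l (tl t)
  | n :: l, t, k + 1 => spr X₀ Y n (hd t) :: sprT X₀ Y D l (tl t) k

theorem dg_spr_ge (X₀ Y : ℕ) (hY : 0 < Y) (hYX : Y ≤ X₀) : ∀ E S e, E ≤ e →
    dg X₀ e (spr X₀ Y E S) = 0 := by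
  intro E
  induction E with
  | zero => intro S e _; exact dg_zero X₀ e
  | succ E ih =>
    intro S e he
    have h1 : S % Y < Y := Nat.mod_lt _ hY
    have hX : 0 < X₀ := by omega
    rw [spr_succ]
    cases h : Nat.beq S 0 with
    | true => rw [cond_true, dg_zero]
    | false =>
      rw [cond_false]
      obtain ⟨e', rfl⟩ : ∃ e', e = e' + 1 := ⟨e - 1, by omega⟩
      rw [dg_succ, Nat.add_mul_div_left _ _ hX, Nat.div_eq_of_lt (by omega), zero_add]
      exact ih _ _ (by omega)

theorem getD_sprL (X₀ Y : ℕ) : ∀ (l t : List ℕ) (i : ℕ), (sprL X₀ Y l t).getD i 0 =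
    if i < l.length then spr X₀ Y (fn l i) (t.getD i 0) else 0 := by
  intro l
  induction l with
  | nil => intro t i; simp [sprL]
  | cons n l ih =>
    intro t i
    cases i with
    | zero =>
      rw [if_pos (by simp), ← hd_getD t]
      rfl
    | succ i =>
      have h1 : (sprL X₀ Y (n :: l) t).getD (i + 1) 0 = (sprL X₀ Y l (tl t)).getD i 0 := rfl
      rw [h1, ih, tl_getD, fn_cons_succ, List.length_cons]
      by_cases h : i < l.length
      · rw [if_pos h, if_pos (by omega)]
      · rw [if_neg h, if_neg (by omega)]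

theorem getD_sprT (X₀ Y D : ℕ) : ∀ (l t : List ℕ) (k i : ℕ), (sprT X₀ Y D l t k).getD i 0 =
    if i < l.length then spr X₀ Y (fn l i) (t.getD i 0) +
      (if i = k then D * X₀ ^ (fn l i) else 0) else 0 := by
  intro l
  induction l with
  | nil => intro t k i; simp [sprT]
  | cons n l ih =>
    intro t k i
    cases k with
    | zero =>
      cases i with
      | zero =>
        rw [if_pos (by simp), if_pos rfl, ← hd_getD t]
        rfl
      | succ i =>
        have h1 : (sprT X₀ Y D (n :: l) t 0).getD (i + 1) 0 = (sprL X₀ Y l (tl t)).getD i 0 := rfl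
        rw [h1, getD_sprL, tl_getD, fn_cons_succ, List.length_cons, if_neg (Nat.succ_ne_zero i),
          add_zero]
        by_cases h : i < l.length
        · rw [if_pos h, if_pos (by omega)]
        · rw [if_neg h, if_neg (by omega)]
    | succ k =>
      cases i with
      | zero =>
        rw [if_pos (by simp), if_neg (Ne.symm (Nat.succ_ne_zero k)), add_zero, ← hd_getD t]
        rfl
      | succ i =>
        have h1 : (sprT X₀ Y D (n :: l) t (k + 1)).getD (i + 1) 0 =
          (sprT X₀ Y D l (tl t) k).getD i 0 := rfl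
        rw [h1, ih, tl_getD, fn_cons_succ, List.length_cons]
        by_cases h : i < l.length
        · rw [if_pos h, if_pos (Nat.succ_lt_succ h)]
          congr 1
          by_cases h2 : i = k
          · rw [if_pos h2, if_pos (congrArg Nat.succ h2)]
          · rw [if_neg h2, if_neg (fun h' => h2 (Nat.succ_injective h'))]
        · rw [if_neg h, if_neg (fun h' => h (Nat.lt_of_succ_lt_succ h'))]

/-- one certificate: for the row `c` -/
def oneB (X₀ Y N D r m : ℕ) (es l : List ℕ) (c : ℕ) (tp tm : List ℕ) : Bool :=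
  condB X₀ N r m (hor X₀ es (sprT X₀ Y D l tp c)) (hor X₀ es (sprL X₀ Y l tm))

/-- a list of certificates for the rows `c, c + 1, …` -/
def allB (X₀ Y N D₀ r m : ℕ) (es l : List ℕ) : ℕ → List (ℕ × List ℕ × List ℕ) → Bool
  | _, [] => true
  | c, (D, tp, tm) :: t => (Nat.beq (Nat.mod D₀ D) 0 && (Nat.ble D D₀ &&
      oneB X₀ Y N D r m es l c tp tm)) && allB X₀ Y N D₀ r m es l (c + 1) t

theorem allB_sound (X₀ Y N D₀ r m : ℕ) (es l : List ℕ) : ∀ (L : List (ℕ × List ℕ × List ℕ))
    (c : ℕ), allB X₀ Y N D₀ r m es l c L = true → ∀ i < L.length, ∃ D tp tm, D ∣ D₀ ∧ D ≤ D₀ ∧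
      oneB X₀ Y N D r m es l (c + i) tp tm = true := by
  intro L
  induction L with
  | nil => intro c _ i hi; simp at hi
  | cons a t ih =>
    obtain ⟨D, tp, tm⟩ := a
    intro c h i hi
    rw [allB, Bool.and_eq_true, Bool.and_eq_true, Bool.and_eq_true] at h
    obtain ⟨⟨h1, h1', h2⟩, h3⟩ := h
    cases i with
    | zero =>
      exact ⟨D, tp, tm, Nat.dvd_of_mod_eq_zero (Nat.eq_of_beq_eq_true h1),
        Nat.le_of_ble_eq_true h1', h2⟩
    | succ i =>
      have h4 := ih (c + 1) h3 i (by simpa using hi)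
      have e : c + 1 + i = c + (i + 1) := by ring
      rwa [e] at h4

/-- The whole check. -/
def etaX (X₀ Y N D₀ r m : ℕ) (es l : List ℕ) (L : List (ℕ × List ℕ × List ℕ)) : Bool :=
  (Nat.blt 0 Y && (Nat.ble Y X₀ && (Nat.ble m l.length && (Nat.beq L.length l.length &&
    (Nat.beq (sumL l) (r * ((m + 1) * m / 2)) &&
    Nat.blt ((Y - 1 + D₀) * (es.length + 1) ^ l.length) X₀))))) &&
  allB X₀ Y N D₀ r m es l 0 L

theorem repL_exists (X₀ b : ℕ) (hX : 2 ≤ X₀) (R : List ℕ) (h : ∀ i e, dg X₀ e (R.getD i 0) ≤ b) :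
    ∃ P : K[X][X], RepL X₀ b R P ∧ ∀ i, P.coeff i = 0 ∨ i < R.length := by
  choose p hp using fun i => rep_exists (K := K) X₀ b (R.getD i 0) hX (h i)
  refine ⟨∑ i ∈ Finset.range R.length, C (p i) * X ^ i, ?_, ?_⟩
  · intro i
    rw [finsetSum_coeff]
    simp only [coeff_C_mul_X_pow]
    by_cases hi : i < R.length
    · rw [Finset.sum_eq_single i]
      · rw [if_pos rfl]; exact hp i
      · intro i' _ hi'
        rw [if_neg (Ne.symm hi')]
      · intro h'
        exact absurd (Finset.mem_range.2 hi) h'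
    · have h1 : R.getD i 0 = 0 := List.getD_eq_default _ _ (by omega)
      rw [h1, Finset.sum_eq_zero]
      · exact rep_zero _ _
      · intro i' hi'
        rw [Finset.mem_range] at hi'
        rw [if_neg (by omega)]
  · intro i
    by_cases hi : i < R.length
    · exact Or.inr hi
    · left
      rw [finsetSum_coeff]
      simp only [coeff_C_mul_X_pow]
      refine Finset.sum_eq_zero fun i' hi' => ?_
      rw [Finset.mem_range] at hi'
      rw [if_neg (by omega)]

theorem fn_zero_of_length (l : List ℕ) (i : ℕ) (h : ¬ i < l.length) : fn l i = 0 :=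
  fn_of_le l i (by omega)

/-- **The certificate theorem**, one polynomial per row. -/
theorem good_of_etaX (X₀ Y N D₀ r m : ℕ) (es l : List ℕ) (L : List (ℕ × List ℕ × List ℕ))
    (h : etaX X₀ Y N D₀ r m es l L = true) (hN : (N : K) = 0) (hD₀ : (D₀ : K) ≠ 0) :
    Good K r m (fn l) (∑ c ∈ Finset.range l.length, fn l c) := by
  rw [etaX, Bool.and_eq_true, Bool.and_eq_true, Bool.and_eq_true, Bool.and_eq_true,
    Bool.and_eq_true, Bool.and_eq_true] at h
  obtain ⟨⟨h1, h2, h3, h4, h5, h6⟩, h7⟩ := h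
  have hY : 0 < Y := Nat.le_of_ble_eq_true h1
  have hYX : Y ≤ X₀ := Nat.le_of_ble_eq_true h2
  have hm : m ≤ l.length := Nat.le_of_ble_eq_true h3
  have hL : L.length = l.length := Nat.eq_of_beq_eq_true h4
  have hsum : sumL l = r * ((m + 1) * m / 2) := Nat.eq_of_beq_eq_true h5
  have hb : (Y - 1 + D₀) * (es.length + 1) ^ l.length < X₀ := Nat.le_of_ble_eq_true h6
  have hD₁ : 1 ≤ D₀ := by
    rcases Nat.eq_zero_or_pos D₀ with h0 | h0
    · rw [h0, Nat.cast_zero] at hD₀
      exact absurd rfl hD₀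
    · exact h0
  have hpow : 1 ≤ (es.length + 1) ^ l.length := Nat.one_le_pow _ _ (Nat.succ_pos _)
  have hb1 : Y - 1 + D₀ ≤ (Y - 1 + D₀) * (es.length + 1) ^ l.length := Nat.le_mul_of_pos_right _ hpow
  have hX2 : 2 ≤ X₀ := by omega
  have hX0 : 0 < X₀ := by omega
  have e1 : (m + 1) * m / 2 = (m + 1).choose 2 := by
    rw [Nat.choose_two_right]
    rfl
  rw [← sumL_eq, hsum, e1]
  have hlast : ∀ c, l.length ≤ c → fn l c = 0 := fn_of_le l
  refine Pool.Agent.Helper54.FM.good_of_hypx (germ K es) hm hlast fun c hc => ?_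
  obtain ⟨D, tp, tm, hDD, hDle, hone⟩ := allB_sound X₀ Y N D₀ r m es l L 0 h7 c (by omega)
  rw [Nat.zero_add] at hone
  have hDK : (D : K) ≠ 0 := by
    intro h0
    obtain ⟨k, hk⟩ := hDD
    rw [hk, Nat.cast_mul, h0, zero_mul] at hD₀
    exact hD₀ rfl
  set Lp := sprT X₀ Y D l tp c with hLp
  set Lm := sprL X₀ Y l tm with hLm
  have hdp : ∀ i e, dg X₀ e (Lp.getD i 0) = (if i < l.length then
      dg X₀ e (spr X₀ Y (fn l i) (tp.getD i 0)) + (if i = c ∧ e = fn l i then D else 0) else 0) := by
    intro i e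
    rw [hLp, getD_sprT]
    by_cases hi : i < l.length
    · rw [if_pos hi, if_pos hi]
      by_cases hic : i = c
      · rw [if_pos hic]
        rw [dg_add X₀ (Y - 1) D (by omega) e _ _ (fun e => dg_spr X₀ Y hY hYX _ _ e) (fun e => by
          rw [dg_mul_pow X₀ D _ e (by omega)]
          split
          · exact le_rfl
          · exact Nat.zero_le _), dg_mul_pow X₀ D _ e (by omega)]
        by_cases he : e = fn l i
        · rw [if_pos he, if_pos ⟨hic, he⟩]
        · rw [if_neg he, if_neg (fun h => he h.2)]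
      · rw [if_neg hic, if_neg (fun h => hic h.1), add_zero, add_zero]
    · rw [if_neg hi, if_neg hi, dg_zero]
  have hdm : ∀ i e, dg X₀ e (Lm.getD i 0) = (if i < l.length then
      dg X₀ e (spr X₀ Y (fn l i) (tm.getD i 0)) else 0) := by
    intro i e
    rw [hLm, getD_sprL]
    by_cases hi : i < l.length
    · rw [if_pos hi, if_pos hi]
    · rw [if_neg hi, if_neg hi, dg_zero]
  have hbp : ∀ i e, dg X₀ e (Lp.getD i 0) ≤ Y - 1 + D₀ := by
    intro i e
    rw [hdp]
    split
    · have h8 := dg_spr X₀ Y hY hYX (fn l i) (tp.getD i 0) e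
      split <;> omega
    · exact Nat.zero_le _
  have hbm : ∀ i e, dg X₀ e (Lm.getD i 0) ≤ Y - 1 + D₀ := by
    intro i e
    rw [hdm]
    split
    · have h8 := dg_spr X₀ Y hY hYX (fn l i) (tm.getD i 0) e
      omega
    · exact Nat.zero_le _
  have hlenp : Lp.length = l.length := by
    rw [hLp]
    clear_value Lp
    clear hLp hdp hbp hone
    have key : ∀ (l t : List ℕ), (sprL X₀ Y l t).length = l.length := by
      intro l
      induction l with
      | nil => intro t; rfl
      | cons n l ih => intro t; rw [sprL, List.length_cons, ih, List.length_cons]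
    have key2 : ∀ (l t : List ℕ) (k : ℕ), (sprT X₀ Y D l t k).length = l.length := by
      intro l
      induction l with
      | nil => intro t k; simp [sprT]
      | cons n l ih =>
        intro t k
        cases k with
        | zero => rw [sprT, List.length_cons, key, List.length_cons]
        | succ k => rw [sprT, List.length_cons, ih, List.length_cons]
    exact key2 l tp c
  have hlenm : Lm.length = l.length := by
    rw [hLm]
    have key : ∀ (l t : List ℕ), (sprL X₀ Y l t).length = l.length := by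
      intro l
      induction l with
      | nil => intro t; rfl
      | cons n l ih => intro t; rw [sprL, List.length_cons, ih, List.length_cons]
    exact key l tm
  obtain ⟨P, hP, _⟩ := repL_exists (K := K) X₀ (Y - 1 + D₀) hX2 Lp hbp
  obtain ⟨Q, hQ, _⟩ := repL_exists (K := K) X₀ (Y - 1 + D₀) hX2 Lm hbm
  have hTP := repL_hor (es := es) hX0 Lp P hP (by rw [hlenp]; exact hb)
  have hTQ := repL_hor (es := es) hX0 Lm Q hQ (by rw [hlenm]; exact hb)
  have hcond := condB_sound X₀ N r hN m _ _ hone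
  refine ⟨(D : K)⁻¹ • (P - Q), ?_, ?_⟩
  · intro j hj
    have h8 : taylor (germ K es) ((D : K)⁻¹ • (P - Q)) =
        (D : K)⁻¹ • (taylor (germ K es) P - taylor (germ K es) Q) := by
      rw [← map_sub]
      exact ((taylor (germ K es)).restrictScalars K).map_smul _ _
    rw [h8, coeff_smul, coeff_sub]
    refine dvd_smul_of_dvd _ ?_
    rw [X_pow_dvd_iff]
    intro e he
    rw [coeff_sub, (hTP j e).1, (hTQ j e).1, hcond j hj e he, sub_self]
  · intro i
    rw [mem_degreeLT, degree_lt_iff_coeff_zero]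
    intro e he
    rw [coeff_sub, coeff_smul, coeff_sub, coeff_sub, coeff_smul, coeff_sub, (hP i e).1,
      (hQ i e).1, hdp, hdm, coeff_C_mul_X_pow]
    by_cases hi : i < l.length
    · rw [if_pos hi, if_pos hi, dg_spr_ge X₀ Y hY hYX _ _ e he, dg_spr_ge X₀ Y hY hYX _ _ e he,
        Nat.cast_zero, zero_add, sub_zero]
      by_cases hic : i = c
      · subst hic
        rw [if_pos rfl, coeff_X_pow]
        by_cases he2 : e = fn l i
        · rw [if_pos ⟨rfl, he2⟩, if_pos he2, smul_eq_mul, inv_mul_cancel₀ hDK, sub_self]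
        · rw [if_neg (fun h => he2 h.2), if_neg he2, Nat.cast_zero, smul_zero, sub_zero]
      · rw [if_neg (fun h => hic h.1), if_neg hic, coeff_zero, Nat.cast_zero, smul_zero, sub_zero]
    · rw [if_neg hi, if_neg hi, if_neg (by omega), coeff_zero, Nat.cast_zero, sub_self, smul_zero,
        sub_self]

/-- shrinking the rows -/
theorem shrinkL {r m : ℕ} (l l' : List ℕ) (h : leL l l' = true)
    (hg : Good K r m (fn l') (∑ c ∈ Finset.range l'.length, fn l' c)) :
    Good K r m (fn l) (∑ c ∈ Finset.range l.length, fn l c) :=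
  Good.shrink l'.length l.length (fn_of_le l') (leL_sound l l' h) hg

end Pool.Agent.Helper22.E6
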