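import Pool.Agent.Helper22.E6.Crit
import Pool.Agent.Helper6.SQ.Two

set_option autoImplicit false

/-! # Further exact cases (helper22), MP_e6aa12_ag: `Helper6.SQ.strip_exact2` -/

namespace Pool.Agent.Helper22.E6

variable {K : Type*} [Field K]

theorem case_exact2 [Infinite K] (r a f m d : ℕ) (hr : r = a ^ 2 + 2 * f) (ha : 0 < a)
    (h1 : a * (m + 2) ≤ d + 1) (h2 : d + 1 ≤ a * (m + 3)) (h3 : 2 * (m + 1) ≤ a * (a + 1)) :
    Case K r m d := by
  subst hr
  exact Pool.Agent.Helper6.SQ.strip_exact2 a f m d ha h1 h2 h3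

end Pool.Agent.Helper22.E6
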