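import Pool.Agent.Helper22.E6.EtaCase

set_option autoImplicit false

/-! # Germ certificate for (r, m, d) = (12, 6, 21), part a (helper22), MP_e6aa12_ag -/

namespace Pool.Agent.Helper22.E6

/-- the functionals for `(r, m, d) = (12, 6, 21)`, germ exponents [11], modulo 0 -/
def tbl_12_6_a : List (List ℕ) := [
  [],
  [],
  [],
  [],
  [],
  [0, 0, 0, 0, 0, 0, 0, 0, 0, 0, 0, 1]]

theorem eta_12_6_a : etaB 369 3 0 6 1 12 6 [11] tbl_12_6_a []
    [72, 60, 48, 36, 24, 11, 1] = true := by decide +kernel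

theorem path_12_6_a : pathB 12 6 21 [.N 1, .N 3]
    [72, 60, 48, 36, 24, 11, 1] = true := by decide +kernel

end Pool.Agent.Helper22.E6
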