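import Pool.Agent.Helper22.E6.EtaCase

set_option autoImplicit false

/-! # Germ certificate for (r, m, d) = (12, 6, 21), part b (helper22), MP_e6aa12_ag -/

namespace Pool.Agent.Helper22.E6

/-- the functionals for `(r, m, d) = (12, 6, 21)`, germ exponents [9, 10], modulo 6 -/
def tbl_12_6_b : List (List ℕ) := [
  [0, 0, 0, 0, 0, 0, 0, 0, 0, 0, 0, 0, 0, 0, 0, 0, 0, 0, 0, 0, 0, 0, 0, 0, 0, 0, 0, 0, 0, 0, 0, 0, 0, 0, 0, 0, 0, 0, 0, 0, 0, 0, 0, 0, 0, 0, 0, 0, 0, 0, 0, 0, 0, 0, 0, 0, 0, 0, 0, 0x2579c6ad28599baca9, 0x542f26b5, 0x1fe2ae1d394ced5d54, 0x6dca81e741268fe66, 0x724e6c282a, 0x13cf0b786a6, 0x1fe2ae25e194a7fceb, 0x78f09348f5af, 0xa6a805c027b4b4cf, 0x6dcade5ac653ac147, 0x1f42f94fe5d003170c, 0x1307f575f8e2977, 0x25f2822b85e5a6929a],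
  [0, 0, 0, 0, 0, 0, 0, 0, 0, 0, 0, 0, 0, 0, 0, 0, 0, 0, 0, 0, 0, 0, 0, 0, 0, 0, 0, 0, 0, 0, 0, 0, 0, 0, 0, 0, 0, 0, 0, 0, 0, 0, 0, 0, 0, 0, 0, 0, 0, 0x23394a27240218fa87, 0x23394a272412ef3578, 0x17105f49ef227c84b49, 0x123a54d3a27f7a2a309, 0xb1b554ba7adcac489e, 0x142426c7e2da101c890, 0x17105f49ee9bca572c8, 0x123a54d7646ada74d52, 0x1420d7f57c7328905f3, 0xb3fb513b01a8accc4f, 0x7cfa12ac96d5434bd6],
  [0, 0, 0, 0, 0, 0, 0, 0, 0, 0, 0, 0, 0, 0, 0, 0, 0, 0, 0, 0, 0, 0, 0, 0, 0, 0, 0, 0, 0, 0, 0, 0, 0, 0, 0, 0, 0, 0, 0, 0x2579c6ad28599baca9, 0x38611246f2a79d1f5, 0x9769bfdea6cdae85a3, 0x386112465904c31d5, 0x2579c6ad6be50a4700, 0x125e5cf8302ef4f9fed, 0x6dca82b69d978101b, 0x386114244f9602526, 0x148e9103a3285524e07],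
  [0, 0, 0, 0, 0, 0, 0, 0, 0, 0, 0, 0, 0, 0, 0, 0, 0, 0, 0, 0, 0, 0, 0, 0, 0, 0, 0, 0, 0, 0x23394a27240218fa87, 0x1fe2ae1d3710798952, 0xfdcf7995152e426ce6, 0x2579c6ad221a1bc935, 0xfdcf7994e91d94464b, 0x1fe2ae1dcc2994bc8a, 0xe2b867378e1e04c385],
  [0, 0, 0, 0, 0, 0, 0, 0, 0, 0, 0, 0, 0, 0, 0, 0, 0, 0, 0, 0x2579c6ad28599baca9, 0x6dca81e7708115ac3, 0x142426c7e2c71f26898, 0x9769bfdeaa8d619ff0, 0x1491f13e31cfef5f26b],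
  [0, 0, 0, 0, 0, 0, 0, 0, 0, 0x23394a27240218fa87, 0x2579c6ad286a71e79a, 0x50e5c0984e849fa851]]

theorem eta_12_6_b : etaB 0xcec7 7 6 1 26 12 6 [9, 10] tbl_12_6_b []
    [59, 51, 44, 36, 27, 19, 12, 4] = true := by decide +kernel

theorem path_12_6_b : pathB 12 6 21 [.N 1, .N 1, .M 7 [(0, [(53, 0), (5, 6), (1, 8)]), (7, [(46, 0), (5, 6)]), (14, [(39, 0), (4, 5), (1, 6)]), (21, [(32, 0), (3, 4), (1, 5)]), (28, [(25, 0), (2, 2)]), (35, [(18, 0), (2, 2)]), (42, [(11, 0), (1, 1)]), (49, [(4, 0)])]]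
    [59, 51, 44, 36, 27, 19, 12, 4] = true := by decide +kernel

end Pool.Agent.Helper22.E6
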