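import Pool.Agent.Helper22.E6.EtaCase

set_option autoImplicit false

/-! # Germ certificate for (r, m, d) = (21, 9, 42), part a (helper22), MP_e6aa12_ag -/

namespace Pool.Agent.Helper22.E6

/-- the functionals for `(r, m, d) = (21, 9, 42)`, germ exponents [20], modulo 0 -/
def tbl_21_9_a : List (List ℕ) := [
  [],
  [],
  [],
  [0, 0, 0, 0, 0, 0, 0, 0, 0, 0, 0, 0, 0, 0, 0, 0, 0, 0, 0, 0, 0, 0, 0, 0, 0, 0, 0, 0, 0, 0, 0, 0, 0, 0, 0, 0, 0, 0, 0, 0, 0, 0, 0, 0, 0, 0, 0, 0, 0, 0, 0, 0, 0, 0, 0, 0, 0, 0, 0, 0, 0, 0, 0, 0, 0, 0, 0, 0, 0, 0, 0, 0, 0, 0, 0, 0, 0, 0, 0, 0, 0, 0, 0, 0, 0, 0, 0, 0, 0, 0, 0, 0, 0, 0, 0, 0, 0, 0, 0, 0, 0, 0, 0, 0, 0, 0, 0, 0, 0, 0, 0, 0, 0, 0, 0, 0, 0, 0, 0, 0, 0, 0, 0, 0, 0, 9],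
  [],
  [],
  [],
  [],
  [0, 0, 0, 0, 0, 0, 0, 0, 0, 0, 0, 0, 0, 0, 0, 0, 0, 0, 0, 0, 44]]

theorem eta_21_9_a : etaB 0x3097 11 0 36 2 21 9 [20] tbl_21_9_a []
    [189, 168, 147, 125, 106, 84, 63, 42, 20, 1] = true := by decide +kernel

theorem path_21_9_a : pathB 21 9 42 [.N 1, .N 1, .M 7 [(0, [(106, 0), (11, 15), (1, 16)]), (7, [(99, 0), (10, 14), (1, 15)]), (14, [(92, 0), (9, 12), (1, 14)]), (21, [(85, 0), (9, 12)]), (28, [(78, 0), (8, 11), (1, 12)]), (35, [(71, 0), (7, 10), (1, 11)]), (42, [(64, 0), (6, 8), (1, 10)]), (49, [(57, 0), (6, 8)]), (56, [(50, 0), (5, 7)]), (63, [(43, 0), (4, 6)]), (70, [(36, 0), (3, 4)]), (77, [(29, 0), (3, 4)]), (84, [(22, 0), (2, 3)]), (91, [(15, 0), (1, 2)]), (98, [(8, 0)]), (105, [(1, 0)])], .N 5]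
    [189, 168, 147, 125, 106, 84, 63, 42, 20, 1] = true := by decide +kernel

end Pool.Agent.Helper22.E6
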