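import Pool.Agent.Helper22.E6.Crit

set_option autoImplicit false

/-! # Certificates for m = 1, 2, 3, 4 (helper22), MP_e6aa12_ag -/

namespace Pool.Agent.Helper22.E6

variable {K : Type*} [Field K]

/-! ### m = 1 -/

/-- certificates for `m = 1`, `10 ≤ r < 36` -/
def cert_1_0 : List Cert := [
  ⟨11, 3, 1, 4, [.N 3]⟩,
  ⟨11, 4, 3, 2, []⟩,
  ⟨13, 3, 1, 4, [.N 3]⟩,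
  ⟨13, 4, 1, 5, [.N 3]⟩,
  ⟨15, 4, 1, 5, [.N 4]⟩,
  ⟨17, 4, 1, 5, [.N 4]⟩,
  ⟨19, 4, 1, 5, [.N 4]⟩,
  ⟨22, 6, 4, 2, []⟩,
  ⟨24, 6, 1, 7, [.N 4]⟩,
  ⟨26, 6, 1, 7, [.N 5]⟩,
  ⟨28, 6, 1, 7, [.N 6]⟩,
  ⟨30, 6, 1, 7, [.N 6]⟩,
  ⟨32, 6, 1, 7, [.N 6]⟩,
  ⟨34, 6, 1, 7, [.N 6]⟩]

theorem tab_1_0 : tabB 1 cert_1_0 26 10 3 = true := by decide +kernel

theorem small_1 [Infinite K] (r : ℕ) (hr : 10 ≤ r) (d : ℕ) : Case K r 1 d := by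
  rcases Nat.lt_or_ge r 36 with h | h
  · exact case_of_tabB 1 _ 26 10 3 tab_1_0 r (by omega) (by omega) d
  · exact case_large r 1 (by norm_num) (by omega) d

/-! ### m = 2 -/

/-- certificates for `m = 2`, `10 ≤ r < 57` -/
def cert_2_0 : List Cert := [
  ⟨11, 6, 1, 7, [.N 3]⟩,
  ⟨11, 7, 2, 4, [.N 3]⟩,
  ⟨12, 8, 3, 3, []⟩,
  ⟨13, 7, 1, 8, [.N 3]⟩,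
  ⟨14, 8, 1, 9, [.N 3]⟩,
  ⟨16, 8, 3, 3, [.N 3]⟩,
  ⟨16, 9, 4, 3, []⟩,
  ⟨18, 8, 1, 9, [.N 4]⟩,
  ⟨18, 9, 3, 4, [.N 4]⟩,
  ⟨20, 9, 1, 10, [.N 4]⟩,
  ⟨20, 10, 1, 11, [.N 4]⟩,
  ⟨22, 10, 4, 3, [.N 3]⟩,
  ⟨24, 10, 2, 6, [.N 7]⟩,
  ⟨27, 12, 5, 3, []⟩,
  ⟨29, 12, 2, 7, [.N 7]⟩,
  ⟨31, 12, 4, 4, [.N 7]⟩,
  ⟨31, 13, 1, 14, [.N 5]⟩,
  ⟨33, 12, 3, 5, [.N 9]⟩,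
  ⟨33, 13, 1, 14, [.N 5]⟩,
  ⟨35, 13, 5, 3, [.N 5]⟩,
  ⟨37, 13, 4, 4, [.N 9]⟩,
  ⟨39, 13, 1, 14, [.N 6]⟩,
  ⟨46, 16, 1, 17, [.N 6]⟩,
  ⟨48, 16, 1, 17, [.N 6]⟩,
  ⟨50, 16, 5, 4, [.N 11]⟩,
  ⟨52, 16, 5, 4, [.N 13]⟩,
  ⟨54, 16, 3, 6, [.N 15]⟩,
  ⟨56, 16, 3, 6, [.N 15]⟩]

theorem tab_2_0 : tabB 2 cert_2_0 47 10 6 = true := by decide +kernel

theorem small_2 [Infinite K] (r : ℕ) (hr : 10 ≤ r) (d : ℕ) : Case K r 2 d := by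
  rcases Nat.lt_or_ge r 57 with h | h
  · exact case_of_tabB 2 _ 47 10 6 tab_2_0 r (by omega) (by omega) d
  · exact case_large r 2 (by norm_num) (by omega) d

/-! ### m = 3 -/

/-- certificates for `m = 3`, `10 ≤ r < 88` -/
def cert_3_0 : List Cert := [
  ⟨10, 10, 3, 4, []⟩,
  ⟨11, 10, 3, 4, [.N 1]⟩,
  ⟨12, 10, 2, 6, [.N 3]⟩,
  ⟨12, 11, 2, 6, [.N 3]⟩,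
  ⟨14, 11, 1, 12, [.N 3]⟩,
  ⟨14, 12, 1, 13, [.N 3]⟩,
  ⟨16, 12, 3, 5, [.N 3]⟩,
  ⟨16, 13, 4, 4, []⟩,
  ⟨18, 13, 3, 5, [.N 4]⟩,
  ⟨18, 14, 4, 4, []⟩,
  ⟨20, 14, 4, 4, [.N 2]⟩,
  ⟨21, 15, 2, 8, [.N 5]⟩,
  ⟨22, 14, 1, 15, [.N 4]⟩,
  ⟨23, 15, 3, 6, [.N 5, .N 1]⟩,
  ⟨23, 16, 1, 17, [.N 4]⟩,
  ⟨25, 15, 3, 6, [.N 6]⟩,
  ⟨25, 16, 5, 4, []⟩,
  ⟨27, 16, 2, 9, [.N 7]⟩,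
  ⟨27, 17, 3, 6, [.N 6]⟩,
  ⟨29, 17, 4, 5, [.N 6]⟩,
  ⟨29, 18, 2, 10, [.N 7]⟩,
  ⟨31, 17, 1, 18, [.N 5]⟩,
  ⟨31, 18, 5, 4, [.N 3]⟩,
  ⟨33, 18, 5, 4, [.N 4]⟩,
  ⟨36, 20, 6, 4, []⟩,
  ⟨38, 20, 5, 5, [.N 6]⟩,
  ⟨40, 20, 4, 6, [.N 10]⟩,
  ⟨40, 21, 2, 11, [.N 9]⟩,
  ⟨42, 20, 1, 21, [.N 6]⟩,
  ⟨42, 21, 6, 4, [.N 3]⟩,
  ⟨44, 21, 5, 5, [.N 9]⟩,
  ⟨44, 22, 2, 12, [.N 9]⟩,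
  ⟨46, 22, 6, 4, [.N 5]⟩,
  ⟨48, 22, 4, 6, [.N 13]⟩,
  ⟨55, 25, 2, 13, [.N 11]⟩,
  ⟨57, 25, 2, 13, [.N 11]⟩,
  ⟨59, 25, 6, 5, [.N 11]⟩,
  ⟨59, 26, 1, 27, [.N 7]⟩,
  ⟨61, 25, 5, 6, [.N 15]⟩,
  ⟨61, 26, 4, 7, [.N 15]⟩,
  ⟨63, 26, 7, 4, [.N 7]⟩,
  ⟨65, 26, 6, 5, [.N 13]⟩,
  ⟨67, 26, 3, 9, [.N 17]⟩,
  ⟨78, 30, 1, 31, [.N 8]⟩,
  ⟨80, 30, 1, 31, [.N 8]⟩,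
  ⟨82, 30, 8, 4, [.N 9]⟩,
  ⟨84, 30, 8, 4, [.N 10]⟩,
  ⟨86, 30, 6, 6, [.N 21]⟩]

theorem tab_3_0 : tabB 3 cert_3_0 78 10 9 = true := by decide +kernel

theorem small_3 [Infinite K] (r : ℕ) (hr : 10 ≤ r) (d : ℕ) : Case K r 3 d := by
  rcases Nat.lt_or_ge r 88 with h | h
  · exact case_of_tabB 3 _ 78 10 9 tab_3_0 r (by omega) (by omega) d
  · exact case_large r 3 (by norm_num) (by omega) d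

/-! ### m = 4 -/

/-- certificates for `m = 4`, `10 ≤ r < 78` -/
def cert_4_0 : List Cert := [
  ⟨10, 12, 3, 5, [.N 1]⟩,
  ⟨10, 13, 2, 7, [.N 1, .N 2]⟩,
  ⟨11, 13, 3, 5, [.N 1]⟩,
  ⟨12, 14, 2, 8, [.N 1, .M 7 [(0, [(36, 0), (3, 4)]), (7, [(29, 0), (3, 4)]), (14, [(22, 0), (2, 3)]), (21, [(15, 0), (1, 2)]), (28, [(8, 0)]), (35, [(1, 0)])], .N 2]⟩,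
  ⟨12, 15, 2, 8, [.N 3]⟩,
  ⟨14, 15, 2, 8, [.N 3, .N 1]⟩,
  ⟨14, 16, 1, 17, [.N 3]⟩,
  ⟨16, 16, 3, 6, [.N 3]⟩,
  ⟨16, 17, 4, 5, []⟩,
  ⟨18, 17, 3, 6, [.N 4]⟩,
  ⟨18, 18, 3, 7, [.N 4]⟩,
  ⟨19, 18, 3, 7, [.N 1, .M 12 [(0, [(60, 0), (4, 5)]), (12, [(48, 0), (3, 4)]), (24, [(36, 0), (2, 3)]), (36, [(24, 0), (1, 2)]), (48, [(12, 0)])], .N 3]⟩,
  ⟨19, 19, 2, 10, [.N 5]⟩,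
  ⟨20, 18, 3, 7, [.N 5]⟩,
  ⟨21, 19, 2, 10, [.N 1, .N 1, .N 1, .N 1, .N 2, .N 2]⟩,
  ⟨21, 20, 2, 11, [.N 5]⟩,
  ⟨23, 19, 1, 20, [.N 4]⟩,
  ⟨23, 20, 3, 7, [.N 4, .N 2]⟩,
  ⟨25, 20, 3, 7, [.N 6]⟩,
  ⟨25, 21, 5, 5, []⟩,
  ⟨27, 21, 3, 8, [.N 7]⟩,
  ⟨27, 22, 4, 6, [.N 5]⟩,
  ⟨29, 22, 4, 6, [.N 6]⟩,
  ⟨29, 23, 2, 12, [.N 7]⟩,
  ⟨30, 24, 2, 13, [.N 7]⟩,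
  ⟨31, 23, 5, 5, [.N 3]⟩,
  ⟨32, 24, 3, 9, [.N 8]⟩,
  ⟨34, 24, 3, 9, [.N 9]⟩,
  ⟨34, 25, 4, 7, [.N 7]⟩,
  ⟨36, 25, 5, 6, [.N 5]⟩,
  ⟨36, 26, 6, 5, []⟩,
  ⟨38, 26, 3, 9, [.N 8, .N 3]⟩,
  ⟨38, 27, 6, 5, []⟩,
  ⟨40, 26, 4, 7, [.N 10]⟩,
  ⟨40, 27, 3, 10, [.N 10]⟩,
  ⟨42, 27, 5, 6, [.N 8]⟩,
  ⟨42, 28, 2, 15, [.N 9]⟩,
  ⟨44, 28, 6, 5, [.N 4]⟩,
  ⟨46, 28, 3, 10, [.N 12]⟩,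
  ⟨47, 30, 1, 31, [.N 6]⟩,
  ⟨49, 30, 7, 5, []⟩,
  ⟨51, 30, 6, 6, [.N 7]⟩,
  ⟨51, 31, 3, 11, [.N 12]⟩,
  ⟨53, 31, 5, 7, [.N 7, .N 5, .N 1]⟩,
  ⟨53, 32, 2, 17, [.N 11]⟩,
  ⟨55, 31, 5, 7, [.N 13]⟩,
  ⟨55, 32, 5, 7, [.N 12]⟩,
  ⟨57, 32, 7, 5, [.N 4]⟩,
  ⟨57, 33, 2, 17, [.N 11]⟩,
  ⟨59, 32, 5, 7, [.N 14]⟩,
  ⟨59, 33, 7, 5, [.N 5]⟩,
  ⟨61, 33, 7, 5, [.N 6]⟩,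
  ⟨68, 36, 3, 13, [.N 16]⟩,
  ⟨70, 36, 8, 5, [.N 3]⟩,
  ⟨72, 36, 6, 7, [.N 16]⟩,
  ⟨72, 37, 2, 19, [.N 13]⟩,
  ⟨74, 36, 5, 8, [.N 19]⟩,
  ⟨74, 37, 8, 5, [.N 5]⟩,
  ⟨76, 37, 7, 6, [.N 13]⟩,
  ⟨76, 38, 3, 13, [.N 17]⟩]

theorem tab_4_0 : tabB 4 cert_4_0 68 10 12 = true := by decide +kernel

/-- certificates for `m = 4`, `78 ≤ r < 128` -/
def cert_4_1 : List Cert := [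
  ⟨78, 38, 8, 5, [.N 7]⟩,
  ⟨80, 38, 6, 7, [.N 19]⟩,
  ⟨91, 42, 2, 22, [.N 15]⟩,
  ⟨93, 42, 3, 15, [.N 20]⟩,
  ⟨95, 42, 9, 5, [.N 7]⟩,
  ⟨95, 43, 1, 44, [.N 9]⟩,
  ⟨97, 42, 7, 7, [.N 21]⟩,
  ⟨97, 43, 5, 9, [.N 24]⟩,
  ⟨99, 43, 9, 5, [.N 9]⟩,
  ⟨101, 43, 8, 6, [.N 17]⟩,
  ⟨103, 43, 7, 7, [.N 23]⟩,
  ⟨118, 48, 1, 49, [.N 10]⟩,
  ⟨120, 48, 1, 49, [.N 10]⟩,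
  ⟨122, 48, 10, 5, [.N 11]⟩,
  ⟨124, 48, 10, 5, [.N 12]⟩,
  ⟨126, 48, 8, 7, [.N 27]⟩]

theorem tab_4_1 : tabB 4 cert_4_1 50 78 38 = true := by decide +kernel

theorem small_4 [Infinite K] (r : ℕ) (hr : 10 ≤ r) (d : ℕ) : Case K r 4 d := by
  rcases Nat.lt_or_ge r 128 with h | h
  · by_cases c0 : r < 78
    · exact case_of_tabB 4 _ 68 10 12 tab_4_0 r (by omega) (by omega) d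
    exact case_of_tabB 4 _ 50 78 38 tab_4_1 r (by omega) (by omega) d
  · exact case_large r 4 (by norm_num) (by omega) d

end Pool.Agent.Helper22.E6
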