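import Pool.Agent.Helper22.E6.Crit

set_option autoImplicit false

/-! # Certificates for m = 5, 6 (helper22), MP_e6aa12_ag -/

namespace Pool.Agent.Helper22.E6

variable {K : Type*} [Field K]

/-! ### m = 5 -/

/-- certificates for `m = 5`, `10 ≤ r < 68` -/
def cert_5_0 : List Cert := [
  ⟨10, 15, 3, 6, [.N 1]⟩,
  ⟨10, 16, 2, 9, [.N 1, .M 8 [(0, [(41, 0), (8, 5), (2, 6)]), (8, [(33, 0), (7, 4), (1, 5)]), (16, [(25, 0), (5, 3)]), (24, [(17, 0), (3, 2)]), (32, [(9, 0), (1, 1)]), (40, [(1, 0)])]]⟩,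
  ⟨11, 16, 2, 9, [.N 3]⟩,
  ⟨12, 17, 2, 9, [.N 3]⟩,
  ⟨12, 18, 2, 10, [.N 3]⟩,
  ⟨14, 19, 2, 10, [.N 1, .N 1, .M 10 [(0, [(55, 0), (8, 5), (2, 6)]), (10, [(45, 0), (6, 4), (2, 5)]), (20, [(35, 0), (5, 3), (1, 4)]), (30, [(25, 0), (4, 2)]), (40, [(15, 0), (2, 1)]), (50, [(5, 0)])], .N 1]⟩,
  ⟨14, 20, 1, 21, [.N 3]⟩,
  ⟨16, 20, 3, 7, [.N 3]⟩,
  ⟨16, 21, 4, 6, []⟩,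
  ⟨17, 21, 2, 11, [.N 1, .N 2, .N 1, .N 2]⟩,
  ⟨17, 22, 4, 6, []⟩,
  ⟨18, 21, 3, 8, [.N 4]⟩,
  ⟨18, 22, 4, 6, [.N 1]⟩,
  ⟨19, 22, 3, 8, [.N 2, .N 3]⟩,
  ⟨19, 23, 2, 12, [.N 5]⟩,
  ⟨21, 23, 3, 8, [.N 5]⟩,
  ⟨21, 24, 2, 13, [.N 5]⟩,
  ⟨23, 24, 1, 25, [.N 4]⟩,
  ⟨23, 25, 4, 7, [.N 2, .N 1]⟩,
  ⟨25, 25, 3, 9, [.N 6]⟩,
  ⟨25, 26, 5, 6, []⟩,
  ⟨27, 26, 3, 9, [.N 7]⟩,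
  ⟨27, 27, 5, 6, [.N 1]⟩,
  ⟨28, 28, 3, 10, [.N 7]⟩,
  ⟨29, 28, 5, 6, [.N 2]⟩,
  ⟨30, 28, 4, 8, [.N 6]⟩,
  ⟨30, 29, 2, 15, [.N 7]⟩,
  ⟨32, 29, 4, 8, [.N 7]⟩,
  ⟨32, 30, 3, 11, [.N 8]⟩,
  ⟨34, 30, 5, 7, [.N 4]⟩,
  ⟨34, 31, 4, 8, [.N 7]⟩,
  ⟨36, 31, 5, 7, [.N 5]⟩,
  ⟨36, 32, 6, 6, []⟩,
  ⟨38, 32, 5, 7, [.N 5, .N 1]⟩,
  ⟨38, 33, 3, 12, [.N 9]⟩,
  ⟨40, 33, 6, 6, [.N 2]⟩,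
  ⟨40, 34, 2, 18, [.N 9]⟩,
  ⟨42, 34, 6, 6, [.N 3]⟩,
  ⟨43, 35, 2, 18, [.N 9]⟩,
  ⟨44, 34, 4, 9, [.N 11]⟩,
  ⟨45, 35, 5, 8, [.N 8, .N 1]⟩,
  ⟨45, 36, 3, 13, [.N 11]⟩,
  ⟨47, 36, 4, 10, [.N 9, .N 4]⟩,
  ⟨47, 37, 1, 38, [.N 6]⟩,
  ⟨49, 36, 5, 8, [.N 10]⟩,
  ⟨49, 37, 7, 6, []⟩,
  ⟨51, 37, 5, 8, [.N 11]⟩,
  ⟨51, 38, 6, 7, [.N 7]⟩,
  ⟨53, 38, 6, 7, [.N 8]⟩,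
  ⟨53, 39, 3, 14, [.N 13]⟩,
  ⟨55, 39, 7, 6, [.N 3]⟩,
  ⟨55, 40, 2, 21, [.N 11]⟩,
  ⟨57, 39, 4, 10, [.N 15]⟩,
  ⟨57, 40, 7, 6, [.N 4]⟩,
  ⟨59, 40, 5, 9, [.N 14]⟩,
  ⟨62, 42, 6, 8, [.N 11]⟩,
  ⟨64, 42, 7, 7, [.N 7]⟩,
  ⟨64, 43, 8, 6, []⟩,
  ⟨66, 43, 4, 11, [.N 15, .N 3]⟩,
  ⟨66, 44, 8, 6, []⟩]

theorem tab_5_0 : tabB 5 cert_5_0 58 10 15 = true := by decide +kernel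

/-- certificates for `m = 5`, `68 ≤ r < 176` -/
def cert_5_1 : List Cert := [
  ⟨68, 43, 5, 9, [.N 17]⟩,
  ⟨68, 44, 4, 12, [.N 17]⟩,
  ⟨70, 44, 7, 7, [.N 10]⟩,
  ⟨70, 45, 2, 23, [.N 13]⟩,
  ⟨72, 44, 4, 12, [.N 19]⟩,
  ⟨72, 45, 8, 6, [.N 4]⟩,
  ⟨74, 45, 8, 6, [.N 5]⟩,
  ⟨74, 46, 3, 16, [.N 17]⟩,
  ⟨76, 46, 8, 6, [.N 6]⟩,
  ⟨78, 46, 5, 10, [.N 20]⟩,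
  ⟨83, 49, 4, 13, [.N 20]⟩,
  ⟨85, 49, 3, 17, [.N 17, .N 5]⟩,
  ⟨85, 50, 3, 17, [.N 19]⟩,
  ⟨87, 49, 6, 9, [.N 21]⟩,
  ⟨87, 50, 3, 17, [.N 19]⟩,
  ⟨89, 50, 4, 13, [.N 20, .N 4]⟩,
  ⟨89, 51, 2, 26, [.N 15]⟩,
  ⟨91, 50, 7, 8, [.N 19]⟩,
  ⟨91, 51, 9, 6, [.N 5]⟩,
  ⟨93, 51, 9, 6, [.N 6]⟩,
  ⟨93, 52, 3, 18, [.N 20]⟩,
  ⟨95, 51, 6, 9, [.N 24]⟩,
  ⟨95, 52, 9, 6, [.N 7]⟩,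
  ⟨97, 52, 9, 6, [.N 8]⟩,
  ⟨108, 56, 2, 29, [.N 17]⟩,
  ⟨110, 56, 10, 6, [.N 5]⟩,
  ⟨112, 56, 9, 7, [.N 15]⟩,
  ⟨112, 57, 3, 20, [.N 23]⟩,
  ⟨114, 56, 7, 9, [.N 27]⟩,
  ⟨114, 57, 10, 6, [.N 7]⟩,
  ⟨116, 57, 10, 6, [.N 8]⟩,
  ⟨116, 58, 4, 15, [.N 27]⟩,
  ⟨118, 58, 10, 6, [.N 9]⟩,
  ⟨120, 58, 8, 8, [.N 25]⟩,
  ⟨135, 63, 2, 32, [.N 19]⟩,
  ⟨137, 63, 3, 22, [.N 26]⟩,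
  ⟨139, 63, 11, 6, [.N 9]⟩,
  ⟨139, 64, 3, 22, [.N 26]⟩,
  ⟨141, 63, 10, 7, [.N 19]⟩,
  ⟨141, 64, 6, 11, [.N 35]⟩,
  ⟨143, 64, 11, 6, [.N 11]⟩,
  ⟨145, 64, 10, 7, [.N 21]⟩,
  ⟨147, 64, 9, 8, [.N 29]⟩,
  ⟨166, 70, 1, 71, [.N 12]⟩,
  ⟨168, 70, 1, 71, [.N 12]⟩,
  ⟨170, 70, 12, 6, [.N 13]⟩,
  ⟨172, 70, 12, 6, [.N 14]⟩,
  ⟨174, 70, 10, 8, [.N 33]⟩]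

theorem tab_5_1 : tabB 5 cert_5_1 108 68 43 = true := by decide +kernel

theorem small_5 [Infinite K] (r : ℕ) (hr : 10 ≤ r) (d : ℕ) : Case K r 5 d := by
  rcases Nat.lt_or_ge r 176 with h | h
  · by_cases c0 : r < 68
    · exact case_of_tabB 5 _ 58 10 15 tab_5_0 r (by omega) (by omega) d
    exact case_of_tabB 5 _ 108 68 43 tab_5_1 r (by omega) (by omega) d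
  · exact case_large r 5 (by norm_num) (by omega) d

/-! ### m = 6 -/

/-- certificates for `m = 6`, `11 ≤ r < 12` -/
def cert_6_0 : List Cert := [
]

theorem tab_6_0 : tabB 6 cert_6_0 1 11 20 = true := by decide +kernel

/-- certificates for `m = 6`, `13 ≤ r < 66` -/
def cert_6_1 : List Cert := [
  ⟨14, 22, 3, 8, [.N 2]⟩,
  ⟨14, 23, 2, 12, [.N 3, .N 1]⟩,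
  ⟨15, 24, 3, 9, [.N 3]⟩,
  ⟨16, 24, 3, 9, [.N 3]⟩,
  ⟨16, 25, 4, 7, []⟩,
  ⟨17, 25, 3, 9, [.N 1, .N 1, .N 2]⟩,
  ⟨17, 26, 4, 7, []⟩,
  ⟨18, 26, 4, 7, [.N 1]⟩,
  ⟨19, 26, 2, 14, [.N 5]⟩,
  ⟨19, 27, 3, 10, [.N 4]⟩,
  ⟨21, 28, 3, 10, [.N 4, .N 1]⟩,
  ⟨21, 29, 2, 15, [.N 5]⟩,
  ⟨23, 29, 4, 8, [.N 3]⟩,
  ⟨23, 30, 4, 8, [.N 3]⟩,
  ⟨25, 30, 3, 11, [.N 6]⟩,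
  ⟨25, 31, 5, 7, []⟩,
  ⟨26, 32, 4, 9, [.N 5]⟩,
  ⟨27, 32, 4, 9, [.N 5]⟩,
  ⟨27, 33, 3, 12, [.N 7]⟩,
  ⟨28, 32, 3, 11, [.N 7]⟩,
  ⟨28, 33, 3, 12, [.N 5, .N 3]⟩,
  ⟨29, 33, 5, 7, [.N 2]⟩,
  ⟨30, 34, 2, 18, [.N 1, .N 7, .N 1]⟩,
  ⟨30, 35, 2, 18, [.N 7]⟩,
  ⟨32, 35, 4, 9, [.N 6, .N 1]⟩,
  ⟨32, 36, 3, 13, [.N 8]⟩,
  ⟨34, 36, 3, 13, [.N 8, .N 1]⟩,
  ⟨34, 37, 4, 10, [.N 7]⟩,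
  ⟨36, 37, 5, 8, [.N 5]⟩,
  ⟨36, 38, 6, 7, []⟩,
  ⟨38, 38, 4, 10, [.N 9]⟩,
  ⟨38, 39, 4, 10, [.N 9]⟩,
  ⟨40, 39, 5, 8, [.N 7]⟩,
  ⟨40, 40, 3, 14, [.N 10]⟩,
  ⟨41, 40, 5, 9, [.N 2, .M 30 [(0, [(210, 0), (6, 7)]), (30, [(180, 0), (5, 6)]), (60, [(150, 0), (4, 5)]), (90, [(120, 0), (3, 4)]), (120, [(90, 0), (2, 3)]), (150, [(60, 0), (1, 2)]), (180, [(30, 0)])], .N 5]⟩,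
  ⟨41, 41, 2, 21, [.N 9]⟩,
  ⟨42, 40, 5, 9, [.N 8]⟩,
  ⟨43, 41, 5, 9, [.N 2, .M 31 [(0, [(216, 0), (10, 6), (2, 7)]), (31, [(185, 0), (8, 5), (2, 6)]), (62, [(154, 0), (6, 4), (2, 5)]), (93, [(123, 0), (4, 3), (2, 4)]), (124, [(92, 0), (2, 2), (2, 3)]), (155, [(61, 0), (1, 1), (1, 2)]), (186, [(30, 0)])], .N 5]⟩,
  ⟨43, 42, 2, 22, [.N 9]⟩,
  ⟨45, 41, 4, 11, [.N 11]⟩,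
  ⟨45, 42, 3, 15, [.N 3, .N 9, .N 3]⟩,
  ⟨47, 42, 3, 15, [.N 12]⟩,
  ⟨47, 43, 3, 15, [.N 4, .N 9, .N 3]⟩,
  ⟨49, 43, 5, 9, [.N 10]⟩,
  ⟨49, 44, 7, 7, []⟩,
  ⟨51, 44, 4, 12, [.N 13]⟩,
  ⟨51, 45, 7, 7, [.N 1]⟩,
  ⟨53, 45, 5, 10, [.N 12]⟩,
  ⟨53, 46, 4, 12, [.N 13]⟩,
  ⟨55, 46, 6, 8, [.N 9]⟩,
  ⟨55, 47, 5, 10, [.N 12]⟩,
  ⟨56, 48, 2, 25, [.N 11]⟩,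
  ⟨57, 47, 7, 7, [.N 4]⟩,
  ⟨58, 48, 2, 25, [.N 11, .N 1]⟩,
  ⟨60, 48, 6, 9, [.N 11]⟩,
  ⟨60, 49, 4, 13, [.N 15]⟩,
  ⟨62, 49, 6, 9, [.N 12]⟩,
  ⟨62, 50, 5, 11, [.N 14]⟩,
  ⟨64, 50, 7, 8, [.N 7]⟩,
  ⟨64, 51, 8, 7, []⟩]

theorem tab_6_1 : tabB 6 cert_6_1 53 13 21 = true := by decide +kernel

/-- certificates for `m = 6`, `66 ≤ r < 162` -/
def cert_6_2 : List Cert := [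
  ⟨66, 51, 4, 13, [.N 15, .N 3]⟩,
  ⟨66, 52, 8, 7, []⟩,
  ⟨68, 51, 5, 11, [.N 17]⟩,
  ⟨68, 52, 8, 7, [.N 2]⟩,
  ⟨70, 52, 7, 8, [.N 10]⟩,
  ⟨70, 53, 3, 18, [.N 16]⟩,
  ⟨72, 53, 8, 7, [.N 4]⟩,
  ⟨72, 54, 2, 28, [.N 13]⟩,
  ⟨74, 54, 8, 7, [.N 5]⟩,
  ⟨77, 56, 4, 15, [.N 19]⟩,
  ⟨79, 56, 7, 9, [.N 5, .N 10]⟩,
  ⟨79, 57, 1, 58, [.N 8]⟩,
  ⟨81, 56, 6, 10, [.N 19]⟩,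
  ⟨81, 57, 9, 7, []⟩,
  ⟨83, 57, 8, 8, [.N 9]⟩,
  ⟨83, 58, 6, 10, [.N 19]⟩,
  ⟨85, 58, 8, 8, [.N 10]⟩,
  ⟨85, 59, 3, 20, [.N 19]⟩,
  ⟨87, 58, 6, 10, [.N 21]⟩,
  ⟨87, 59, 9, 7, [.N 3]⟩,
  ⟨89, 59, 8, 8, [.N 12]⟩,
  ⟨89, 60, 5, 13, [.N 22]⟩,
  ⟨91, 60, 9, 7, [.N 5]⟩,
  ⟨91, 61, 2, 31, [.N 15]⟩,
  ⟨93, 61, 9, 7, [.N 6]⟩,
  ⟨95, 61, 8, 8, [.N 14]⟩,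
  ⟨100, 64, 10, 7, []⟩,
  ⟨102, 64, 5, 13, [.N 24, .N 3]⟩,
  ⟨104, 64, 8, 9, [.N 18]⟩,
  ⟨104, 65, 4, 17, [.N 25]⟩,
  ⟨106, 65, 9, 8, [.N 12]⟩,
  ⟨106, 66, 3, 23, [.N 22]⟩,
  ⟨108, 65, 8, 9, [.N 20]⟩,
  ⟨108, 66, 10, 7, [.N 4]⟩,
  ⟨110, 66, 10, 7, [.N 5]⟩,
  ⟨110, 67, 2, 34, [.N 17]⟩,
  ⟨112, 67, 10, 7, [.N 6]⟩,
  ⟨112, 68, 2, 35, [.N 17]⟩,
  ⟨114, 67, 8, 9, [.N 22]⟩,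
  ⟨114, 68, 3, 23, [.N 23]⟩,
  ⟨116, 68, 10, 7, [.N 8]⟩,
  ⟨118, 68, 7, 10, [.N 28]⟩,
  ⟨127, 72, 4, 19, [.N 29]⟩,
  ⟨129, 72, 3, 25, [.N 22, .N 11]⟩,
  ⟨129, 73, 2, 37, [.N 19]⟩,
  ⟨131, 72, 9, 9, [.N 23]⟩,
  ⟨131, 73, 10, 8, [.N 15]⟩,
  ⟨133, 73, 11, 7, [.N 6]⟩,
  ⟨133, 74, 2, 38, [.N 19]⟩,
  ⟨135, 73, 8, 10, [.N 30]⟩,
  ⟨135, 74, 11, 7, [.N 7]⟩,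
  ⟨137, 74, 11, 7, [.N 8]⟩,
  ⟨137, 75, 3, 26, [.N 26]⟩,
  ⟨139, 74, 7, 11, [.N 35]⟩,
  ⟨139, 75, 11, 7, [.N 9]⟩,
  ⟨141, 75, 11, 7, [.N 10]⟩,
  ⟨156, 80, 2, 41, [.N 21]⟩,
  ⟨158, 80, 12, 7, [.N 7]⟩,
  ⟨160, 80, 11, 8, [.N 19]⟩,
  ⟨160, 81, 3, 28, [.N 29]⟩]

theorem tab_6_2 : tabB 6 cert_6_2 96 66 51 = true := by decide +kernel

/-- certificates for `m = 6`, `162 ≤ r < 231` -/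
def cert_6_3 : List Cert := [
  ⟨162, 80, 10, 9, [.N 28]⟩,
  ⟨162, 81, 12, 7, [.N 9]⟩,
  ⟨164, 81, 12, 7, [.N 10]⟩,
  ⟨164, 82, 4, 21, [.N 35]⟩,
  ⟨166, 82, 12, 7, [.N 11]⟩,
  ⟨168, 82, 10, 9, [.N 31]⟩,
  ⟨187, 88, 3, 30, [.N 32]⟩,
  ⟨189, 88, 4, 23, [.N 39]⟩,
  ⟨191, 88, 13, 7, [.N 11]⟩,
  ⟨191, 89, 4, 23, [.N 39]⟩,
  ⟨193, 88, 12, 8, [.N 23]⟩,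
  ⟨193, 89, 12, 8, [.N 24]⟩,
  ⟨195, 89, 13, 7, [.N 13]⟩,
  ⟨197, 89, 13, 7, [.N 13]⟩,
  ⟨199, 89, 11, 9, [.N 35]⟩,
  ⟨222, 96, 1, 97, [.N 14]⟩,
  ⟨224, 96, 1, 97, [.N 14]⟩,
  ⟨226, 96, 14, 7, [.N 15]⟩,
  ⟨228, 96, 14, 7, [.N 16]⟩,
  ⟨230, 96, 12, 9, [.N 39]⟩]

theorem tab_6_3 : tabB 6 cert_6_3 69 162 80 = true := by decide +kernel

def certx_6_10 : List Cert := [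
  ⟨10, 20, 3, 7, []⟩]

theorem tabx_6_10 : certB 10 6 20 certx_6_10 = true := by decide +kernel

def certx_6_12 : List Cert := [
  ⟨12, 20, 2, 11, [.N 3]⟩]

theorem tabx_6_12 : certB 12 6 20 certx_6_12 = true := by decide +kernel

theorem small_6 [Infinite K] (r : ℕ) (hr : 10 ≤ r) (h10 : r ≠ 10) (h12 : r ≠ 12) (d : ℕ) : Case K r 6 d := by
  rcases Nat.lt_or_ge r 231 with h | h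
  · by_cases c0 : r < 12
    · exact case_of_tabB 6 _ 1 11 20 tab_6_0 r (by omega) (by omega) d
    by_cases c1 : r < 66
    · exact case_of_tabB 6 _ 53 13 21 tab_6_1 r (by omega) (by omega) d
    by_cases c2 : r < 162
    · exact case_of_tabB 6 _ 96 66 51 tab_6_2 r (by omega) (by omega) d
    exact case_of_tabB 6 _ 69 162 80 tab_6_3 r (by omega) (by omega) d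
  · exact case_large r 6 (by norm_num) (by omega) d

end Pool.Agent.Helper22.E6
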