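import Pool.Agent.Helper22.E6.Crit

set_option autoImplicit false

/-! # Certificates for m = 7 (helper22), MP_e6aa12_ag -/

namespace Pool.Agent.Helper22.E6

variable {K : Type*} [Field K]

/-! ### m = 7 -/

/-- certificates for `m = 7`, `10 ≤ r < 56` -/
def cert_7_0 : List Cert := [
  ⟨10, 22, 2, 12, [.N 1, .M 8 [(0, [(56, 0), (12, 7), (2, 8)]), (8, [(48, 0), (10, 6), (2, 7)]), (16, [(40, 0), (8, 5), (2, 6)]), (24, [(32, 0), (7, 4)]), (32, [(24, 0), (5, 3)]), (40, [(16, 0), (3, 2)]), (48, [(8, 0), (1, 1)])]]⟩,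
  ⟨10, 23, 2, 12, [.N 1, .N 2]⟩,
  ⟨12, 24, 2, 13, [.N 3]⟩,
  ⟨12, 25, 2, 13, [.N 3]⟩,
  ⟨14, 26, 2, 14, [.N 3, .N 1]⟩,
  ⟨14, 27, 3, 10, [.N 2]⟩,
  ⟨15, 27, 3, 10, [.N 2, .N 1]⟩,
  ⟨15, 28, 3, 10, [.N 3]⟩,
  ⟨16, 28, 3, 10, [.N 3]⟩,
  ⟨16, 29, 4, 8, []⟩,
  ⟨17, 29, 3, 10, [.N 2, .N 2]⟩,
  ⟨17, 30, 3, 11, [.N 2, .N 2]⟩,
  ⟨18, 30, 4, 8, [.N 1]⟩,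
  ⟨19, 31, 2, 16, [.N 1, .N 4, .N 1]⟩,
  ⟨19, 32, 2, 17, [.N 5]⟩,
  ⟨21, 32, 3, 11, [.N 5]⟩,
  ⟨21, 33, 3, 12, [.N 4, .N 1]⟩,
  ⟨23, 34, 3, 12, [.N 4, .N 2]⟩,
  ⟨23, 35, 4, 9, [.N 3]⟩,
  ⟨24, 36, 1, 37, [.N 4]⟩,
  ⟨25, 35, 3, 12, [.N 6]⟩,
  ⟨25, 36, 5, 8, []⟩,
  ⟨26, 36, 5, 8, [.N 1]⟩,
  ⟨26, 37, 3, 13, [.N 5, .N 2]⟩,
  ⟨27, 37, 4, 10, [.N 5]⟩,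
  ⟨27, 38, 4, 10, [.N 5]⟩,
  ⟨28, 38, 2, 20, [.N 1, .N 6, .N 2]⟩,
  ⟨28, 39, 3, 14, [.N 7]⟩,
  ⟨29, 38, 2, 20, [.N 7]⟩,
  ⟨30, 39, 4, 10, [.N 6]⟩,
  ⟨30, 40, 2, 21, [.N 7]⟩,
  ⟨32, 40, 4, 11, [.N 7]⟩,
  ⟨32, 41, 3, 14, [.N 8]⟩,
  ⟨34, 42, 3, 15, [.N 8, .N 1]⟩,
  ⟨34, 43, 4, 11, [.N 7]⟩,
  ⟨36, 43, 5, 9, [.N 5]⟩,
  ⟨36, 44, 6, 8, []⟩,
  ⟨37, 45, 6, 8, []⟩,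
  ⟨38, 44, 4, 12, [.N 9]⟩,
  ⟨38, 45, 5, 10, [.N 6]⟩,
  ⟨39, 45, 4, 12, [.N 7, .N 3]⟩,
  ⟨39, 46, 3, 16, [.N 10]⟩,
  ⟨40, 45, 5, 10, [.N 7]⟩,
  ⟨40, 46, 3, 16, [.N 10]⟩,
  ⟨41, 46, 4, 12, [.N 9, .N 1]⟩,
  ⟨41, 47, 2, 24, [.N 9]⟩,
  ⟨43, 47, 5, 10, [.N 8]⟩,
  ⟨43, 48, 2, 25, [.N 9]⟩,
  ⟨45, 48, 6, 9, [.N 4]⟩,
  ⟨45, 49, 3, 17, [.N 11]⟩,
  ⟨47, 49, 4, 13, [.N 12]⟩,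
  ⟨47, 50, 5, 11, [.N 4, .N 5, .N 1]⟩,
  ⟨49, 50, 5, 11, [.N 10]⟩,
  ⟨49, 51, 7, 8, []⟩,
  ⟨51, 51, 4, 13, [.N 13]⟩,
  ⟨51, 52, 7, 8, [.N 1]⟩,
  ⟨53, 52, 5, 11, [.N 12]⟩,
  ⟨53, 53, 7, 8, [.N 2]⟩,
  ⟨54, 54, 3, 19, [.N 13]⟩,
  ⟨55, 54, 7, 8, [.N 3]⟩]

theorem tab_7_0 : tabB 7 cert_7_0 46 10 22 = true := by decide +kernel

/-- certificates for `m = 7`, `56 ≤ r < 123` -/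
def cert_7_1 : List Cert := [
  ⟨56, 54, 6, 10, [.N 9]⟩,
  ⟨56, 55, 2, 28, [.N 11]⟩,
  ⟨58, 55, 6, 10, [.N 10]⟩,
  ⟨58, 56, 3, 19, [.N 14]⟩,
  ⟨60, 56, 7, 9, [.N 5]⟩,
  ⟨60, 57, 4, 15, [.N 15]⟩,
  ⟨62, 57, 7, 9, [.N 6]⟩,
  ⟨62, 58, 5, 12, [.N 14]⟩,
  ⟨64, 58, 7, 9, [.N 7]⟩,
  ⟨64, 59, 8, 8, []⟩,
  ⟨66, 59, 7, 9, [.N 7, .N 1]⟩,
  ⟨66, 60, 6, 11, [.N 13]⟩,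
  ⟨68, 60, 4, 16, [.N 16, .N 2]⟩,
  ⟨68, 61, 3, 21, [.N 16]⟩,
  ⟨70, 61, 8, 8, [.N 3]⟩,
  ⟨70, 62, 2, 32, [.N 13]⟩,
  ⟨72, 62, 8, 8, [.N 4]⟩,
  ⟨73, 63, 2, 32, [.N 13]⟩,
  ⟨74, 62, 6, 11, [.N 16]⟩,
  ⟨75, 63, 7, 10, [.N 10, .N 2]⟩,
  ⟨75, 64, 3, 22, [.N 17]⟩,
  ⟨77, 64, 3, 22, [.N 16, .N 4]⟩,
  ⟨77, 65, 3, 22, [.N 17]⟩,
  ⟨79, 65, 7, 10, [.N 3, .M 59 [(0, [(468, 0), (25, 7), (4, 8)]), (59, [(409, 0), (21, 6), (4, 7)]), (118, [(350, 0), (17, 5), (4, 6)]), (177, [(291, 0), (13, 4), (4, 5)]), (236, [(232, 0), (9, 3), (4, 4)]), (295, [(173, 0), (5, 2), (4, 3)]), (354, [(114, 0), (4, 1), (1, 2)]), (413, [(55, 0)])], .N 8]⟩,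
  ⟨79, 66, 1, 67, [.N 8]⟩,
  ⟨81, 65, 7, 10, [.N 14]⟩,
  ⟨81, 66, 9, 8, []⟩,
  ⟨83, 66, 7, 10, [.N 15]⟩,
  ⟨83, 67, 8, 9, [.N 9]⟩,
  ⟨85, 67, 8, 9, [.N 9, .N 1]⟩,
  ⟨85, 68, 4, 18, [.N 21]⟩,
  ⟨87, 68, 9, 8, [.N 3]⟩,
  ⟨87, 69, 3, 24, [.N 19]⟩,
  ⟨89, 69, 9, 8, [.N 4]⟩,
  ⟨89, 70, 2, 36, [.N 15]⟩,
  ⟨91, 69, 6, 12, [.N 22]⟩,
  ⟨91, 70, 9, 8, [.N 5]⟩,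
  ⟨93, 70, 7, 11, [.N 19]⟩,
  ⟨94, 72, 3, 25, [.N 20]⟩,
  ⟨96, 72, 5, 15, [.N 24]⟩,
  ⟨98, 72, 7, 11, [.N 21]⟩,
  ⟨98, 73, 9, 9, [.N 8]⟩,
  ⟨100, 73, 9, 9, [.N 9]⟩,
  ⟨100, 74, 10, 8, []⟩,
  ⟨102, 74, 5, 15, [.N 23, .N 5]⟩,
  ⟨102, 75, 10, 8, []⟩,
  ⟨104, 74, 7, 11, [.N 23]⟩,
  ⟨104, 75, 5, 16, [.N 26]⟩,
  ⟨106, 75, 8, 10, [.N 19]⟩,
  ⟨106, 76, 3, 26, [.N 22]⟩,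
  ⟨108, 76, 10, 8, [.N 4]⟩,
  ⟨108, 77, 2, 39, [.N 17]⟩,
  ⟨110, 76, 6, 13, [.N 28]⟩,
  ⟨110, 77, 10, 8, [.N 5]⟩,
  ⟨112, 77, 10, 8, [.N 6]⟩,
  ⟨112, 78, 5, 16, [.N 28]⟩,
  ⟨114, 78, 10, 8, [.N 7]⟩,
  ⟨119, 81, 1, 82, [.N 10]⟩,
  ⟨121, 81, 11, 8, []⟩]

theorem tab_7_1 : tabB 7 cert_7_1 67 56 54 = true := by decide +kernel

/-- certificates for `m = 7`, `123 ≤ r < 251` -/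
def cert_7_2 : List Cert := [
  ⟨123, 81, 10, 9, [.N 11]⟩,
  ⟨123, 82, 10, 9, [.N 11]⟩,
  ⟨125, 82, 3, 28, [.N 22, .N 9]⟩,
  ⟨125, 83, 4, 21, [.N 29]⟩,
  ⟨127, 82, 8, 11, [.N 27]⟩,
  ⟨127, 83, 11, 8, [.N 3]⟩,
  ⟨129, 83, 10, 9, [.N 14]⟩,
  ⟨129, 84, 3, 29, [.N 25]⟩,
  ⟨131, 84, 5, 17, [.N 30, .N 5]⟩,
  ⟨131, 85, 2, 43, [.N 19]⟩,
  ⟨133, 84, 9, 10, [.N 24]⟩,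
  ⟨133, 85, 11, 8, [.N 6]⟩,
  ⟨135, 85, 11, 8, [.N 7]⟩,
  ⟨135, 86, 3, 29, [.N 26]⟩,
  ⟨137, 86, 11, 8, [.N 8]⟩,
  ⟨139, 86, 10, 9, [.N 18]⟩,
  ⟨148, 90, 5, 19, [.N 36]⟩,
  ⟨150, 90, 6, 16, [.N 35, .N 5]⟩,
  ⟨150, 91, 3, 31, [.N 28]⟩,
  ⟨152, 90, 9, 11, [.N 31]⟩,
  ⟨152, 91, 3, 31, [.N 28]⟩,
  ⟨154, 91, 10, 10, [.N 20, .N 5]⟩,
  ⟨154, 92, 4, 24, [.N 34]⟩,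
  ⟨156, 91, 10, 10, [.N 25]⟩,
  ⟨156, 92, 12, 8, [.N 6]⟩,
  ⟨158, 92, 12, 8, [.N 7]⟩,
  ⟨158, 93, 5, 19, [.N 38]⟩,
  ⟨160, 93, 12, 8, [.N 8]⟩,
  ⟨160, 94, 3, 32, [.N 29]⟩,
  ⟨162, 93, 10, 10, [.N 28]⟩,
  ⟨162, 94, 4, 24, [.N 35]⟩,
  ⟨164, 94, 12, 8, [.N 10]⟩,
  ⟨166, 94, 9, 11, [.N 36]⟩,
  ⟨177, 99, 3, 34, [.N 31]⟩,
  ⟨179, 99, 5, 20, [.N 42]⟩,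
  ⟨181, 99, 6, 17, [.N 42, .N 6]⟩,
  ⟨181, 100, 2, 51, [.N 23]⟩,
  ⟨183, 99, 11, 10, [.N 29]⟩,
  ⟨183, 100, 13, 8, [.N 7]⟩,
  ⟨185, 100, 13, 8, [.N 8]⟩,
  ⟨185, 101, 3, 34, [.N 32]⟩,
  ⟨187, 100, 10, 11, [.N 38]⟩,
  ⟨187, 101, 13, 8, [.N 9]⟩,
  ⟨189, 101, 13, 8, [.N 10]⟩,
  ⟨189, 102, 4, 26, [.N 39]⟩,
  ⟨191, 101, 11, 10, [.N 32]⟩,
  ⟨191, 102, 13, 8, [.N 11]⟩,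
  ⟨193, 102, 13, 8, [.N 12]⟩,
  ⟨212, 108, 5, 22, [.N 48]⟩,
  ⟨214, 108, 14, 8, [.N 9]⟩,
  ⟨216, 108, 14, 8, [.N 10]⟩,
  ⟨216, 109, 3, 37, [.N 35]⟩,
  ⟨218, 108, 12, 10, [.N 34]⟩,
  ⟨218, 109, 14, 8, [.N 11]⟩,
  ⟨220, 109, 14, 8, [.N 12]⟩,
  ⟨220, 110, 5, 23, [.N 49]⟩,
  ⟨222, 110, 14, 8, [.N 13]⟩,
  ⟨224, 110, 14, 8, [.N 13]⟩,
  ⟨247, 117, 3, 40, [.N 38]⟩,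
  ⟨249, 117, 4, 30, [.N 47]⟩]

theorem tab_7_2 : tabB 7 cert_7_2 128 123 81 = true := by decide +kernel

/-- certificates for `m = 7`, `251 ≤ r < 295` -/
def cert_7_3 : List Cert := [
  ⟨251, 117, 15, 8, [.N 13]⟩,
  ⟨251, 118, 4, 30, [.N 47]⟩,
  ⟨253, 117, 14, 9, [.N 27]⟩,
  ⟨253, 118, 14, 9, [.N 28]⟩,
  ⟨255, 118, 15, 8, [.N 15]⟩,
  ⟨257, 118, 15, 8, [.N 15]⟩,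
  ⟨259, 118, 13, 10, [.N 41]⟩,
  ⟨286, 126, 1, 127, [.N 16]⟩,
  ⟨288, 126, 1, 127, [.N 16]⟩,
  ⟨290, 126, 16, 8, [.N 17]⟩,
  ⟨292, 126, 16, 8, [.N 18]⟩,
  ⟨294, 126, 14, 10, [.N 45]⟩]

theorem tab_7_3 : tabB 7 cert_7_3 44 251 117 = true := by decide +kernel

theorem small_7 [Infinite K] (r : ℕ) (hr : 10 ≤ r) (d : ℕ) : Case K r 7 d := by
  rcases Nat.lt_or_ge r 295 with h | h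
  · by_cases c0 : r < 56
    · exact case_of_tabB 7 _ 46 10 22 tab_7_0 r (by omega) (by omega) d
    by_cases c1 : r < 123
    · exact case_of_tabB 7 _ 67 56 54 tab_7_1 r (by omega) (by omega) d
    by_cases c2 : r < 251
    · exact case_of_tabB 7 _ 128 123 81 tab_7_2 r (by omega) (by omega) d
    exact case_of_tabB 7 _ 44 251 117 tab_7_3 r (by omega) (by omega) d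
  · exact case_large r 7 (by norm_num) (by omega) d

end Pool.Agent.Helper22.E6
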